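import Mathlib

/-!
# Binary forms in coordinates
-/

namespace Pool.Agent.Helper14

open MvPolynomial

/-- exponent of the monomial `x ^ (m - i) * y ^ i` -/
noncomputable def ex (m i : ℕ) : Fin 2 →₀ ℕ := Finsupp.single 0 (m - i) + Finsupp.single 1 i

/-- The binary form of degree `m` with coefficient vector `c`. -/
noncomputable def hom (m : ℕ) (c : Fin (m + 1) → ℂ) : MvPolynomial (Fin 2) ℂ :=
  ∑ i : Fin (m + 1), monomial (ex m i) (c i)

theorem ex_inj {m i i' : ℕ} (h : ex m i = ex m i') : i = i' := by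
  have := congrArg (fun e : Fin 2 →₀ ℕ => e 1) h
  simpa [ex] using this

theorem coeff_hom (m : ℕ) (c : Fin (m + 1) → ℂ) (i : Fin (m + 1)) :
    coeff (ex m i) (hom m c) = c i := by
  classical
  rw [hom, coeff_sum, Finset.sum_eq_single i]
  · simp
  · intro b _ hb
    rw [coeff_monomial, if_neg]
    intro h
    exact hb (Fin.ext (ex_inj h))
  · simp

theorem hom_injective (m : ℕ) : Function.Injective (hom m) := by
  intro c c' h
  funext i
  rw [← coeff_hom m c i, h, coeff_hom]

theorem isHomogeneous_hom (m : ℕ) (c : Fin (m + 1) → ℂ) : (hom m c).IsHomogeneous m := by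
  unfold hom
  apply IsHomogeneous.sum
  intro i _
  apply isHomogeneous_monomial
  have : (i : ℕ) ≤ m := Nat.lt_succ_iff.1 i.2
  simp only [ex, map_add, Finsupp.degree_single]
  omega

/-- every binary form comes from its coefficient vector -/
theorem hom_coeff {m : ℕ} {f : MvPolynomial (Fin 2) ℂ} (hf : f.IsHomogeneous m) :
    hom m (fun i => coeff (ex m i) f) = f := by
  classical
  ext e
  by_cases he : e.degree = m
  · have h1 : e 0 + e 1 = m := by
      rw [Finsupp.degree_eq_sum, Fin.sum_univ_two] at he; exact he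
    have h2 : e = ex m (e 1) := by
      ext i
      fin_cases i
      · simp [ex]; omega
      · simp [ex]
    have h3 : e 1 < m + 1 := by omega
    have h4 := coeff_hom m (fun i => coeff (ex m i) f) ⟨e 1, h3⟩
    simp only at h4
    rw [← h2] at h4
    exact h4
  · rw [(isHomogeneous_hom m _).coeff_eq_zero he, hf.coeff_eq_zero he]

theorem hom_zero (m : ℕ) : hom m 0 = 0 := by simp [hom]

theorem hom_add (m : ℕ) (c c' : Fin (m + 1) → ℂ) : hom m (c + c') = hom m c + hom m c' := by
  simp [hom, Finset.sum_add_distrib]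

theorem hom_sum {ι : Type*} (m : ℕ) (s : Finset ι) (c : ι → Fin (m + 1) → ℂ) :
    hom m (∑ i ∈ s, c i) = ∑ i ∈ s, hom m (c i) := by
  classical
  induction s using Finset.induction_on with
  | empty => simp [hom_zero]
  | insert a s ha ih => rw [Finset.sum_insert ha, Finset.sum_insert ha, hom_add, ih]

theorem hom_smul (m : ℕ) (z : ℂ) (c : Fin (m + 1) → ℂ) : hom m (z • c) = C z * hom m c := by
  rw [hom, hom, Finset.mul_sum]
  refine Finset.sum_congr rfl (fun i _ => ?_)
  rw [C_mul_monomial]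
  rfl

/-- coefficients of the `k`-th power -/
noncomputable def powCoeff (k : ℕ) {d : ℕ} (b : Fin (d + 1) → ℂ) (B : ℕ) : ℂ :=
  ∑ t : Fin k → Fin (d + 1), if ∑ l, (t l : ℕ) = B then ∏ l, b (t l) else 0

theorem sum_ex {k d : ℕ} (t : Fin k → Fin (d + 1)) :
    ∑ l, ex d (t l) = ex (k * d) (∑ l, (t l : ℕ)) := by
  have h : ∀ l, (t l : ℕ) ≤ d := fun l => Nat.lt_succ_iff.1 (t l).2
  ext i
  fin_cases i
  · have h1 : ∑ l, (d - (t l : ℕ)) + ∑ l, (t l : ℕ) = k * d := by
      rw [← Finset.sum_add_distrib]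
      rw [Finset.sum_congr rfl (fun l _ => Nat.sub_add_cancel (h l))]
      simp
    simp only [ex, Fin.zero_eta, Finsupp.coe_finsetSum, Finset.sum_apply,
      Finsupp.coe_add, Pi.add_apply, Finsupp.single_eq_same]
    have h2 : ∀ x : ℕ, (Finsupp.single (1 : Fin 2) x) (0 : Fin 2) = 0 := by intro x; simp
    simp only [h2, add_zero]
    omega
  · simp [ex]

theorem sum_le_aux {k d : ℕ} (t : Fin k → Fin (d + 1)) : ∑ l, (t l : ℕ) ≤ k * d := by
  calc ∑ l, (t l : ℕ) ≤ ∑ _l : Fin k, d := Finset.sum_le_sum (fun l _ => Nat.lt_succ_iff.1 (t l).2)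
    _ = k * d := by simp

theorem hom_pow (k d : ℕ) (b : Fin (d + 1) → ℂ) :
    hom d b ^ k = hom (k * d) (fun B => powCoeff k b B) := by
  classical
  have h1 : hom d b ^ k = ∑ t : Fin k → Fin (d + 1),
      monomial (ex (k * d) (∑ l, (t l : ℕ))) (∏ l, b (t l)) := by
    rw [hom, Fintype.sum_pow]
    refine Finset.sum_congr rfl (fun t _ => ?_)
    rw [← sum_ex]
    exact (monomial_sum_prod _ _ _).symm
  rw [h1]
  unfold hom powCoeff
  have h2 : ∀ B : Fin (k * d + 1),
      (monomial (ex (k * d) (B : ℕ))) (∑ t : Fin k → Fin (d + 1),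
        if ∑ l, (t l : ℕ) = (B : ℕ) then ∏ l, b (t l) else 0)
      = ∑ t : Fin k → Fin (d + 1), if ∑ l, (t l : ℕ) = (B : ℕ) then
        (monomial (ex (k * d) (B : ℕ))) (∏ l, b (t l)) else 0 := by
    intro B
    rw [map_sum]
    refine Finset.sum_congr rfl (fun t _ => ?_)
    split
    · rfl
    · exact map_zero _
  simp only [h2]
  rw [Finset.sum_comm]
  refine Finset.sum_congr rfl (fun t _ => ?_)
  have hlt : ∑ l, (t l : ℕ) < k * d + 1 := Nat.lt_succ_of_le (sum_le_aux t)
  rw [Finset.sum_eq_single (⟨∑ l, (t l : ℕ), hlt⟩ : Fin (k * d + 1))]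
  · rw [if_pos rfl]
  · intro B _ hB
    rw [if_neg]
    intro h
    exact hB (Fin.ext h.symm)
  · simp

/-- equal `k`-th powers in a domain over `ℂ` differ by a root of unity -/
theorem eq_root_mul_of_pow_eq {R : Type*} [CommRing R] [IsDomain R] [Algebra ℂ R] {k : ℕ}
    (hk : 0 < k) {p q : R} (h : p ^ k = q ^ k) :
    ∃ z : ℂ, z ^ k = 1 ∧ p = algebraMap ℂ R z * q := by
  have hprim := Complex.isPrimitiveRoot_exp k hk.ne'
  have hinj : Function.Injective (algebraMap ℂ R) := FaithfulSMul.algebraMap_injective ℂ R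
  have hprim' : IsPrimitiveRoot (algebraMap ℂ R (Complex.exp (2 * Real.pi * Complex.I / k))) k :=
    hprim.map_of_injective hinj
  have h1 := hprim'.pow_sub_pow_eq_prod_sub_mul p q hk
  rw [h, sub_self] at h1
  obtain ⟨η, hη, h2⟩ := Finset.prod_eq_zero_iff.1 h1.symm
  rw [Polynomial.mem_nthRootsFinset hk] at hη
  have : NeZero k := ⟨hk.ne'⟩
  obtain ⟨i, _, hi⟩ := hprim'.eq_pow_of_pow_eq_one hη
  refine ⟨Complex.exp (2 * Real.pi * Complex.I / k) ^ i, ?_, ?_⟩
  · rw [pow_right_comm, hprim.pow_eq_one, one_pow]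
  · rw [map_pow, hi]
    exact sub_eq_zero.1 h2

/-- equal powers in coordinates -/
theorem eq_root_smul_of_powCoeff_eq {k d : ℕ} (hk : 0 < k) {b b' : Fin (d + 1) → ℂ}
    (h : ∀ B : Fin (k * d + 1), powCoeff k b B = powCoeff k b' B) :
    ∃ z : ℂ, z ^ k = 1 ∧ b = z • b' := by
  have h1 : hom d b ^ k = hom d b' ^ k := by
    rw [hom_pow, hom_pow]
    congr 1
    funext B
    exact h B
  obtain ⟨z, hz, h2⟩ := eq_root_mul_of_pow_eq hk h1
  refine ⟨z, hz, hom_injective d ?_⟩
  rw [hom_smul, h2]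
  rfl

end Pool.Agent.Helper14
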