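import Mathlib

/-!
# Generic fibres of polynomial maps between affine spaces of the same dimension

For polynomials `w t` (`t ∈ τ`) in variables indexed by `σ`, with `#σ = #τ`, which are
algebraically independent, the fibre of the map `x ↦ (w t (x))_t` over a general point has a
constant finite number of points, and this number is at most `D ^ #σ` if every `w t` has degree
at most `D`.
-/

namespace Pool.Agent.Helper14

open Polynomial in
theorem exists_primitive_integral {A B : Type} [CommRing A] [IsDomain A] [IsIntegrallyClosed A]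
    [CommRing B] [IsDomain B] [IsIntegrallyClosed B] [Algebra A B] [FaithfulSMul A B] [CharZero A]
    [Algebra.FiniteType A B] [Algebra.IsAlgebraic A B] :
    ∃ b : B, IsIntegral A b ∧ ∀ x : B, ∃ a : A, a ≠ 0 ∧ ∃ r : A[X],
      algebraMap A B a * x = aeval b r := by
  let K := FractionRing A
  let L := FractionRing B
  let : Algebra K L := FractionRing.liftAlgebra A L
  have tower : IsScalarTower A K L := FractionRing.isScalarTower_liftAlgebra A L
  have h1 : Algebra.IsAlgebraic A L := (IsFractionRing.isAlgebraic_iff' A B L).1 inferInstance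
  have h2 : Algebra.IsAlgebraic K L := ⟨fun _ ↦ (IsFractionRing.isAlgebraic_iff A K L).1
    (Algebra.IsAlgebraic.isAlgebraic _)⟩
  have h3 : Algebra.EssFiniteType A L := Algebra.EssFiniteType.comp A B L
  have h4 : Algebra.EssFiniteType K L := Algebra.EssFiniteType.of_comp A K L
  have h5 : Module.Finite K L := Algebra.finite_of_essFiniteType_of_isAlgebraic
  have h6 : CharZero K := charZero_of_injective_algebraMap (IsFractionRing.injective A K)
  obtain ⟨α, hα⟩ := Field.exists_primitive_element K L
  obtain ⟨y, hy0, hy⟩ := (Algebra.IsAlgebraic.isAlgebraic (R := A) α).exists_integral_multiple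
  have hyB : IsIntegral B (y • α) := hy.tower_top
  obtain ⟨b, hb⟩ := (IsIntegrallyClosed.isIntegral_iff (R := B) (K := L)).1 hyB
  have hinjBL : Function.Injective (algebraMap B L) := IsFractionRing.injective B L
  have hbint : IsIntegral A b := by
    rw [← hb] at hy
    exact (isIntegral_algebraMap_iff hinjBL).1 hy
  refine ⟨b, hbint, fun x => ?_⟩
  have hαtop : Algebra.adjoin K {α} = ⊤ :=
    (IntermediateField.adjoin_simple_eq_top_iff_of_isAlgebraic
      (Algebra.IsAlgebraic.isAlgebraic α)).1 hα
  have hxmem : algebraMap B L x ∈ Algebra.adjoin K {α} := by rw [hαtop]; trivial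
  rw [Algebra.adjoin_singleton_eq_range_aeval] at hxmem
  obtain ⟨p, hp⟩ := hxmem
  have hyK : algebraMap A K y ≠ 0 := by
    intro h
    exact hy0 ((injective_iff_map_eq_zero _).1 (IsFractionRing.injective A K) y h)
  let q : K[X] := p.comp (C (algebraMap A K y)⁻¹ * X)
  have hq : aeval (algebraMap B L b) q = algebraMap B L x := by
    rw [← hp, hb]
    simp only [q, aeval_comp, map_mul, aeval_C, aeval_X, AlgHom.toRingHom_eq_coe, RingHom.coe_coe]
    congr 1
    rw [← algebraMap_smul K y α, Algebra.smul_def, ← mul_assoc, ← map_mul, inv_mul_cancel₀ hyK]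
    simp
  obtain ⟨c, hc, hcq⟩ := IsLocalization.integerNormalization_spec (nonZeroDivisors A) q
  refine ⟨c, nonZeroDivisors.ne_zero hc,
    IsLocalization.integerNormalization (nonZeroDivisors A) q, ?_⟩
  apply hinjBL
  have e1 : algebraMap B L (aeval b (IsLocalization.integerNormalization (nonZeroDivisors A) q))
      = aeval (algebraMap B L b) (IsLocalization.integerNormalization (nonZeroDivisors A) q) :=
    (aeval_algebraMap_apply L b _).symm
  rw [e1, ← aeval_map_algebraMap K, hcq, map_mul]
  rw [← algebraMap_smul K c q, map_smul, hq, Algebra.smul_def, ← IsScalarTower.algebraMap_apply,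
    ← IsScalarTower.algebraMap_apply]

open MvPolynomial

section

variable {σ τ : Type}

/-- The point `(w t (x))_t`. -/
noncomputable def polyMap (w : τ → MvPolynomial σ ℂ) (x : σ → ℂ) : τ → ℂ :=
  fun t => eval x (w t)

theorem eval_aeval_polyMap (w : τ → MvPolynomial σ ℂ) (x : σ → ℂ) (a : MvPolynomial τ ℂ) :
    eval x (aeval w a) = eval (polyMap w x) a := by
  have : (eval x).comp (aeval w : MvPolynomial τ ℂ →ₐ[ℂ] MvPolynomial σ ℂ).toRingHom
      = eval (polyMap w x) := by
    apply MvPolynomial.ringHom_ext
    · intro r; simp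
    · intro i; simp [polyMap]
  exact congrArg (fun g => g a) this

/-- The structure of `MvPolynomial τ ℂ`-algebra on `MvPolynomial σ ℂ` given by `w`. -/
@[reducible]
noncomputable def algInst (w : τ → MvPolynomial σ ℂ) :
    Algebra (MvPolynomial τ ℂ) (MvPolynomial σ ℂ) := (aeval w).toRingHom.toAlgebra

/-- the algebra `MvPolynomial σ ℂ` over `MvPolynomial τ ℂ` through `w` is algebraic. -/
theorem isAlgebraic_of_algebraicIndependent [Fintype σ] [Fintype τ] (w : τ → MvPolynomial σ ℂ)
    (hw : AlgebraicIndependent ℂ w) (hcard : Fintype.card σ = Fintype.card τ) :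
    @Algebra.IsAlgebraic (MvPolynomial τ ℂ) (MvPolynomial σ ℂ) _ _ (algInst w) := by
  let inst := algInst w
  have hb : IsTranscendenceBasis ℂ w := by
    apply hw.isTranscendenceBasis_of_trdeg_le_of_finite
    rw [MvPolynomial.trdeg_of_isDomain]
    simp [hcard]
  have h1 := hb.isAlgebraic
  refine Algebra.IsAlgebraic.of_ringHom_of_comp_eq (S := Algebra.adjoin ℂ (Set.range w))
    (B := MvPolynomial σ ℂ) (hw.aevalEquiv : MvPolynomial τ ℂ ≃ₐ[ℂ] _)
    (RingHom.id (MvPolynomial σ ℂ)) hw.aevalEquiv.surjective (fun _ _ h => h) ?_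
  ext x
  · simp [RingHom.algebraMap_toAlgebra]
  · simp [RingHom.algebraMap_toAlgebra]

/-- A nonzero polynomial does not vanish on the fibres over general points. -/
theorem exists_ne_zero_on_fiber [Fintype σ] [Fintype τ] (w : τ → MvPolynomial σ ℂ)
    (hw : AlgebraicIndependent ℂ w) (hcard : Fintype.card σ = Fintype.card τ)
    (δ : MvPolynomial σ ℂ) (hδ : δ ≠ 0) :
    ∃ P : MvPolynomial τ ℂ, P ≠ 0 ∧ ∀ x : σ → ℂ, eval (polyMap w x) P ≠ 0 → eval x δ ≠ 0 := by
  let inst := algInst w
  have halg := isAlgebraic_of_algebraicIndependent w hw hcard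
  obtain ⟨r, hr, hdvd⟩ := (Algebra.IsAlgebraic.isAlgebraic (R := MvPolynomial τ ℂ) δ).exists_nonzero_dvd
    (mem_nonZeroDivisors_of_ne_zero hδ)
  refine ⟨r, hr, fun x hx h0 => hx ?_⟩
  obtain ⟨c, hc⟩ := hdvd
  have h1 : eval x (aeval w r) = 0 := by
    have : (aeval w r : MvPolynomial σ ℂ) = δ * c := hc
    rw [this, map_mul, h0, zero_mul]
  rwa [eval_aeval_polyMap] at h1

/-- Constancy of the number of points of a general fibre. -/
theorem exists_generic_card [Fintype σ] [Fintype τ] (w : τ → MvPolynomial σ ℂ)
    (hw : AlgebraicIndependent ℂ w) (hcard : Fintype.card σ = Fintype.card τ) :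
    ∃ (N : ℕ) (P : MvPolynomial τ ℂ), P ≠ 0 ∧
      (∀ f : τ → ℂ, eval f P ≠ 0 → {x : σ → ℂ | polyMap w x = f}.encard = N) ∧
      ∃ b : MvPolynomial σ ℂ, ∀ a : Fin N → MvPolynomial τ ℂ,
        ∑ i, aeval w (a i) * b ^ (i : ℕ) = 0 → ∀ i, a i = 0 := by
  classical
  let inst := algInst w
  have halg := isAlgebraic_of_algebraicIndependent w hw hcard
  have hinj : Function.Injective (algebraMap (MvPolynomial τ ℂ) (MvPolynomial σ ℂ)) := hw
  have hfaith : FaithfulSMul (MvPolynomial τ ℂ) (MvPolynomial σ ℂ) :=
    (faithfulSMul_iff_algebraMap_injective _ _).2 hinj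
  have htower : IsScalarTower ℂ (MvPolynomial τ ℂ) (MvPolynomial σ ℂ) :=
    IsScalarTower.of_algebraMap_eq (fun r => by
      show C r = aeval w (C r)
      simp)
  have hft : Algebra.FiniteType (MvPolynomial τ ℂ) (MvPolynomial σ ℂ) :=
    Algebra.FiniteType.of_restrictScalars_finiteType ℂ _ _
  have halgmap : ∀ a : MvPolynomial τ ℂ,
      algebraMap (MvPolynomial τ ℂ) (MvPolynomial σ ℂ) a = aeval w a := fun a => rfl
  obtain ⟨b, hbint, hb⟩ := exists_primitive_integral (A := MvPolynomial τ ℂ) (B := MvPolynomial σ ℂ)
  set M := minpoly (MvPolynomial τ ℂ) b with hM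
  have hMmonic : M.Monic := minpoly.monic hbint
  have hMdeg : 0 < M.natDegree := minpoly.natDegree_pos hbint
  have hker : ∀ q : Polynomial (MvPolynomial τ ℂ), Polynomial.aeval b q = 0 → M ∣ q :=
    fun q hq => minpoly.isIntegrallyClosed_dvd hbint hq
  -- denominators
  choose a ha0 r hr using fun i : σ => hb (X i)
  -- common denominator
  set a0 : MvPolynomial τ ℂ := ∏ i, a i with ha0def
  have ha0ne : a0 ≠ 0 := Finset.prod_ne_zero_iff.2 (fun i _ => ha0 i)
  have hR : ∀ i : σ, ∃ R : Polynomial (MvPolynomial τ ℂ),
      aeval w a0 * X i = Polynomial.aeval b R := by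
    intro i
    refine ⟨Polynomial.C (∏ j ∈ Finset.univ.erase i, a j) * r i, ?_⟩
    rw [map_mul, Polynomial.aeval_C, ← hr i, ha0def, ← Finset.mul_prod_erase _ _ (Finset.mem_univ i),
      map_mul, halgmap, halgmap]
    ring
  choose R hR using hR
  -- the derivative
  set δ : MvPolynomial σ ℂ := Polynomial.aeval b (Polynomial.derivative M) with hδ
  have hδ0 : δ ≠ 0 := by
    intro h
    have h1 := hker _ h
    have h2 : Polynomial.derivative M ≠ 0 := by
      intro h3
      have := Polynomial.derivative_eq_zero.1 h3
      omega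
    have h3 := Polynomial.natDegree_le_of_dvd h1 h2
    have h4 := Polynomial.natDegree_derivative_lt (p := M) (by omega)
    omega
  obtain ⟨P1, hP1, hP1'⟩ := exists_ne_zero_on_fiber w hw hcard δ hδ0
  refine ⟨M.natDegree, a0 * P1, mul_ne_zero ha0ne hP1, ?_, ?_⟩
  · intro f hf
    rw [map_mul] at hf
    have hfa : eval f a0 ≠ 0 := left_ne_zero_of_mul hf
    have hfP : eval f P1 ≠ 0 := right_ne_zero_of_mul hf
    set S : Set (σ → ℂ) := {x : σ → ℂ | polyMap w x = f} with hS
    -- evaluation at points of the fibre
    have hev : ∀ x ∈ S, ∀ q : Polynomial (MvPolynomial τ ℂ),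
        eval x (Polynomial.aeval b q) = (q.map (eval f)).eval (eval x b) := by
      intro x hx q
      have hx' : polyMap w x = f := hx
      have : (eval x).comp (algebraMap (MvPolynomial τ ℂ) (MvPolynomial σ ℂ)) = eval f := by
        refine RingHom.ext (fun z => ?_)
        show eval x (aeval w z) = eval f z
        rw [eval_aeval_polyMap, hx']
      rw [Polynomial.aeval_def, Polynomial.hom_eval₂, this, Polynomial.eval_map]
    set Mf : Polynomial ℂ := M.map (eval f) with hMf
    have hMfmonic : Mf.Monic := hMmonic.map _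
    have hMfdeg : Mf.natDegree = M.natDegree := hMmonic.natDegree_map _
    -- every root comes from the fibre
    have hroots : ∀ z : ℂ, Mf.eval z = 0 → ∃ x ∈ S, eval x b = z := by
      intro z hz
      have hkz : ∀ q : Polynomial (MvPolynomial τ ℂ), Polynomial.aeval b q = 0 →
          (q.map (eval f)).eval z = 0 := by
        intro q hq
        obtain ⟨c, hc⟩ := hker q hq
        rw [hc, Polynomial.map_mul, Polynomial.eval_mul]
        simp only [hMf] at hz
        rw [hz, zero_mul]
      set x : σ → ℂ := fun i => ((R i).map (eval f)).eval z / eval f a0 with hx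
      have key : ∀ p : MvPolynomial σ ℂ, ∃ (D : ℕ) (q : Polynomial (MvPolynomial τ ℂ)),
          aeval w a0 ^ D * p = Polynomial.aeval b q ∧
          (q.map (eval f)).eval z = eval f a0 ^ D * eval x p := by
        intro p
        induction p using MvPolynomial.induction_on with
        | C c =>
          refine ⟨0, Polynomial.C (C c), ?_, ?_⟩
          · rw [Polynomial.aeval_C, halgmap]; simp
          · simp
        | add p1 p2 h1 h2 =>
          obtain ⟨D1, q1, h11, h12⟩ := h1
          obtain ⟨D2, q2, h21, h22⟩ := h2
          refine ⟨D1 + D2, Polynomial.C (a0 ^ D2) * q1 + Polynomial.C (a0 ^ D1) * q2, ?_, ?_⟩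
          · rw [map_add, map_mul, map_mul, Polynomial.aeval_C, Polynomial.aeval_C, halgmap, halgmap,
              ← h11, ← h21, map_pow, map_pow]
            ring
          · rw [Polynomial.map_add, Polynomial.map_mul, Polynomial.map_mul, Polynomial.eval_add,
              Polynomial.eval_mul, Polynomial.eval_mul, h12, h22, Polynomial.map_C,
              Polynomial.map_C, Polynomial.eval_C, Polynomial.eval_C, map_pow, map_pow, map_add]
            ring
        | mul_X p1 i h1 =>
          obtain ⟨D1, q1, h11, h12⟩ := h1
          refine ⟨D1 + 1, q1 * R i, ?_, ?_⟩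
          · rw [map_mul, ← h11, ← hR i]; ring
          · rw [Polynomial.map_mul, Polynomial.eval_mul, h12, map_mul, eval_X, hx, pow_succ]
            field_simp
      have hval : ∀ (p : MvPolynomial σ ℂ) (q : Polynomial (MvPolynomial τ ℂ)),
          p = Polynomial.aeval b q → eval x p = (q.map (eval f)).eval z := by
        intro p q hpq
        obtain ⟨D, q1, h1, h2⟩ := key p
        have h3 : Polynomial.aeval b (q1 - Polynomial.C (a0 ^ D) * q) = 0 := by
          rw [map_sub, ← h1, map_mul, Polynomial.aeval_C, halgmap, map_pow, ← hpq, sub_self]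
        have h4 := hkz _ h3
        rw [Polynomial.map_sub, Polynomial.eval_sub, h2, Polynomial.map_mul, Polynomial.eval_mul,
          Polynomial.map_C, Polynomial.eval_C, map_pow, ← mul_sub] at h4
        have h5 := (mul_eq_zero.1 h4).resolve_left (pow_ne_zero _ hfa)
        exact sub_eq_zero.1 h5
      refine ⟨x, ?_, ?_⟩
      · show polyMap w x = f
        funext t
        have := hval (w t) (Polynomial.C (X t)) (by rw [Polynomial.aeval_C, halgmap, aeval_X])
        rw [polyMap, this]
        simp
      · have := hval b Polynomial.X (by rw [Polynomial.aeval_X])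
        rw [this]; simp
    -- the value of `b` is a root
    have hisroot : ∀ x ∈ S, Mf.eval (eval x b) = 0 := by
      intro x hx
      have := hev x hx M
      rw [minpoly.aeval, map_zero] at this
      exact this.symm
    have hsimple : ∀ z : ℂ, Mf.eval z = 0 → (Polynomial.derivative Mf).eval z ≠ 0 := by
      intro z hz
      obtain ⟨x, hx, rfl⟩ := hroots z hz
      have h1 := hev x hx (Polynomial.derivative M)
      rw [hMf, Polynomial.derivative_map, ← h1]
      apply hP1' x
      rw [show polyMap w x = f from hx]
      exact hfP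
    have hnodup : Mf.roots.Nodup := by
      rw [Multiset.nodup_iff_count_le_one]
      intro z
      rw [Polynomial.count_roots]
      by_contra hcon
      push Not at hcon
      have hne : Mf ≠ 0 := hMfmonic.ne_zero
      have hz : Mf.eval z = 0 := by
        have : 0 < Mf.rootMultiplicity z := by omega
        exact (Polynomial.rootMultiplicity_pos hne).1 this
      exact hsimple z hz (Polynomial.one_lt_rootMultiplicity_iff_isRoot hne |>.1 hcon).2
    have hbij : (fun x : σ → ℂ => eval x b) '' S = (Mf.roots.toFinset : Set ℂ) := by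
      ext z
      simp only [Set.mem_image, Finset.mem_coe, Multiset.mem_toFinset]
      rw [Polynomial.mem_roots hMfmonic.ne_zero, Polynomial.IsRoot.def]
      constructor
      · rintro ⟨x, hx, rfl⟩
        exact hisroot x hx
      · intro hz
        obtain ⟨x, hx, h⟩ := hroots z hz
        exact ⟨x, hx, h⟩
    have hinjOn : Set.InjOn (fun x : σ → ℂ => eval x b) S := by
      intro x hx y hy hxy
      funext i
      have h1 : eval x (aeval w a0 * X i) = eval y (aeval w a0 * X i) := by
        rw [hR i, hev x hx, hev y hy]
        simp only at hxy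
        rw [hxy]
      rw [map_mul, map_mul, eval_aeval_polyMap, eval_aeval_polyMap, show polyMap w x = f from hx,
        show polyMap w y = f from hy, eval_X, eval_X] at h1
      exact mul_left_cancel₀ hfa h1
    rw [← hinjOn.encard_image, hbij, Set.encard_coe_eq_coe_finsetCard,
      Multiset.toFinset_card_of_nodup hnodup,
      ← (Polynomial.splits_iff_card_roots.1 (IsAlgClosed.splits Mf)).symm, hMfdeg]
  · refine ⟨b, fun c hc i => ?_⟩
    -- linear independence of the powers of `b`
    set q : Polynomial (MvPolynomial τ ℂ) :=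
      ∑ i : Fin M.natDegree, Polynomial.C (c i) * Polynomial.X ^ (i : ℕ) with hq
    have h1 : Polynomial.aeval b q = 0 := by
      rw [hq, map_sum, ← hc]
      refine Finset.sum_congr rfl (fun j _ => ?_)
      rw [map_mul, Polynomial.aeval_C, map_pow, Polynomial.aeval_X, halgmap]
    have h2 := hker q h1
    have h3 : q.natDegree < M.natDegree := by
      rw [hq]
      have : (∑ i : Fin M.natDegree, Polynomial.C (c i) * Polynomial.X ^ (i : ℕ)).natDegree
          ≤ M.natDegree - 1 := by
        apply Polynomial.natDegree_sum_le_of_forall_le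
        intro j _
        refine (Polynomial.natDegree_C_mul_X_pow_le _ _).trans ?_
        have := j.2
        omega
      omega
    have h4 : q = 0 := Polynomial.eq_zero_of_dvd_of_natDegree_lt h2 h3
    have h5 : q.coeff (i : ℕ) = c i := by
      rw [hq, Polynomial.finsetSum_coeff, Finset.sum_eq_single i]
      · simp
      · intro j _ hj
        rw [Polynomial.coeff_C_mul_X_pow, if_neg]
        intro h
        exact hj (Fin.ext h.symm)
      · simp
    rw [← h5, h4, Polynomial.coeff_zero]

end

end Pool.Agent.Helper14
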