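import Mathlib

/-!
# A Hilbert function bound

If `1, b, ..., b ^ (N-1)` are linearly independent over the subring of `ℂ[x_σ]` generated by
`#σ` polynomials of degree at most `D`, then `N ≤ D ^ #σ`.
-/

namespace Pool.Agent.Helper14

open MvPolynomial

/-- Number of exponent vectors of total degree at most `M`. -/
noncomputable def cnt (α : Type) [Fintype α] (M : ℕ) : ℕ :=
  Nat.card {f : α → ℕ // ∑ i, f i ≤ M}

theorem finite_cnt (α : Type) [Fintype α] (M : ℕ) : Finite {f : α → ℕ // ∑ i, f i ≤ M} := by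
  classical
  have hinj : Function.Injective (fun f : {f : α → ℕ // ∑ i, f i ≤ M} =>
      (fun i => (⟨f.1 i, Nat.lt_succ_of_le
        ((Finset.single_le_sum (fun j _ => Nat.zero_le (f.1 j)) (Finset.mem_univ i)).trans f.2)⟩
          : Fin (M + 1)))) := by
    intro f g h
    apply Subtype.ext
    funext i
    have := congrFun h i
    simpa using congrArg Fin.val this
  exact Finite.of_injective _ hinj

theorem cnt_pos (α : Type) [Fintype α] (M : ℕ) : 0 < cnt α M := by
  have := finite_cnt α M
  have : Nonempty {f : α → ℕ // ∑ i, f i ≤ M} := ⟨⟨fun _ => 0, by simp⟩⟩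
  exact Nat.card_pos

theorem cnt_le_pow (α : Type) [Fintype α] (M : ℕ) : cnt α M ≤ (M + 1) ^ Fintype.card α := by
  classical
  have hinj : Function.Injective (fun f : {f : α → ℕ // ∑ i, f i ≤ M} =>
      (fun i => (⟨f.1 i, Nat.lt_succ_of_le
        ((Finset.single_le_sum (fun j _ => Nat.zero_le (f.1 j)) (Finset.mem_univ i)).trans f.2)⟩
          : Fin (M + 1)))) := by
    intro f g h
    apply Subtype.ext
    funext i
    have := congrFun h i
    simpa using congrArg Fin.val this
  have h := Nat.card_le_card_of_injective _ hinj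
  simpa [cnt, Nat.card_eq_fintype_card] using h

theorem cnt_congr {α β : Type} [Fintype α] [Fintype β] (h : Fintype.card α = Fintype.card β)
    (M : ℕ) : cnt α M = cnt β M := by
  have e : α ≃ β := Fintype.equivOfCardEq h
  refine Nat.card_congr ?_
  refine (Equiv.arrowCongr e (Equiv.refl ℕ)).subtypeEquiv ?_
  intro f
  have : ∑ i, (Equiv.arrowCongr e (Equiv.refl ℕ)) f i = ∑ i, f i := by
    rw [← Equiv.sum_comp e]
    simp
  rw [this]

theorem cnt_mul_add_le (α : Type) [Fintype α] (D : ℕ) (hD : 1 ≤ D) (M e : ℕ) :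
    cnt α (D * M + e) ≤ D ^ Fintype.card α * cnt α (M + e) := by
  classical
  have h1 := finite_cnt α (M + e)
  have hinj : Function.Injective (fun f : {f : α → ℕ // ∑ i, f i ≤ D * M + e} =>
      ((fun i => (⟨f.1 i % D, Nat.mod_lt _ hD⟩ : Fin D)),
        (⟨fun i => f.1 i / D, by
          have h2 : D * ∑ i, f.1 i / D ≤ D * M + e := by
            rw [Finset.mul_sum]
            exact (Finset.sum_le_sum (fun i _ => Nat.mul_div_le _ _)).trans f.2
          have h3 : D * M + e ≤ D * (M + e) := by nlinarith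
          exact Nat.le_of_mul_le_mul_left (h2.trans h3) hD⟩ : {f : α → ℕ // ∑ i, f i ≤ M + e}))) := by
    intro f g h
    apply Subtype.ext
    funext i
    simp only [Prod.mk.injEq, Subtype.mk.injEq] at h
    have h4 : f.1 i % D = g.1 i % D := by
      have := congrFun h.1 i
      simpa using congrArg Fin.val this
    have h5 : f.1 i / D = g.1 i / D := congrFun h.2 i
    rw [← Nat.div_add_mod (f.1 i) D, ← Nat.div_add_mod (g.1 i) D, h4, h5]
  have h := Nat.card_le_card_of_injective _ hinj
  rw [Nat.card_prod] at h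
  simpa [cnt, Nat.card_eq_fintype_card] using h

/-- the growth argument -/
theorem le_pow_of_cnt (α : Type) [Fintype α] (D : ℕ) (hD : 1 ≤ D) (N e : ℕ)
    (h : ∀ M, N * cnt α M ≤ cnt α (D * M + e)) : N ≤ D ^ Fintype.card α := by
  by_contra hcon
  push Not at hcon
  set q := D ^ Fintype.card α with hq
  have hq1 : 1 ≤ q := Nat.one_le_pow _ _ hD
  have h1 : ∀ M, (q + 1) * cnt α M ≤ q * cnt α (M + e) := by
    intro M
    calc (q + 1) * cnt α M ≤ N * cnt α M := Nat.mul_le_mul_right _ hcon
      _ ≤ cnt α (D * M + e) := h M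
      _ ≤ q * cnt α (M + e) := cnt_mul_add_le α D hD M e
  have h2 : ∀ r : ℕ, (q + 1) ^ r ≤ q ^ r * cnt α (r * e) := by
    intro r
    induction r with
    | zero =>
      have := cnt_pos α 0
      simp only [pow_zero, zero_mul, one_mul]
      omega
    | succ r ih =>
      calc (q + 1) ^ (r + 1) = (q + 1) * (q + 1) ^ r := by ring
        _ ≤ (q + 1) * (q ^ r * cnt α (r * e)) := Nat.mul_le_mul_left _ ih
        _ = q ^ r * ((q + 1) * cnt α (r * e)) := by ring
        _ ≤ q ^ r * (q * cnt α (r * e + e)) := Nat.mul_le_mul_left _ (h1 _)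
        _ = q ^ (r + 1) * cnt α ((r + 1) * e) := by ring_nf
  have h3 : ∀ r : ℕ, ((q : ℝ) + 1) ^ r ≤ (q : ℝ) ^ r * ((r : ℝ) * e + 1) ^ Fintype.card α := by
    intro r
    have h4 : (q + 1) ^ r ≤ q ^ r * (r * e + 1) ^ Fintype.card α :=
      (h2 r).trans (Nat.mul_le_mul_left _ (cnt_le_pow α _))
    exact_mod_cast h4
  have hqpos : (0 : ℝ) < q := by exact_mod_cast hq1
  have hr : (1 : ℝ) < ((q : ℝ) + 1) / q := by
    rw [lt_div_iff₀ hqpos]; linarith
  have hlim := tendsto_pow_const_div_const_pow_of_one_lt (Fintype.card α) hr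
  have hlim2 : Filter.Tendsto (fun r : ℕ => ((e : ℝ) + 1) ^ Fintype.card α *
      ((r : ℝ) ^ Fintype.card α / (((q : ℝ) + 1) / q) ^ r)) Filter.atTop (nhds 0) := by
    simpa using hlim.const_mul (((e : ℝ) + 1) ^ Fintype.card α)
  have hev := hlim2.eventually (gt_mem_nhds (show (0 : ℝ) < 1 by norm_num))
  obtain ⟨r, hr1, hr2⟩ := (hev.and (Filter.eventually_ge_atTop 1)).exists
  have h5 := h3 r
  have hrpos : (1 : ℝ) ≤ r := by exact_mod_cast hr2
  have h6 : ((r : ℝ) * e + 1) ^ Fintype.card α ≤ (((e : ℝ) + 1) * r) ^ Fintype.card α := by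
    apply pow_le_pow_left₀
    · positivity
    · nlinarith [show (0 : ℝ) ≤ e from Nat.cast_nonneg e]
  have h7 : ((q : ℝ) + 1) ^ r ≤ (q : ℝ) ^ r * (((e : ℝ) + 1) * r) ^ Fintype.card α :=
    h5.trans (mul_le_mul_of_nonneg_left h6 (by positivity))
  have h8 : ((e : ℝ) + 1) ^ Fintype.card α * ((r : ℝ) ^ Fintype.card α / (((q : ℝ) + 1) / q) ^ r)
      = ((q : ℝ) ^ r * (((e : ℝ) + 1) * r) ^ Fintype.card α) / ((q : ℝ) + 1) ^ r := by
    rw [div_pow, mul_pow]
    field_simp
  rw [h8, div_lt_one (by positivity)] at hr1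
  linarith

variable {σ τ : Type} [Fintype σ] [Fintype τ]

theorem finrank_restrictTotalDegree (m : ℕ) :
    Module.finrank ℂ (restrictTotalDegree σ ℂ m) = cnt σ m := by
  classical
  rw [restrictTotalDegree, Module.finrank_eq_nat_card_basis (basisRestrictSupport ℂ _), cnt]
  refine Nat.card_congr ?_
  refine (Finsupp.equivFunOnFinite).subtypeEquiv ?_
  intro f
  have : (f.sum fun _ e => e) = ∑ i, f i := Finsupp.sum_fintype _ _ (fun _ => rfl)
  simp only [Set.mem_ofPred_eq, this]
  rfl

theorem le_pow_of_powers_independent (w : τ → MvPolynomial σ ℂ)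
    (hcard : Fintype.card σ = Fintype.card τ) (D : ℕ) (hD : 1 ≤ D)
    (hdeg : ∀ t, (w t).totalDegree ≤ D) (b : MvPolynomial σ ℂ) (N : ℕ)
    (hb : ∀ a : Fin N → MvPolynomial τ ℂ,
      ∑ i, aeval w (a i) * b ^ (i : ℕ) = 0 → ∀ i, a i = 0) :
    N ≤ D ^ Fintype.card σ := by
  classical
  refine le_pow_of_cnt σ D hD N (N * b.totalDegree) (fun M => ?_)
  have hfin := finite_cnt τ M
  let inst : Fintype {f : τ → ℕ // ∑ i, f i ≤ M} := Fintype.ofFinite _
  -- the family of products
  let v : Fin N × {f : τ → ℕ // ∑ i, f i ≤ M} →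
      restrictTotalDegree σ ℂ (D * M + N * b.totalDegree) := fun p =>
    ⟨aeval w (monomial (Finsupp.equivFunOnFinite.symm p.2.1) (1 : ℂ)) * b ^ (p.1 : ℕ), by
      rw [mem_restrictTotalDegree]
      refine (totalDegree_mul _ _).trans (add_le_add ?_ ?_)
      · rw [aeval_monomial, map_one, one_mul,
          Finsupp.prod_fintype _ _ (fun i => pow_zero _)]
        refine (totalDegree_finsetProd _ _).trans ?_
        calc ∑ i, (w i ^ (Finsupp.equivFunOnFinite.symm p.2.1) i).totalDegree
            ≤ ∑ i, D * p.2.1 i := by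
              refine Finset.sum_le_sum (fun i _ => ?_)
              refine (totalDegree_pow _ _).trans ?_
              rw [mul_comm D]
              exact Nat.mul_le_mul_left _ (hdeg i)
          _ = D * ∑ i, p.2.1 i := by rw [Finset.mul_sum]
          _ ≤ D * M := Nat.mul_le_mul_left _ p.2.2
      · refine (totalDegree_pow _ _).trans ?_
        exact Nat.mul_le_mul_right _ p.1.2.le⟩
  have hv : LinearIndependent ℂ v := by
    rw [Fintype.linearIndependent_iff]
    intro c hc
    have h1 : ∑ p : Fin N × {f : τ → ℕ // ∑ i, f i ≤ M},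
        c p • (aeval w (monomial (Finsupp.equivFunOnFinite.symm p.2.1) (1 : ℂ)) * b ^ (p.1 : ℕ))
        = 0 := by
      have := congrArg (Submodule.subtype _) hc
      simpa [v] using this
    let a : Fin N → MvPolynomial τ ℂ := fun i =>
      ∑ f : {f : τ → ℕ // ∑ i, f i ≤ M},
        monomial (Finsupp.equivFunOnFinite.symm f.1) (c (i, f))
    have h2 : ∑ i, aeval w (a i) * b ^ (i : ℕ) = 0 := by
      rw [← h1, Fintype.sum_prod_type]
      refine Finset.sum_congr rfl (fun i _ => ?_)
      simp only [a]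
      rw [map_sum, Finset.sum_mul]
      refine Finset.sum_congr rfl (fun f _ => ?_)
      rw [aeval_monomial, aeval_monomial, map_one, one_mul, Algebra.smul_def, mul_assoc]
    have h3 := hb a h2
    intro p
    have h4 := congrArg (coeff (Finsupp.equivFunOnFinite.symm p.2.1)) (h3 p.1)
    simp only [a] at h4
    rw [coeff_sum, Finset.sum_eq_single p.2] at h4
    · simpa using h4
    · intro f _ hf
      rw [coeff_monomial, if_neg]
      intro h
      exact hf (Subtype.ext (Finsupp.equivFunOnFinite.symm.injective h))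
    · simp
  have h5 := hv.fintype_card_le_finrank
  rw [finrank_restrictTotalDegree, Fintype.card_prod, Fintype.card_fin,
    ← Nat.card_eq_fintype_card] at h5
  rw [cnt_congr hcard M]
  exact h5

end Pool.Agent.Helper14
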