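import Mathlib
import Pool.Agent.Helper14.GenericFiber
import Pool.Agent.Helper14.HilbertBound
import Pool.Agent.Helper14.Forms

/-!
# Counting decompositions through tuples
-/

namespace Pool.Agent.Helper14

open MvPolynomial

/-- The coordinate `B` of the map `(g_1, ..., g_s) ↦ g_1 ^ k + ... + g_s ^ k`. -/
noncomputable def wmap (s k d : ℕ) (B : Fin (k * d + 1)) : MvPolynomial (Fin s × Fin (d + 1)) ℂ :=
  ∑ i : Fin s, ∑ t : Fin k → Fin (d + 1),
    if ∑ l, (t l : ℕ) = (B : ℕ) then ∏ l, X (i, t l) else 0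

theorem eval_wmap {s k d : ℕ} (x : Fin s × Fin (d + 1) → ℂ) (B : Fin (k * d + 1)) :
    eval x (wmap s k d B) = ∑ i, powCoeff k (fun v => x (i, v)) B := by
  unfold wmap powCoeff
  rw [map_sum]
  refine Finset.sum_congr rfl (fun i _ => ?_)
  rw [map_sum]
  refine Finset.sum_congr rfl (fun t _ => ?_)
  split
  · rw [map_prod]
    simp
  · exact map_zero _

theorem totalDegree_wmap_le {s k d : ℕ} (B : Fin (k * d + 1)) :
    (wmap s k d B).totalDegree ≤ k := by
  unfold wmap
  refine totalDegree_finsetSum_le (fun i _ => ?_)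
  refine totalDegree_finsetSum_le (fun t _ => ?_)
  split
  · refine (totalDegree_finsetProd _ _).trans ?_
    simp
  · simp

/-- a polynomial vanishing on a nonempty open set is zero -/
theorem eq_zero_of_eval_eq_zero_on_open {τ : Type*} [Fintype τ] {U : Set (τ → ℂ)} (hU : IsOpen U)
    (hne : U.Nonempty) (P : MvPolynomial τ ℂ) (h : ∀ f ∈ U, eval f P = 0) : P = 0 := by
  classical
  obtain ⟨f0, hf0⟩ := hne
  obtain ⟨ε, hε, hball⟩ := Metric.isOpen_iff.1 hU f0 hf0
  apply MvPolynomial.funext_set (fun i => Metric.ball (f0 i) ε)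
  · intro i
    exact (infinite_of_mem_nhds (f0 i) (Metric.ball_mem_nhds _ hε))
  · intro x hx
    rw [map_zero]
    apply h
    apply hball
    rw [Metric.mem_ball, dist_pi_lt_iff hε]
    intro i
    exact hx i (Set.mem_univ i)

theorem exists_perm_of_map_eq {α β : Type*} [Fintype α] {p q : α → β}
    (hp : Function.Injective p)
    (h : Finset.univ.val.map p = Finset.univ.val.map q) :
    ∃ σ : Equiv.Perm α, ∀ i, p i = q (σ i) := by
  classical
  have h1 : ∀ i, ∃ j, q j = p i := by
    intro i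
    have h2 : p i ∈ Finset.univ.val.map q := by
      rw [← h]; exact Multiset.mem_map_of_mem _ (Finset.mem_univ i)
    obtain ⟨j, _, hj⟩ := Multiset.mem_map.1 h2
    exact ⟨j, hj⟩
  choose σ hσ using h1
  have hinj : Function.Injective σ := by
    intro i i' hi
    apply hp
    rw [← hσ i, ← hσ i', hi]
  exact ⟨Equiv.ofBijective σ (Finite.injective_iff_bijective.1 hinj), fun i => (hσ i).symm⟩

/-- Unordered collections of `s` `k`-th powers of binary forms of degree `d` with sum `f`. -/
def Dec (s k d : ℕ) (f : MvPolynomial (Fin 2) ℂ) : Set (Multiset (MvPolynomial (Fin 2) ℂ)) :=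
  {D | Multiset.card D = s ∧ (∀ p ∈ D, ∃ g : MvPolynomial (Fin 2) ℂ, g.IsHomogeneous d ∧ p = g ^ k)
    ∧ D.sum = f}

/-- the powers attached to a tuple -/
noncomputable def pw {s d : ℕ} (k : ℕ) (x : Fin s × Fin (d + 1) → ℂ) (i : Fin s) :
    MvPolynomial (Fin 2) ℂ := hom d (fun v => x (i, v)) ^ k

theorem pw_eq {s d k : ℕ} (x : Fin s × Fin (d + 1) → ℂ) (i : Fin s) :
    pw k x i = hom (k * d) (fun B => powCoeff k (fun v => x (i, v)) B) := hom_pow _ _ _

theorem sum_pw {s d k : ℕ} (x : Fin s × Fin (d + 1) → ℂ) :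
    ∑ i, pw k x i = hom (k * d) (polyMap (wmap s k d) x) := by
  simp only [pw_eq]
  rw [← hom_sum]
  congr 1
  funext B
  rw [Finset.sum_apply, polyMap, eval_wmap]

theorem polyMap_eq_iff {s d k : ℕ} (x : Fin s × Fin (d + 1) → ℂ) (c : Fin (k * d + 1) → ℂ) :
    polyMap (wmap s k d) x = c ↔ ∑ i, pw k x i = hom (k * d) c := by
  rw [sum_pw]
  exact ⟨fun h => by rw [h], fun h => hom_injective _ h⟩

theorem pw_eq_pw_iff {s d k : ℕ} (hk : 0 < k) {x y : Fin s × Fin (d + 1) → ℂ} {i i' : Fin s} :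
    pw k x i = pw k y i' ↔ ∃ z : ℂ, z ^ k = 1 ∧ ∀ v, x (i, v) = z * y (i', v) := by
  constructor
  · intro h
    rw [pw_eq, pw_eq] at h
    have h1 := hom_injective _ h
    obtain ⟨z, hz, h2⟩ := eq_root_smul_of_powCoeff_eq hk (fun B => congrFun h1 B)
    exact ⟨z, hz, fun v => congrFun h2 v⟩
  · rintro ⟨z, hz, h⟩
    have h1 : (fun v => x (i, v)) = z • (fun v => y (i', v)) := by
      funext v; exact h v
    unfold pw
    rw [h1, hom_smul, mul_pow, ← map_pow, hz, map_one, one_mul]

/-- a tuple with pairwise distinct nonzero powers -/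
def Good {s d : ℕ} (k : ℕ) (x : Fin s × Fin (d + 1) → ℂ) : Prop :=
  (∀ i i', x (i, 0) ^ k = x (i', 0) ^ k → i = i') ∧ ∀ i, x (i, 0) ≠ 0

theorem Good.injective {s d k : ℕ} (hk : 0 < k) {x : Fin s × Fin (d + 1) → ℂ} (hx : Good k x) :
    Function.Injective (pw k x) := by
  intro i i' h
  obtain ⟨z, hz, h1⟩ := (pw_eq_pw_iff hk).1 h
  apply hx.1
  rw [h1 0, mul_pow, hz, one_mul]

/-- the polynomial whose nonvanishing guarantees `Good` -/
noncomputable def goodPoly (s k d : ℕ) : MvPolynomial (Fin s × Fin (d + 1)) ℂ :=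
  (∏ p ∈ (Finset.univ : Finset (Fin s × Fin s)).filter (fun p => p.1 ≠ p.2),
    (X (p.1, 0) ^ k - X (p.2, 0) ^ k)) * ∏ i : Fin s, X (i, 0)

theorem eval_goodPoly_ne_zero_iff {s k d : ℕ} (x : Fin s × Fin (d + 1) → ℂ) :
    eval x (goodPoly s k d) ≠ 0 ↔ Good k x := by
  unfold goodPoly Good
  rw [map_mul, mul_ne_zero_iff, map_prod, map_prod, Finset.prod_ne_zero_iff,
    Finset.prod_ne_zero_iff]
  constructor
  · rintro ⟨h1, h2⟩
    refine ⟨fun i i' h => ?_, fun i => ?_⟩
    · by_contra hne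
      have := h1 (i, i') (by simp [hne])
      apply this
      simp [h]
    · have := h2 i (Finset.mem_univ i)
      simpa using this
  · rintro ⟨h1, h2⟩
    refine ⟨fun p hp => ?_, fun i _ => ?_⟩
    · simp only [Finset.mem_filter, Finset.mem_univ, true_and] at hp
      intro h
      apply hp
      apply h1
      rw [map_sub, map_pow, map_pow, eval_X, eval_X] at h
      exact sub_eq_zero.1 h
    · simpa using h2 i

theorem goodPoly_ne_zero {s k d : ℕ} (hk : 0 < k) : goodPoly s k d ≠ 0 := by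
  intro h
  have h1 : Good (d := d) k (fun p : Fin s × Fin (d + 1) => ((p.1 : ℕ) : ℂ) + 1) := by
    refine ⟨fun i i' hi => ?_, fun i => ?_⟩
    · simp only at hi
      have h2 : ((i : ℕ) + 1) ^ k = ((i' : ℕ) + 1) ^ k := by exact_mod_cast hi
      have h3 := Nat.pow_left_injective hk.ne' h2
      exact Fin.ext (by omega)
    · show ((i : ℕ) : ℂ) + 1 ≠ 0
      exact_mod_cast Nat.succ_ne_zero (i : ℕ)
  rw [← eval_goodPoly_ne_zero_iff, h] at h1
  simp at h1

/-- the decomposition attached to a tuple -/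
noncomputable def collect {s d : ℕ} (k : ℕ) (x : Fin s × Fin (d + 1) → ℂ) :
    Multiset (MvPolynomial (Fin 2) ℂ) := Finset.univ.val.map (pw k x)

theorem collect_mem {s d k : ℕ} {x : Fin s × Fin (d + 1) → ℂ} {c : Fin (k * d + 1) → ℂ}
    (h : polyMap (wmap s k d) x = c) : collect k x ∈ Dec s k d (hom (k * d) c) := by
  refine ⟨by simp [collect], ?_, ?_⟩
  · intro p hp
    obtain ⟨i, _, hi⟩ := Multiset.mem_map.1 hp
    exact ⟨hom d (fun v => x (i, v)), isHomogeneous_hom d _, hi.symm⟩
  · exact (polyMap_eq_iff x c).1 h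

theorem exists_collect_eq {s d k : ℕ} {c : Fin (k * d + 1) → ℂ}
    {D : Multiset (MvPolynomial (Fin 2) ℂ)} (hD : D ∈ Dec s k d (hom (k * d) c)) :
    ∃ x : Fin s × Fin (d + 1) → ℂ, polyMap (wmap s k d) x = c ∧ collect k x = D := by
  obtain ⟨h1, h2, h3⟩ := hD
  obtain ⟨L, rfl⟩ : ∃ L : List (MvPolynomial (Fin 2) ℂ), (L : Multiset _) = D :=
    Quot.exists_rep D
  rw [Multiset.coe_card] at h1
  subst h1
  have h4 : ∀ i : Fin L.length, ∃ g : MvPolynomial (Fin 2) ℂ, g.IsHomogeneous d ∧ L.get i = g ^ k :=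
    fun i => h2 _ (List.get_mem L i)
  choose g hg hLg using h4
  let x : Fin L.length × Fin (d + 1) → ℂ := fun p => coeff (ex d p.2) (g p.1)
  have h5 : ∀ i, pw k x i = L.get i := by
    intro i
    have : hom d (fun v => x (i, v)) = g i := hom_coeff (hg i)
    unfold pw
    rw [this, hLg i]
  have h6 : collect k x = (L : Multiset (MvPolynomial (Fin 2) ℂ)) := by
    unfold collect
    have : pw k x = L.get := funext h5
    rw [this]
    have h7 := List.ofFn_get L
    conv_rhs => rw [← h7]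
    exact Fin.univ_val_map L.get
  refine ⟨x, ?_, h6⟩
  rw [polyMap_eq_iff, ← h3, ← h6]
  rfl

/-- all the tuples giving the same collection -/
theorem card_collect_fiber {s d k : ℕ} (hk : 0 < k) {x : Fin s × Fin (d + 1) → ℂ}
    (hx : Good k x) :
    Nonempty ({y : Fin s × Fin (d + 1) → ℂ // collect k y = collect k x} ≃
      Equiv.Perm (Fin s) × (Fin s → rootsOfUnity k ℂ)) := by
  classical
  let F : Equiv.Perm (Fin s) × (Fin s → rootsOfUnity k ℂ) →
      {y : Fin s × Fin (d + 1) → ℂ // collect k y = collect k x} := fun q =>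
    ⟨fun p => ((q.2 p.1 : ℂˣ) : ℂ) * x (q.1 p.1, p.2), by
      unfold collect
      have h1 : pw k (fun p => ((q.2 p.1 : ℂˣ) : ℂ) * x (q.1 p.1, p.2)) = pw k x ∘ q.1 := by
        funext i
        rw [Function.comp_apply, pw_eq_pw_iff hk]
        refine ⟨((q.2 i : ℂˣ) : ℂ), ?_, fun v => rfl⟩
        have := (q.2 i).2
        rw [mem_rootsOfUnity] at this
        have h2 := congrArg Units.val this
        rw [Units.val_pow_eq_pow_val, Units.val_one] at h2
        exact h2
      rw [h1, ← Multiset.map_map, Multiset.map_univ_val_equiv]⟩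
  have hF : Function.Bijective F := by
    constructor
    · rintro ⟨σ, z⟩ ⟨σ', z'⟩ h
      have h1 : ∀ p : Fin s × Fin (d + 1), ((z p.1 : ℂˣ) : ℂ) * x (σ p.1, p.2) =
          ((z' p.1 : ℂˣ) : ℂ) * x (σ' p.1, p.2) := fun p => congrFun (congrArg Subtype.val h) p
      have hpow : ∀ (w : rootsOfUnity k ℂ), ((w : ℂˣ) : ℂ) ^ k = 1 := by
        intro w
        have := w.2
        rw [mem_rootsOfUnity] at this
        have h2 := congrArg Units.val this
        rw [Units.val_pow_eq_pow_val, Units.val_one] at h2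
        exact h2
      have h2 : ∀ i, σ i = σ' i := by
        intro i
        apply hx.1
        have h3 := congrArg (fun t => t ^ k) (h1 (i, 0))
        simp only [mul_pow, hpow, one_mul] at h3
        exact h3
      have h4 : z = z' := by
        funext i
        have h5 := h1 (i, 0)
        simp only [h2 i] at h5
        have h6 := mul_right_cancel₀ (hx.2 _) h5
        exact Subtype.ext (Units.ext h6)
      rw [Prod.mk.injEq]
      exact ⟨Equiv.ext h2, h4⟩
    · rintro ⟨y, hy⟩
      obtain ⟨σ, hσ⟩ := exists_perm_of_map_eq (hx.injective hk) hy.symm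
      have h1 : ∀ i, pw k y i = pw k x (σ.symm i) := by
        intro i
        have := hσ (σ.symm i)
        rw [Equiv.apply_symm_apply] at this
        exact this.symm
      have h2 := fun i => (pw_eq_pw_iff hk).1 (h1 i)
      choose z hz hzy using h2
      have hz0 : ∀ i, z i ≠ 0 := by
        intro i h0
        have := hz i
        rw [h0, zero_pow hk.ne'] at this
        exact zero_ne_one this
      refine ⟨(σ.symm, fun i => ⟨Units.mk0 (z i) (hz0 i), by
        rw [mem_rootsOfUnity]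
        apply Units.ext
        rw [Units.val_pow_eq_pow_val, Units.val_mk0, hz i, Units.val_one]⟩), ?_⟩
      apply Subtype.ext
      funext p
      exact (hzy p.1 p.2).symm
  exact ⟨(Equiv.ofBijective F hF).symm⟩

theorem card_fiber_eq {s d k : ℕ} (hk : 0 < k) {c : Fin (k * d + 1) → ℂ}
    (hgood : ∀ x : Fin s × Fin (d + 1) → ℂ, polyMap (wmap s k d) x = c → Good k x) :
    Nonempty ({x : Fin s × Fin (d + 1) → ℂ | polyMap (wmap s k d) x = c} ≃
      (Dec s k d (hom (k * d) c)) × (Equiv.Perm (Fin s) × (Fin s → rootsOfUnity k ℂ))) := by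
  classical
  let A := {x : Fin s × Fin (d + 1) → ℂ | polyMap (wmap s k d) x = c}
  let Φ : A → Dec s k d (hom (k * d) c) := fun x => ⟨collect k x.1, collect_mem x.2⟩
  have e1 : (Σ D : Dec s k d (hom (k * d) c), {x : A // Φ x = D}) ≃ A := Equiv.sigmaFiberEquiv Φ
  have e2 : ∀ D : Dec s k d (hom (k * d) c), Nonempty ({x : A // Φ x = D} ≃
      (Equiv.Perm (Fin s) × (Fin s → rootsOfUnity k ℂ))) := by
    intro D
    obtain ⟨x, hx, hxD⟩ := exists_collect_eq D.2
    obtain ⟨e⟩ := card_collect_fiber hk (hgood x hx)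
    refine ⟨Equiv.trans ?_ e⟩
    refine ⟨fun y => ⟨y.1.1, ?_⟩, fun y => ⟨⟨y.1, ?_⟩, ?_⟩, fun y => rfl, fun y => rfl⟩
    · rw [hxD]
      exact congrArg Subtype.val y.2
    · show polyMap (wmap s k d) y.1 = c
      rw [polyMap_eq_iff]
      rw [polyMap_eq_iff] at hx
      rw [← hx]
      exact congrArg Multiset.sum y.2
    · apply Subtype.ext
      show collect k y.1 = D.1
      rw [y.2, hxD]
  exact ⟨e1.symm.trans ((Equiv.sigmaCongrRight (fun D => Classical.choice (e2 D))).trans
    (Equiv.sigmaEquivProd _ _))⟩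

end Pool.Agent.Helper14
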