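import Mathlib

/-!
# The combinatorial staircase functions

`kk j d = j * (d + 1) + 1` and `ss j d = j * d + 1`.  For every range `m < d` the numbers
`0, ..., k` are cut into `s` consecutive intervals `[cut m i, cut m (i+1))`.
-/

namespace Pool.Agent.Helper14

/-- the exponent `k` of the perfect pair -/
def kk (j d : ℕ) : ℕ := j * (d + 1) + 1

/-- the number of summands `s` -/
def ss (j d : ℕ) : ℕ := j * d + 1

/-- correction term -/
def cc (m : ℕ) : ℕ := if m % 2 = 0 ∧ 2 ≤ m then 1 else 0

/-- The staircase. -/
def cut (j d m t : ℕ) : ℕ :=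
  if t = 0 then 0 else if t ≤ j * d then t + (t - 1 + d - m) / d + cc m else kk j d + 1

theorem cc_le (m : ℕ) : cc m ≤ 1 := by unfold cc; split <;> omega

theorem cut_zero (j d m : ℕ) : cut j d m 0 = 0 := by simp [cut]

theorem cut_mid {j d m t : ℕ} (h1 : 1 ≤ t) (h2 : t ≤ j * d) :
    cut j d m t = t + (t - 1 + d - m) / d + cc m := by
  unfold cut; rw [if_neg (by omega), if_pos h2]

theorem cut_top {j d m t : ℕ} (h : j * d < t) : cut j d m t = kk j d + 1 := by
  unfold cut; rw [if_neg (by omega), if_neg (by omega)]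

theorem div_aux {j d m : ℕ} (hd : 1 ≤ d) (hm : m < d) (hj : 1 ≤ j) :
    (j * d - 1 + d - m) / d = j := by
  have hjd : 1 ≤ j * d := Nat.mul_pos hj hd
  rw [Nat.div_eq_iff hd]
  constructor
  · omega
  · omega

theorem cut_last {j d m : ℕ} (hj : 1 ≤ j) (hd : 1 ≤ d) (hm : m < d) :
    cut j d m (j * d) = kk j d - 1 + cc m := by
  have hjd : 1 ≤ j * d := Nat.mul_pos hj hd
  rw [cut_mid hjd le_rfl, div_aux hd hm hj, kk]
  have : j * (d + 1) = j * d + j := by ring
  omega

theorem cut_one {j d m : ℕ} (hj : 1 ≤ j) (hd : 1 ≤ d) (hm : m < d) :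
    cut j d m 1 = if m % 2 = 0 then 2 else 1 := by
  have hjd : 1 ≤ j * d := Nat.mul_pos hj hd
  rw [cut_mid le_rfl hjd]
  rcases Nat.eq_zero_or_pos m with h | h
  · subst h
    have : (1 - 1 + d - 0) / d = 1 := by
      rw [show 1 - 1 + d - 0 = d by omega]; exact Nat.div_self hd
    rw [this]; simp [cc]
  · have : (1 - 1 + d - m) / d = 0 := Nat.div_eq_of_lt (by omega)
    rw [this, cc]
    by_cases h2 : m % 2 = 0
    · rw [if_pos h2, if_pos ⟨h2, by omega⟩]
    · rw [if_neg h2, if_neg (by tauto)]

/-- the step in the middle range -/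
theorem cut_step {j d m t : ℕ} (hd : 1 ≤ d) (hm : m < d) (h1 : 1 ≤ t) (h2 : t + 1 ≤ j * d) :
    cut j d m (t + 1) = cut j d m t + (if t % d = m then 2 else 1) := by
  rw [cut_mid (by omega) h2, cut_mid h1 (by omega)]
  have key : (t + 1 - 1 + d - m) / d = (t - 1 + d - m) / d + (if t % d = m then 1 else 0) := by
    obtain ⟨q, r, hr, ht⟩ : ∃ q r, r < d ∧ t = d * q + r :=
      ⟨t / d, t % d, Nat.mod_lt _ hd, (Nat.div_add_mod t d).symm⟩
    have htm : t % d = r := by
      rw [ht, Nat.mul_add_mod, Nat.mod_eq_of_lt hr]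
    rw [htm]
    have e1 : t + 1 - 1 + d - m = d * (q + 1) + r - m := by
      rw [ht]; ring_nf; omega
    split
    · rename_i h
      subst h
      have e2 : (t + 1 - 1 + d - r) / d = q + 1 := by
        rw [e1, Nat.add_sub_cancel, Nat.mul_div_cancel_left _ hd]
      have e3 : (t - 1 + d - r) / d = q := by
        rw [Nat.div_eq_iff hd, ht]
        constructor
        · have : d * q = q * d := mul_comm _ _
          omega
        · have : d * q = q * d := mul_comm _ _
          omega
      rw [e2, e3]
    · rename_i h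
      rcases Nat.lt_or_gt_of_ne h with h' | h'
      · -- r < m
        have e2 : (t + 1 - 1 + d - m) / d = q := by
          rw [Nat.div_eq_iff hd, ht]
          have : d * q = q * d := mul_comm _ _
          constructor <;> omega
        have e3 : (t - 1 + d - m) / d = q := by
          rw [Nat.div_eq_iff hd, ht]
          have : d * q = q * d := mul_comm _ _
          constructor <;> omega
        rw [e2, e3, Nat.add_zero]
      · have e2 : (t + 1 - 1 + d - m) / d = q + 1 := by
          rw [Nat.div_eq_iff hd, ht]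
          have : d * q = q * d := mul_comm _ _
          have h5 : (q + 1) * d = q * d + d := by ring
          constructor <;> omega
        have e3 : (t - 1 + d - m) / d = q + 1 := by
          rw [Nat.div_eq_iff hd, ht]
          have : d * q = q * d := mul_comm _ _
          have h5 : (q + 1) * d = q * d + d := by ring
          constructor <;> omega
        rw [e2, e3, Nat.add_zero]
  rw [key]
  split <;> omega

theorem one_le_cut {j d m t : ℕ} (h1 : 1 ≤ t) : 1 ≤ cut j d m t := by
  rcases Nat.lt_or_ge (j * d) t with h | h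
  · rw [cut_top h]; omega
  · rw [cut_mid h1 h]
    exact Nat.le_add_right_of_le (Nat.le_add_right_of_le h1)

theorem cut_le_succ {j d m t : ℕ} (hj : 1 ≤ j) (hd : 1 ≤ d) (hm : m < d) :
    cut j d m t ≤ cut j d m (t + 1) := by
  rcases Nat.eq_zero_or_pos t with h | h
  · subst h; rw [cut_zero]; omega
  rcases Nat.lt_trichotomy t (j * d) with h2 | h2 | h2
  · rw [cut_step hd hm h (by omega)]; omega
  · rw [h2, cut_last hj hd hm, cut_top (Nat.lt_succ_self _)]
    have := cc_le m
    omega
  · rw [cut_top h2, cut_top (by omega)]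

theorem cut_mono {j d m : ℕ} (hj : 1 ≤ j) (hd : 1 ≤ d) (hm : m < d) : Monotone (cut j d m) :=
  monotone_nat_of_le_succ (fun _ => cut_le_succ hj hd hm)

theorem cut_le_k {j d m t : ℕ} (hj : 1 ≤ j) (hd : 1 ≤ d) (hm : m < d) (ht : t ≤ j * d) :
    cut j d m t ≤ kk j d := by
  refine (cut_mono hj hd hm ht).trans ?_
  rw [cut_last hj hd hm]
  have := cc_le m
  have : 1 ≤ kk j d := by unfold kk; omega
  omega

/-- every `α ≤ k` lies in exactly one interval -/
theorem exists_own {j d m α : ℕ} (hα : α ≤ kk j d) :
    ∃ i, i < ss j d ∧ cut j d m i ≤ α ∧ α < cut j d m (i + 1) := by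
  have hex : ∃ t, α < cut j d m t := ⟨j * d + 1, by rw [cut_top (Nat.lt_succ_self _)]; omega⟩
  classical
  set t := Nat.find hex with ht
  have h1 : α < cut j d m t := Nat.find_spec hex
  have h0 : t ≠ 0 := by
    intro h; rw [h, cut_zero] at h1; omega
  have h2 : t ≤ j * d + 1 := Nat.find_min' hex (by rw [cut_top (Nat.lt_succ_self _)]; omega)
  have h3 : ¬ α < cut j d m (t - 1) := Nat.find_min hex (by omega)
  refine ⟨t - 1, by unfold ss; omega, by omega, ?_⟩
  rw [show t - 1 + 1 = t by omega]; exact h1

theorem own_unique {j d m α i i' : ℕ} (hj : 1 ≤ j) (hd : 1 ≤ d) (hm : m < d)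
    (h1 : cut j d m i ≤ α) (h2 : α < cut j d m (i + 1))
    (h1' : cut j d m i' ≤ α) (h2' : α < cut j d m (i' + 1)) : i = i' := by
  have hmono := cut_mono (j := j) hj hd hm
  rcases Nat.lt_trichotomy i i' with h | h | h
  · have := hmono (show i + 1 ≤ i' by omega); omega
  · exact h
  · have := hmono (show i' + 1 ≤ i by omega); omega

/-- lower bound for the staircase -/
theorem nu_le_cut {j d m i : ℕ} (hm : m < d) (h1 : 1 ≤ i) (h2 : i ≤ j * d) :
    i + i / d ≤ cut j d m i := by
  rw [cut_mid h1 h2]
  have : i / d ≤ (i - 1 + d - m) / d := Nat.div_le_div_right (by omega)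
  omega

/-- upper bound for the staircase -/
theorem cut_add_nu_le {j d m i : ℕ} (hd : 1 ≤ d) (h1 : 1 ≤ i) (h2 : i ≤ j * d) :
    cut j d m i + ((j * d - i) + (j * d - i) / d) ≤ kk j d := by
  rw [cut_mid h1 h2, kk]
  have hc := cc_le m
  have h3 : (i - 1 + d - m) / d ≤ (i - 1 + d) / d := Nat.div_le_div_right (by omega)
  have h4 : (i - 1 + d) / d + (j * d - i) / d ≤ j := by
    obtain ⟨q, r, hr, ht⟩ : ∃ q r, r < d ∧ i = d * q + r :=
      ⟨i / d, i % d, Nat.mod_lt _ hd, (Nat.div_add_mod i d).symm⟩
    rcases Nat.eq_zero_or_pos r with h5 | h5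
    · subst h5
      have hq : q ≤ j := by
        by_contra hq
        push Not at hq
        have : d * (j + 1) ≤ d * q := Nat.mul_le_mul_left _ hq
        have e : d * (j + 1) = j * d + d := by ring
        omega
      have e1 : (i - 1 + d) / d = q := by
        rw [Nat.div_eq_iff hd, ht]
        have : d * q = q * d := mul_comm _ _
        have hq1 : 1 ≤ d * q := by omega
        constructor <;> omega
      have e2 : (j * d - i) / d = j - q := by
        rw [ht, Nat.add_zero, mul_comm j d, ← Nat.mul_sub, Nat.mul_div_cancel_left _ hd]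
      omega
    · have hq : q + 1 ≤ j := by
        by_contra hq
        push Not at hq
        have hjq : j ≤ q := by omega
        have : d * j ≤ d * q := Nat.mul_le_mul_left _ hjq
        have e : d * j = j * d := mul_comm _ _
        omega
      have e1 : (i - 1 + d) / d = q + 1 := by
        rw [Nat.div_eq_iff hd, ht]
        have : d * q = q * d := mul_comm _ _
        have h6 : (q + 1) * d = q * d + d := by ring
        constructor <;> omega
      have e2 : (j * d - i) / d = j - q - 1 := by
        rw [Nat.div_eq_iff hd, ht]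
        have h7 : j * d = (j - q - 1) * d + (q * d + d) := by
          have : j = (j - q - 1) + (q + 1) := by omega
          calc j * d = ((j - q - 1) + (q + 1)) * d := by rw [← this]
            _ = _ := by ring
        have : d * q = q * d := mul_comm _ _
        constructor <;> omega
      omega
  have h5 : j * (d + 1) = j * d + j := by ring
  omega

end Pool.Agent.Helper14
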