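import Mathlib

/-!
# A local surjectivity statement with parameters
-/

namespace Pool.Agent.Helper14

open scoped Topology

/-- The parametrised system `∑_i ∑_t c_{B,i,t} ∏_l x_{i, t_l}`. -/
noncomputable def Gfun {s d k n : ℕ} (x : Fin s → Fin (d + 1) → ℂ)
    (c : Fin n → Fin s → (Fin k → Fin (d + 1)) → ℂ) : Fin n → ℂ :=
  fun B => ∑ i, ∑ t, c B i t * ∏ l, x i (t l)

theorem contDiff_Gfun {s d k n : ℕ} :
    ContDiff ℂ ⊤ (fun p : (Fin s → Fin (d + 1) → ℂ) ×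
      (Fin n → Fin s → (Fin k → Fin (d + 1)) → ℂ) => Gfun p.1 p.2) := by
  unfold Gfun
  fun_prop

theorem eventually_exists_solution {s d k n : ℕ} (hdim : s * (d + 1) = n)
    (x0 : Fin s → Fin (d + 1) → ℂ) (c0 : Fin n → Fin s → (Fin k → Fin (d + 1)) → ℂ)
    (hinj : ∀ v : Fin s → Fin (d + 1) → ℂ,
      (∀ B, HasDerivAt (fun z : ℂ => Gfun (x0 + z • v) c0 B) 0 0) → v = 0)
    (V : Set (Fin s → Fin (d + 1) → ℂ)) (hV : V ∈ 𝓝 x0) :
    ∀ᶠ p in 𝓝 (Gfun x0 c0, c0), ∃ x ∈ V, Gfun x p.2 = p.1 := by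
  set F : (Fin s → Fin (d + 1) → ℂ) × (Fin n → Fin s → (Fin k → Fin (d + 1)) → ℂ) →
    (Fin n → ℂ) := fun p => Gfun p.1 p.2 with hF
  have hcd : ContDiffAt ℂ 1 F (x0, c0) := (contDiff_Gfun.of_le le_top).contDiffAt
  have hstrict : HasStrictFDerivAt F (fderiv ℂ F (x0, c0)) (x0, c0) :=
    hcd.hasStrictFDerivAt (by norm_num)
  set F' := fderiv ℂ F (x0, c0) with hF'
  have hsnd : HasStrictFDerivAt (fun p : (Fin s → Fin (d + 1) → ℂ) ×
      (Fin n → Fin s → (Fin k → Fin (d + 1)) → ℂ) => p.2)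
      (ContinuousLinearMap.snd ℂ _ _) (x0, c0) := hasStrictFDerivAt_snd
  have hPsi := hstrict.prodMk hsnd
  have hinj' : Function.Injective (F'.prod (ContinuousLinearMap.snd ℂ
      (Fin s → Fin (d + 1) → ℂ) (Fin n → Fin s → (Fin k → Fin (d + 1)) → ℂ))) := by
    rw [injective_iff_map_eq_zero]
    rintro ⟨v, g⟩ h
    rw [ContinuousLinearMap.prod_apply, Prod.mk_eq_zero] at h
    obtain ⟨h1, h2⟩ := h
    simp only [ContinuousLinearMap.coe_snd'] at h2
    subst h2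
    have hline : HasDerivAt (fun z : ℂ => F ((x0, c0) + z • (v, (0 : Fin n → Fin s →
        (Fin k → Fin (d + 1)) → ℂ)))) (F' (v, 0)) 0 := by
      have h3 : HasDerivAt (fun z : ℂ => (x0, c0) + z • (v, (0 : Fin n → Fin s →
        (Fin k → Fin (d + 1)) → ℂ))) (v, 0) 0 := by
        have := ((hasDerivAt_id (0 : ℂ)).smul_const (v, (0 : Fin n → Fin s →
          (Fin k → Fin (d + 1)) → ℂ))).const_add (x0, c0)
        simpa using this
      have h4 : HasFDerivAt F F' ((x0, c0) + (0 : ℂ) • (v, (0 : Fin n → Fin s →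
        (Fin k → Fin (d + 1)) → ℂ))) := by
        simpa using hstrict.hasFDerivAt
      exact h4.comp_hasDerivAt (0 : ℂ) h3
    rw [h1] at hline
    have hv : v = 0 := by
      apply hinj
      intro B
      have h5 := (hasDerivAt_pi.1 hline) B
      simpa [hF] using h5
    rw [hv]; rfl
  have hsurj : ((F'.prod (ContinuousLinearMap.snd ℂ
      (Fin s → Fin (d + 1) → ℂ) (Fin n → Fin s → (Fin k → Fin (d + 1)) → ℂ)) :
        ((Fin s → Fin (d + 1) → ℂ) × (Fin n → Fin s → (Fin k → Fin (d + 1)) → ℂ)) →L[ℂ]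
        (Fin n → ℂ) × (Fin n → Fin s → (Fin k → Fin (d + 1)) → ℂ)) :
        ((Fin s → Fin (d + 1) → ℂ) × (Fin n → Fin s → (Fin k → Fin (d + 1)) → ℂ)) →ₗ[ℂ]
        (Fin n → ℂ) × (Fin n → Fin s → (Fin k → Fin (d + 1)) → ℂ)).range = ⊤ := by
    rw [LinearMap.range_eq_top]
    refine (LinearMap.injective_iff_surjective_of_finrank_eq_finrank ?_).1 hinj'
    rw [Module.finrank_prod, Module.finrank_prod]
    congr 1
    simp only [Module.finrank_pi_fintype, Module.finrank_self, Finset.sum_const,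
      Finset.card_univ, Fintype.card_fin, smul_eq_mul, mul_one]
    exact hdim
  have hmap := hPsi.map_nhds_eq_of_surj hsurj
  have hVn : {p : (Fin s → Fin (d + 1) → ℂ) × (Fin n → Fin s → (Fin k → Fin (d + 1)) → ℂ) |
      p.1 ∈ V} ∈ 𝓝 (x0, c0) := continuousAt_fst hV
  have himg := Filter.image_mem_map (m := fun p => (F p, p.2)) hVn
  rw [hmap] at himg
  filter_upwards [himg] with p hp
  obtain ⟨q, hq, rfl⟩ := hp
  exact ⟨q.1, hq, rfl⟩

end Pool.Agent.Helper14
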