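import Mathlib
import Pool.Agent.Helper14.Cuts

/-!
# The weights
-/

namespace Pool.Agent.Helper14

/-- even end of the range `[m, m+1]` -/
def ev (m : ℕ) : ℕ := if m % 2 = 0 then m else m + 1

/-- odd end of the range `[m, m+1]` -/
def od (m : ℕ) : ℕ := if m % 2 = 0 then m + 1 else m

/-- increments -/
noncomputable def dlt (j d t : ℕ) : ℕ → ℝ
  | 0 => 1
  | m + 1 => if m % 2 = 0 then
      dlt j d t m * (2 * ((kk j d : ℝ) - cut j d m t) + 1) / (2 * (cut j d m t : ℝ) - 1)
    else dlt j d t m * (2 * (cut j d m t : ℝ) - 1) / (2 * ((kk j d : ℝ) - cut j d m t) + 1)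

theorem dlt_pos {j d t : ℕ} (hj : 1 ≤ j) (hd : 1 ≤ d) (h1 : 1 ≤ t) (h2 : t ≤ j * d) (m : ℕ)
    (hm : m ≤ d) : 0 < dlt j d t m := by
  induction m with
  | zero => simp [dlt]
  | succ m ih =>
    have ih' := ih (by omega)
    have hc1 : (1 : ℝ) ≤ cut j d m t := by exact_mod_cast one_le_cut h1
    have hc2 : (cut j d m t : ℝ) ≤ kk j d := by
      exact_mod_cast cut_le_k hj hd (by omega) h2
    have p1 : 0 < 2 * (cut j d m t : ℝ) - 1 := by linarith
    have p2 : 0 < 2 * ((kk j d : ℝ) - cut j d m t) + 1 := by linarith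
    rw [dlt]
    split
    · positivity
    · positivity

/-- the key ratio property -/
theorem dlt_ratio {j d t : ℕ} (hj : 1 ≤ j) (hd : 1 ≤ d) (h1 : 1 ≤ t) (h2 : t ≤ j * d) (m : ℕ)
    (hm : m < d) : ∃ l : ℝ, 0 < l ∧ dlt j d t (ev m) = (2 * (cut j d m t : ℝ) - 1) * l ∧
      dlt j d t (od m) = (2 * ((kk j d : ℝ) - cut j d m t) + 1) * l := by
  have hpos := dlt_pos hj hd h1 h2 m hm.le
  have hc1 : (1 : ℝ) ≤ cut j d m t := by exact_mod_cast one_le_cut h1
  have hc2 : (cut j d m t : ℝ) ≤ kk j d := by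
    exact_mod_cast cut_le_k hj hd (by omega) h2
  have p1 : 0 < 2 * (cut j d m t : ℝ) - 1 := by linarith
  have p2 : 0 < 2 * ((kk j d : ℝ) - cut j d m t) + 1 := by linarith
  by_cases hpar : m % 2 = 0
  · refine ⟨dlt j d t m / (2 * (cut j d m t : ℝ) - 1), by positivity, ?_, ?_⟩
    · rw [ev, if_pos hpar]; field_simp
    · rw [od, if_pos hpar, dlt, if_pos hpar]; field_simp
  · refine ⟨dlt j d t m / (2 * ((kk j d : ℝ) - cut j d m t) + 1), by positivity, ?_, ?_⟩
    · rw [ev, if_neg hpar, dlt, if_neg hpar]; field_simp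
    · rw [od, if_neg hpar]; field_simp

/-- comparison of the value of consecutive sets -/
theorem dlt_compare {j d t : ℕ} (hj : 1 ≤ j) (hd : 1 ≤ d) (h1 : 1 ≤ t) (h2 : t ≤ j * d) (m : ℕ)
    (hm : m < d) (α : ℕ) :
    (α < cut j d m t →
      0 < ((kk j d : ℝ) - α) * dlt j d t (ev m) - α * dlt j d t (od m)) ∧
    (cut j d m t ≤ α →
      ((kk j d : ℝ) - α) * dlt j d t (ev m) - α * dlt j d t (od m) < 0) := by
  obtain ⟨l, hl, he, ho⟩ := dlt_ratio hj hd h1 h2 m hm
  have hk : (1 : ℝ) ≤ kk j d := by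
    have : 1 ≤ kk j d := by unfold kk; omega
    exact_mod_cast this
  have key : ((kk j d : ℝ) - α) * dlt j d t (ev m) - α * dlt j d t (od m)
      = l * kk j d * (2 * (cut j d m t : ℝ) - 1 - 2 * α) := by
    rw [he, ho]; ring
  rw [key]
  constructor
  · intro h
    have : (α : ℝ) + 1 ≤ cut j d m t := by exact_mod_cast h
    have : 0 < 2 * (cut j d m t : ℝ) - 1 - 2 * α := by linarith
    positivity
  · intro h
    have : (cut j d m t : ℝ) ≤ α := by exact_mod_cast h
    have h3 : 2 * (cut j d m t : ℝ) - 1 - 2 * α < 0 := by linarith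
    have h4 : 0 < l * kk j d := by positivity
    exact mul_neg_of_pos_of_neg h4 h3

/-- the excess weights -/
noncomputable def xw (j d i m : ℕ) : ℝ :=
  if m % 2 = 0 then ∑ t ∈ Finset.Icc 1 i, dlt j d t m
  else ∑ t ∈ Finset.Ioc i (j * d), dlt j d t m

theorem xw_nonneg {j d i m : ℕ} (hj : 1 ≤ j) (hd : 1 ≤ d) (hi : i ≤ j * d) (hm : m ≤ d) :
    0 ≤ xw j d i m := by
  unfold xw
  split
  · refine Finset.sum_nonneg (fun t ht => ?_)
    rw [Finset.mem_Icc] at ht
    exact (dlt_pos hj hd ht.1 (by omega) m hm).le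
  · refine Finset.sum_nonneg (fun t ht => ?_)
    rw [Finset.mem_Ioc] at ht
    exact (dlt_pos hj hd (by omega) ht.2 m hm).le

theorem ev_even (m : ℕ) : ev m % 2 = 0 := by unfold ev; split <;> omega
theorem od_odd (m : ℕ) : od m % 2 ≠ 0 := by unfold od; split <;> omega

theorem xw_ev_succ (j d i m : ℕ) :
    xw j d (i + 1) (ev m) = xw j d i (ev m) + dlt j d (i + 1) (ev m) := by
  unfold xw
  rw [if_pos (ev_even m), if_pos (ev_even m), Finset.sum_Icc_succ_top (by omega)]

theorem xw_od_succ {j d i m : ℕ} (hi : i + 1 ≤ j * d) :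
    xw j d i (od m) = xw j d (i + 1) (od m) + dlt j d (i + 1) (od m) := by
  unfold xw
  rw [if_neg (od_odd m), if_neg (od_odd m)]
  rw [← Finset.insert_Ioc_add_one_left_eq_Ioc (show i < j * d by omega), Finset.sum_insert (by simp)]
  ring

/-- value of the `i`-th set at `(m, α)` -/
noncomputable def vl (j d i m α : ℕ) : ℝ :=
  ((kk j d : ℝ) - α) * xw j d i (ev m) + α * xw j d i (od m)

theorem vl_succ {j d i m : ℕ} (α : ℕ) (hi : i + 1 ≤ j * d) :
    vl j d (i + 1) m α = vl j d i m α +
      (((kk j d : ℝ) - α) * dlt j d (i + 1) (ev m) - α * dlt j d (i + 1) (od m)) := by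
  unfold vl
  rw [xw_ev_succ, xw_od_succ (m := m) hi]
  ring

/-- the owner is the unique minimizer -/
theorem vl_min {j d m α i i' : ℕ} (hj : 1 ≤ j) (hd : 1 ≤ d) (hm : m < d)
    (hi : i ≤ j * d) (hi' : i' ≤ j * d) (h1 : cut j d m i ≤ α) (h2 : α < cut j d m (i + 1))
    (hne : i' ≠ i) : vl j d i m α < vl j d i' m α := by
  have hmono := cut_mono (j := j) hj hd hm
  -- going up
  have up : ∀ n, i + n + 1 ≤ j * d → vl j d i m α < vl j d (i + n + 1) m α := by
    intro n
    induction n with
    | zero =>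
      intro hn
      rw [Nat.add_zero, vl_succ α hn]
      have := (dlt_compare hj hd (by omega) hn m hm α).1 h2
      linarith
    | succ n ih =>
      intro hn
      have ih' := ih (by omega)
      rw [vl_succ α hn]
      have h3 : α < cut j d m (i + (n + 1) + 1) := lt_of_lt_of_le h2 (hmono (by omega))
      have := (dlt_compare hj hd (by omega) hn m hm α).1 h3
      have e : i + n + 1 = i + (n + 1) := by ring
      rw [e] at ih'
      linarith
  have down : ∀ n, n + 1 ≤ i → vl j d i m α < vl j d (i - (n + 1)) m α := by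
    intro n
    induction n with
    | zero =>
      intro hn
      have e : i - (0 + 1) + 1 = i := by omega
      have h4 := vl_succ (j := j) (d := d) (i := i - (0 + 1)) (m := m) α (by omega)
      rw [e] at h4
      have := (dlt_compare hj hd (by omega) hi m hm α).2 h1
      linarith
    | succ n ih =>
      intro hn
      have ih' := ih (by omega)
      have e : i - (n + 1 + 1) + 1 = i - (n + 1) := by omega
      have h4 := vl_succ (j := j) (d := d) (i := i - (n + 1 + 1)) (m := m) α (by omega)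
      rw [e] at h4
      have h3 : cut j d m (i - (n + 1)) ≤ α := (hmono (by omega)).trans h1
      have := (dlt_compare hj hd (by omega) (by omega) m hm α).2 h3
      linarith
  rcases Nat.lt_or_gt_of_ne hne with h | h
  · have := down (i - i' - 1) (by omega)
    rwa [show i - (i - i' - 1 + 1) = i' by omega] at this
  · have := up (i' - i - 1) (by omega)
    rwa [show i + (i' - i - 1) + 1 = i' by omega] at this

end Pool.Agent.Helper14
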