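import Mathlib
import Pool.Agent.Helper14.Weights

/-!
# The monomial systems
-/

namespace Pool.Agent.Helper14

/-- anchor vertex of the `i`-th set -/
def anch (j d i : ℕ) : ℕ := if i = 0 then 0 else if i < j * d then i % d else 1

/-- relevant range of a vertex -/
def rg (c v : ℕ) : ℕ := if v < c then v else v - 1

/-- own exponent -/
def qq (j d i v : ℕ) : ℕ :=
  if i = 0 then (if v % 2 = 0 ∧ v ≠ 0 then kk j d else 1)
  else if i < j * d then
    (if v = i % d ∨ v = i % d + 1 then 1
     else if v % 2 = 0 then kk j d - cut j d (rg (i % d) v) i else cut j d (rg (i % d) v) i)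
  else (if v % 2 = 1 ∧ v ≠ 1 then kk j d else 1)

/-- exponent of the neighbour -/
def rr (j d i v : ℕ) : ℕ :=
  if i = 0 then (if v % 2 = 0 then 0 else kk j d - 1)
  else if i < j * d then
    (if v = i % d ∨ v = i % d + 1 then 0
     else if v % 2 = 0 then cut j d (rg (i % d) v) i else kk j d - cut j d (rg (i % d) v) i)
  else (if v % 2 = 1 then 0 else kk j d - 1)

section

variable {H : Type*} [AddCommMonoid H]

/-- path equations -/
def PathEq (j d i : ℕ) (u : ℕ → H) : Prop :=
  u (anch j d i) = 0 ∧
  (∀ v, anch j d i < v → v ≤ d → qq j d i v • u v + rr j d i v • u (v - 1) = 0) ∧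
  (∀ v, v < anch j d i → qq j d i v • u v + rr j d i v • u (v + 1) = 0)

/-- pair equations -/
def PairEq (j d i : ℕ) (u : ℕ → H) : Prop :=
  ∀ m, m < d → ∀ α, cut j d m i ≤ α → α < cut j d m (i + 1) →
    (kk j d - α) • u (ev m) + α • u (od m) = 0

theorem kk_pos (j d : ℕ) : 1 ≤ kk j d := by unfold kk; omega

theorem pairEq_of_pathEq {j d i : ℕ} (hj : 1 ≤ j) (hd : 1 ≤ d) (hi : i ≤ j * d) (u : ℕ → H)
    (h : PathEq j d i u) : PairEq j d i u := by
  have hjd : 1 ≤ j * d := Nat.mul_pos hj hd
  obtain ⟨h0, h1, h2⟩ := h
  intro m hm α hα1 hα2
  rcases Nat.eq_zero_or_pos i with hi0 | hi0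
  · -- first set
    subst hi0
    have hanch : anch j d 0 = 0 := by simp [anch]
    rw [hanch] at h0 h1 h2
    rw [cut_one hj hd hm] at hα2
    have heven : ∀ v, v ≤ d → v % 2 = 0 → kk j d • u v = 0 := by
      intro v hv hv2
      rcases Nat.eq_zero_or_pos v with hv0 | hv0
      · rw [hv0, h0, smul_zero]
      · have := h1 v hv0 hv
        simp only [qq, rr, if_pos, hv2] at this
        rw [if_pos ⟨trivial, by omega⟩, zero_smul, add_zero] at this
        exact this
    by_cases hpar : m % 2 = 0
    · rw [if_pos hpar] at hα2
      rw [ev, od, if_pos hpar, if_pos hpar]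
      rcases Nat.eq_zero_or_pos α with hα0 | hα0
      · subst hα0
        rw [zero_smul, add_zero, Nat.sub_zero]
        exact heven m hm.le hpar
      · have hα : α = 1 := by omega
        subst hα
        have := h1 (m + 1) (by omega) (by omega)
        have hp : (m + 1) % 2 ≠ 0 := by omega
        simp only [qq, rr, if_pos] at this
        rw [if_neg (by tauto), if_neg hp, Nat.add_sub_cancel] at this
        rw [add_comm]
        exact this
    · rw [if_neg hpar] at hα2
      have hα0 : α = 0 := by omega
      subst hα0
      rw [ev, od, if_neg hpar, if_neg hpar, zero_smul, add_zero, Nat.sub_zero]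
      exact heven (m + 1) (by omega) (by omega)
  rcases Nat.lt_or_ge i (j * d) with hi1 | hi1
  · -- middle sets
    have hanch : anch j d i = i % d := by
      unfold anch; rw [if_neg (by omega), if_pos hi1]
    rw [hanch] at h0 h1 h2
    have hstep := cut_step (j := j) hd hm hi0 (by omega : i + 1 ≤ j * d)
    have hc : i % d < d := Nat.mod_lt _ hd
    have hq : ∀ v, v ≠ i % d → v ≠ i % d + 1 → qq j d i v =
        if v % 2 = 0 then kk j d - cut j d (rg (i % d) v) i else cut j d (rg (i % d) v) i := by
      intro v hv1 hv2
      unfold qq
      rw [if_neg (by omega), if_pos hi1, if_neg (by omega)]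
    have hr : ∀ v, v ≠ i % d → v ≠ i % d + 1 → rr j d i v =
        if v % 2 = 0 then cut j d (rg (i % d) v) i else kk j d - cut j d (rg (i % d) v) i := by
      intro v hv1 hv2
      unfold rr
      rw [if_neg (by omega), if_pos hi1, if_neg (by omega)]
    have hc1 : u (i % d + 1) = 0 := by
      have := h1 (i % d + 1) (by omega) (by omega)
      have e1 : qq j d i (i % d + 1) = 1 := by
        unfold qq
        rw [if_neg (by omega), if_pos hi1, if_pos (Or.inr rfl)]
      rw [e1, Nat.add_sub_cancel, h0, one_smul, smul_zero, add_zero] at this
      exact this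
    rcases Nat.lt_trichotomy m (i % d) with hmc | hmc | hmc
    · -- range left of the anchor
      rw [if_neg (by omega)] at hstep
      have hα : α = cut j d m i := by omega
      subst hα
      have := h2 m hmc
      rw [hq m (by omega) (by omega), hr m (by omega) (by omega)] at this
      have hrg : rg (i % d) m = m := by unfold rg; rw [if_pos hmc]
      rw [hrg] at this
      by_cases hpar : m % 2 = 0
      · rw [if_pos hpar, if_pos hpar] at this
        rw [ev, od, if_pos hpar, if_pos hpar]
        exact this
      · rw [if_neg hpar, if_neg hpar] at this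
        rw [ev, od, if_neg hpar, if_neg hpar, add_comm]
        exact this
    · -- the anchor range
      have he : u (ev m) = 0 := by
        unfold ev; split
        · rw [hmc]; exact h0
        · rw [hmc]; exact hc1
      have ho : u (od m) = 0 := by
        unfold od; split
        · rw [hmc]; exact hc1
        · rw [hmc]; exact h0
      rw [he, ho, smul_zero, smul_zero, add_zero]
    · rw [if_neg (by omega)] at hstep
      have hα : α = cut j d m i := by omega
      subst hα
      have := h1 (m + 1) (by omega) (by omega)
      rw [hq (m + 1) (by omega) (by omega), hr (m + 1) (by omega) (by omega),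
        Nat.add_sub_cancel] at this
      have hrg : rg (i % d) (m + 1) = m := by unfold rg; rw [if_neg (by omega)]; omega
      rw [hrg] at this
      by_cases hpar : m % 2 = 0
      · have hp : ¬ (m + 1) % 2 = 0 := by omega
        rw [if_neg hp, if_neg hp] at this
        rw [ev, od, if_pos hpar, if_pos hpar, add_comm]
        exact this
      · have hp : (m + 1) % 2 = 0 := by omega
        rw [if_pos hp, if_pos hp] at this
        rw [ev, od, if_neg hpar, if_neg hpar]
        exact this
  · -- last set
    have hi2 : i = j * d := by omega
    subst hi2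
    have hanch : anch j d (j * d) = 1 := by
      unfold anch; rw [if_neg (by omega), if_neg (by omega)]
    rw [hanch] at h0 h1 h2
    rw [cut_last hj hd hm] at hα1
    rw [cut_top (Nat.lt_succ_self _)] at hα2
    have hk := kk_pos j d
    have hq : ∀ v, qq j d (j * d) v = if v % 2 = 1 ∧ v ≠ 1 then kk j d else 1 := by
      intro v
      unfold qq
      rw [if_neg (by omega), if_neg (by omega)]
    have hr : ∀ v, rr j d (j * d) v = if v % 2 = 1 then 0 else kk j d - 1 := by
      intro v
      unfold rr
      rw [if_neg (by omega), if_neg (by omega)]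
    have hodd : ∀ v, v ≤ d → v % 2 = 1 → kk j d • u v = 0 := by
      intro v hv hv2
      rcases Nat.lt_or_ge 1 v with hv1 | hv1
      · have := h1 v hv1 hv
        rw [hq, hr, if_pos ⟨hv2, by omega⟩, if_pos hv2, zero_smul, add_zero] at this
        exact this
      · have : v = 1 := by omega
        rw [this, h0, smul_zero]
    have hodle : od m ≤ d := by unfold od; split <;> omega
    have hodp : od m % 2 = 1 := by have := od_odd m; omega
    rcases Nat.lt_or_ge α (kk j d) with hα3 | hα3
    · -- α = k - 1 and cc m = 0
      have hcc : cc m = 0 := by omega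
      have hα : α = kk j d - 1 := by omega
      subst hα
      have e1 : kk j d - (kk j d - 1) = 1 := by omega
      rw [e1]
      rcases Nat.eq_zero_or_pos m with hm0 | hm0
      · subst hm0
        have := h2 0 (by omega)
        rw [hq, hr, if_neg (by omega), if_neg (by omega)] at this
        simpa [ev, od] using this
      · have hpar : ¬ m % 2 = 0 := by
          intro hp
          unfold cc at hcc
          rw [if_pos ⟨hp, by omega⟩] at hcc
          omega
        have := h1 (m + 1) (by omega) (by omega)
        rw [hq, hr, if_neg (by omega), if_neg (by omega), Nat.add_sub_cancel] at this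
        rw [ev, od, if_neg hpar, if_neg hpar]
        exact this
    · have hα : α = kk j d := by omega
      subst hα
      rw [Nat.sub_self, zero_smul, zero_add]
      exact hodd _ hodle hodp

end

/-- the pair equations have only the trivial solution in `ℂ`. -/
theorem eq_zero_of_pairEq {j d i : ℕ} (hj : 1 ≤ j) (hd : 1 ≤ d) (hi : i ≤ j * d) (u : ℕ → ℂ)
    (h : PairEq j d i u) : ∀ v, v ≤ d → u v = 0 := by
  have hjd : 1 ≤ j * d := Nat.mul_pos hj hd
  have hk := kk_pos j d
  have hkC : (kk j d : ℂ) ≠ 0 := by exact_mod_cast (by omega : kk j d ≠ 0)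
  rcases Nat.eq_zero_or_pos i with hi0 | hi0
  · subst hi0
    -- even vertices
    have hev0 : ∀ m, m < d → u (ev m) = 0 := by
      intro m hm
      have := h m hm 0 (by rw [cut_zero]) (by rw [cut_one hj hd hm]; split <;> omega)
      simpa [hkC] using this
    have heven : ∀ v, v ≤ d → v % 2 = 0 → u v = 0 := by
      intro v hv hv2
      rcases Nat.lt_or_ge v d with h1 | h1
      · have := hev0 v h1
        rwa [ev, if_pos hv2] at this
      · have h2 : v = d := by omega
        have := hev0 (d - 1) (by omega)
        rwa [ev, if_neg (by omega), show d - 1 + 1 = v by omega] at this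
    intro v hv
    by_cases hv2 : v % 2 = 0
    · exact heven v hv hv2
    · have := h (v - 1) (by omega) 1 (by rw [cut_zero]; omega)
        (by rw [cut_one hj hd (by omega), if_pos (by omega)]; omega)
      rw [hev0 (v - 1) (by omega), od, if_pos (by omega), show v - 1 + 1 = v by omega] at this
      simpa using this
  rcases Nat.lt_or_ge i (j * d) with hi1 | hi1
  · -- middle
    have hc : i % d < d := Nat.mod_lt _ hd
    set c := i % d with hcdef
    have hcutpos : ∀ m, 1 ≤ cut j d m i := fun m => one_le_cut hi0
    have hcutlt : ∀ m, m < d → cut j d m i < kk j d := by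
      intro m hm
      have h5 := cut_add_nu_le (j := j) (m := m) hd hi0 (by omega : i ≤ j * d)
      have h6 : cut j d m i + (j * d - i) ≤ kk j d :=
        le_trans (Nat.add_le_add_left (Nat.le_add_right _ _) _) h5
      omega
    -- at the anchor range
    have hstepc := cut_step (j := j) hd hc hi0 (by omega : i + 1 ≤ j * d)
    rw [if_pos hcdef.symm] at hstepc
    have hc0 : u (ev c) = 0 ∧ u (od c) = 0 := by
      have e1 := h c hc (cut j d c i) le_rfl (by omega)
      have e2 := h c hc (cut j d c i + 1) (by omega) (by omega)
      have hlt := hcutlt c hc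
      set n := cut j d c i with hn
      rw [nsmul_eq_mul, nsmul_eq_mul, Nat.cast_sub hlt.le] at e1
      rw [nsmul_eq_mul, nsmul_eq_mul, Nat.cast_sub (by omega : n + 1 ≤ kk j d)] at e2
      push_cast at e2
      have e3 : u (ev c) = u (od c) := by linear_combination e1 - e2
      have e4 : (kk j d : ℂ) * u (ev c) = 0 := by
        rw [← e3] at e1; linear_combination e1
      have e5 : u (ev c) = 0 := (mul_eq_zero.1 e4).resolve_left hkC
      exact ⟨e5, by rw [← e3]; exact e5⟩
    have hcc : u c = 0 ∧ u (c + 1) = 0 := by
      by_cases hp : c % 2 = 0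
      · rw [ev, od, if_pos hp, if_pos hp] at hc0; exact hc0
      · rw [ev, od, if_neg hp, if_neg hp] at hc0; exact ⟨hc0.2, hc0.1⟩
    -- propagation through a range
    have hprop : ∀ m, m < d → m ≠ c → (u m = 0 ↔ u (m + 1) = 0) := by
      intro m hm hmc
      have hstep := cut_step (j := j) hd hm hi0 (by omega : i + 1 ≤ j * d)
      rw [if_neg (by rw [← hcdef]; omega)] at hstep
      have e1 := h m hm (cut j d m i) le_rfl (by omega)
      have hlt := hcutlt m hm
      have hpos := hcutpos m
      set n := cut j d m i with hn
      have hn0 : (n : ℂ) ≠ 0 := by exact_mod_cast (by omega : n ≠ 0)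
      have hkn : ((kk j d - n : ℕ) : ℂ) ≠ 0 := by exact_mod_cast (by omega : kk j d - n ≠ 0)
      rw [nsmul_eq_mul, nsmul_eq_mul] at e1
      have hiff : u (ev m) = 0 ↔ u (od m) = 0 := by
        constructor
        · intro h0
          rw [h0, mul_zero, zero_add] at e1
          exact (mul_eq_zero.1 e1).resolve_left hn0
        · intro h0
          rw [h0, mul_zero, add_zero] at e1
          exact (mul_eq_zero.1 e1).resolve_left hkn
      by_cases hp : m % 2 = 0
      · rw [ev, od, if_pos hp, if_pos hp] at hiff; exact hiff
      · rw [ev, od, if_neg hp, if_neg hp] at hiff; exact hiff.symm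
    have hup : ∀ n, c + 1 + n ≤ d → u (c + 1 + n) = 0 := by
      intro n
      induction n with
      | zero => intro _; exact hcc.2
      | succ n ih =>
        intro hn
        have := ih (by omega)
        exact (hprop (c + 1 + n) (by omega) (by omega)).1 this
    have hdown : ∀ n, n ≤ c → u (c - n) = 0 := by
      intro n
      induction n with
      | zero => intro _; exact hcc.1
      | succ n ih =>
        intro hn
        have h3 := ih (by omega)
        have e : c - (n + 1) + 1 = c - n := by omega
        have := hprop (c - (n + 1)) (by omega) (by omega)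
        rw [e] at this
        exact this.2 h3
    intro v hv
    rcases Nat.lt_or_ge v (c + 1) with h1 | h1
    · have := hdown (c - v) (by omega)
      rwa [show c - (c - v) = v by omega] at this
    · have := hup (v - (c + 1)) (by omega)
      rwa [show c + 1 + (v - (c + 1)) = v by omega] at this
  · have hi2 : i = j * d := by omega
    subst hi2
    have hod0 : ∀ m, m < d → u (od m) = 0 := by
      intro m hm
      have := h m hm (kk j d) (by rw [cut_last hj hd hm]; have := cc_le m; omega)
        (by rw [cut_top (Nat.lt_succ_self _)]; omega)
      rw [Nat.sub_self, zero_smul, zero_add, nsmul_eq_mul] at this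
      exact (mul_eq_zero.1 this).resolve_left hkC
    have hodd : ∀ v, v ≤ d → v % 2 = 1 → u v = 0 := by
      intro v hv hv2
      have := hod0 (v - 1) (by omega)
      rwa [od, if_pos (by omega), show v - 1 + 1 = v by omega] at this
    have hpair : ∀ m, m < d → cc m = 0 → u (ev m) = 0 := by
      intro m hm hcm
      have := h m hm (kk j d - 1) (by rw [cut_last hj hd hm, hcm]; omega)
        (by rw [cut_top (Nat.lt_succ_self _)]; omega)
      rw [hod0 m hm, smul_zero, add_zero, show kk j d - (kk j d - 1) = 1 by omega, one_smul] at this
      exact this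
    intro v hv
    by_cases hv2 : v % 2 = 1
    · exact hodd v hv hv2
    · rcases Nat.eq_zero_or_pos v with h1 | h1
      · have := hpair 0 (by omega) (by simp [cc])
        rw [h1]; simpa [ev] using this
      · have := hpair (v - 1) (by omega) (by unfold cc; rw [if_neg (by omega)])
        rwa [ev, if_neg (by omega), show v - 1 + 1 = v by omega] at this

end Pool.Agent.Helper14
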