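import Mathlib
import Pool.Agent.Helper14.Systems

/-!
# Solutions of the monomial systems
-/

namespace Pool.Agent.Helper14

open Complex

/-- The `l`-th `q`-th root of `z ≠ 0`. -/
noncomputable def rt (q : ℕ) (z : ℂ) (l : ℕ) : ℂ := exp ((log z + 2 * Real.pi * I * l) / q)

theorem rt_ne_zero (q : ℕ) (z : ℂ) (l : ℕ) : rt q z l ≠ 0 := exp_ne_zero _

theorem rt_pow {q : ℕ} (hq : 1 ≤ q) {z : ℂ} (hz : z ≠ 0) (l : ℕ) : rt q z l ^ q = z := by
  have hq' : (q : ℂ) ≠ 0 := by exact_mod_cast (by omega : q ≠ 0)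
  rw [rt, ← exp_nat_mul, mul_div_cancel₀ _ hq', exp_add, exp_log hz]
  have : exp (2 * Real.pi * I * l) = 1 := by
    rw [exp_eq_one_iff]
    exact ⟨l, by push_cast; ring⟩
  rw [this, mul_one]

theorem rt_inj {q : ℕ} {z : ℂ} {l l' : ℕ} (hl : l < q) (hl' : l' < q)
    (h : rt q z l = rt q z l') : l = l' := by
  have hq' : (q : ℂ) ≠ 0 := by exact_mod_cast (by omega : q ≠ 0)
  rw [rt, rt, exp_eq_exp_iff_exists_int] at h
  obtain ⟨n, hn⟩ := h
  have hpi : (2 * Real.pi * I : ℂ) ≠ 0 := two_pi_I_ne_zero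
  have h2 : (l : ℂ) = l' + n * q := by
    field_simp at hn
    have h3 : (2 * Real.pi * I : ℂ) * l = (2 * Real.pi * I : ℂ) * (l' + n * q) := by
      linear_combination hn
    exact mul_left_cancel₀ hpi h3
  have h3 : (l : ℤ) = l' + n * q := by exact_mod_cast h2
  have hn0 : n = 0 := by
    by_contra hne
    rcases lt_or_gt_of_ne hne with h4 | h4
    · have : n * (q : ℤ) ≤ -1 * q := mul_le_mul_of_nonneg_right (by omega) (by omega)
      omega
    · have : 1 * (q : ℤ) ≤ n * q := mul_le_mul_of_nonneg_right (by omega) (by omega)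
      omega
  rw [hn0] at h3
  omega

/-- solution to the right of the anchor -/
noncomputable def bR (c : ℕ) (q r l : ℕ → ℕ) : ℕ → ℂ
  | 0 => 1
  | n + 1 => rt (q (c + n + 1)) ((bR c q r l n ^ r (c + n + 1))⁻¹) (l (c + n + 1))

/-- solution to the left of the anchor -/
noncomputable def bL (c : ℕ) (q r l : ℕ → ℕ) : ℕ → ℂ
  | 0 => 1
  | n + 1 => rt (q (c - (n + 1))) ((bL c q r l n ^ r (c - (n + 1)))⁻¹) (l (c - (n + 1)))

/-- solution along the path -/
noncomputable def bP (c : ℕ) (q r l : ℕ → ℕ) (v : ℕ) : ℂ :=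
  if v ≤ c then bL c q r l (c - v) else bR c q r l (v - c)

theorem bP_anchor (c : ℕ) (q r l : ℕ → ℕ) : bP c q r l c = 1 := by simp [bP, bL]

theorem bP_ne_zero (c : ℕ) (q r l : ℕ → ℕ) (v : ℕ) : bP c q r l v ≠ 0 := by
  unfold bP
  split
  · cases (c - v) with
    | zero => simp [bL]
    | succ n => exact rt_ne_zero _ _ _
  · cases (v - c) with
    | zero => simp [bR]
    | succ n => exact rt_ne_zero _ _ _

theorem bP_right {c : ℕ} (q r l : ℕ → ℕ) {v : ℕ} (hv : c < v) :
    bP c q r l v = rt (q v) ((bP c q r l (v - 1) ^ r v)⁻¹) (l v) := by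
  obtain ⟨n, rfl⟩ : ∃ n, v = c + n + 1 := ⟨v - c - 1, by omega⟩
  have h1 : bP c q r l (c + n + 1) = bR c q r l (n + 1) := by
    unfold bP; rw [if_neg (by omega), show c + n + 1 - c = n + 1 by omega]
  have h2 : bP c q r l (c + n + 1 - 1) = bR c q r l n := by
    rw [Nat.add_sub_cancel]
    unfold bP
    cases n with
    | zero => simp [bL, bR]
    | succ n => rw [if_neg (by omega), show c + (n + 1) - c = n + 1 by omega]
  rw [h1, h2, bR]

theorem bP_left {c : ℕ} (q r l : ℕ → ℕ) {v : ℕ} (hv : v < c) :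
    bP c q r l v = rt (q v) ((bP c q r l (v + 1) ^ r v)⁻¹) (l v) := by
  obtain ⟨n, hn⟩ : ∃ n, c = v + n + 1 := ⟨c - v - 1, by omega⟩
  have h1 : bP c q r l v = bL c q r l (n + 1) := by
    unfold bP; rw [if_pos hv.le, show c - v = n + 1 by omega]
  have h2 : bP c q r l (v + 1) = bL c q r l n := by
    unfold bP; rw [if_pos (by omega), show c - (v + 1) = n by omega]
  rw [h1, h2, bL, show c - (n + 1) = v by omega]

theorem bP_right_eq {c : ℕ} (q r l : ℕ → ℕ) {v : ℕ} (hv : c < v) (hq : 1 ≤ q v) :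
    bP c q r l v ^ q v * bP c q r l (v - 1) ^ r v = 1 := by
  rw [bP_right q r l hv, rt_pow hq (inv_ne_zero (pow_ne_zero _ (bP_ne_zero _ _ _ _ _))),
    inv_mul_cancel₀ (pow_ne_zero _ (bP_ne_zero _ _ _ _ _))]

theorem bP_left_eq {c : ℕ} (q r l : ℕ → ℕ) {v : ℕ} (hv : v < c) (hq : 1 ≤ q v) :
    bP c q r l v ^ q v * bP c q r l (v + 1) ^ r v = 1 := by
  rw [bP_left q r l hv, rt_pow hq (inv_ne_zero (pow_ne_zero _ (bP_ne_zero _ _ _ _ _))),
    inv_mul_cancel₀ (pow_ne_zero _ (bP_ne_zero _ _ _ _ _))]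

theorem bP_inj {c d : ℕ} (hc : c ≤ d) (q r l l' : ℕ → ℕ)
    (hl : ∀ v, v ≤ d → v ≠ c → l v < q v) (hl' : ∀ v, v ≤ d → v ≠ c → l' v < q v)
    (h : ∀ v, v ≤ d → bP c q r l v = bP c q r l' v) : ∀ v, v ≤ d → v ≠ c → l v = l' v := by
  intro v hv hvc
  have h1 := h v hv
  rcases Nat.lt_or_gt_of_ne hvc with h2 | h2
  · rw [bP_left q r l h2, bP_left q r l' h2, h (v + 1) (by omega)] at h1
    exact rt_inj (hl v hv hvc) (hl' v hv hvc) h1
  · rw [bP_right q r l h2, bP_right q r l' h2, h (v - 1) (by omega)] at h1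
    exact rt_inj (hl v hv hvc) (hl' v hv hvc) h1

theorem anch_le {j d i : ℕ} (hd : 1 ≤ d) : anch j d i ≤ d := by
  unfold anch
  split
  · omega
  · split
    · exact (Nat.mod_lt _ hd).le
    · exact hd

theorem one_le_qq {j d i v : ℕ} (hd : 1 ≤ d) (hi : i ≤ j * d) :
    1 ≤ qq j d i v := by
  have hk := kk_pos j d
  unfold qq
  split
  · split <;> omega
  · rename_i h0
    split
    · rename_i h1
      split
      · exact le_rfl
      · rename_i h2
        push Not at h2
        split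
        · have h5 := cut_add_nu_le (j := j) (m := rg (i % d) v) hd (by omega) hi
          have h6 : cut j d (rg (i % d) v) i + (j * d - i) ≤ kk j d :=
            le_trans (Nat.add_le_add_left (Nat.le_add_right _ _) _) h5
          omega
        · exact one_le_cut (by omega)
    · split <;> omega

/-- the solution attached to a label satisfies all the equations of its set -/
theorem bP_pair {j d i : ℕ} (hj : 1 ≤ j) (hd : 1 ≤ d) (hi : i ≤ j * d) (l : ℕ → ℕ) :
    ∀ m, m < d → ∀ α, cut j d m i ≤ α → α < cut j d m (i + 1) →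
      bP (anch j d i) (qq j d i) (rr j d i) l (ev m) ^ (kk j d - α) *
      bP (anch j d i) (qq j d i) (rr j d i) l (od m) ^ α = 1 := by
  set b := bP (anch j d i) (qq j d i) (rr j d i) l with hb
  have hb0 : ∀ v, b v ≠ 0 := fun v => bP_ne_zero _ _ _ _ _
  -- transport to an additive group
  let u : ℕ → Additive ℂˣ := fun v => Additive.ofMul (Units.mk0 (b v) (hb0 v))
  have hu : ∀ (x y : ℕ) (v w : ℕ), x • u v + y • u w = 0 ↔ b v ^ x * b w ^ y = 1 := by
    intro x y v w
    have e : x • u v + y • u w = Additive.ofMul ((Units.mk0 (b v) (hb0 v)) ^ x *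
        (Units.mk0 (b w) (hb0 w)) ^ y) := by
      rw [ofMul_mul, ofMul_pow, ofMul_pow]
    rw [e, ofMul_eq_zero, ← Units.val_inj]
    simp
  -- truncation: the path equations beyond `d` are not needed
  have hpath : PathEq j d i u := by
    refine ⟨?_, ?_, ?_⟩
    · show Additive.ofMul _ = 0
      rw [ofMul_eq_zero, ← Units.val_inj]
      simp only [Units.val_mk0, Units.val_one]
      exact bP_anchor _ _ _ _
    · intro v hv1 _
      rw [hu]
      exact bP_right_eq _ _ _ hv1 (one_le_qq hd hi)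
    · intro v hv
      rw [hu]
      exact bP_left_eq _ _ _ hv (one_le_qq hd hi)
  have hpair := pairEq_of_pathEq hj hd hi u hpath
  intro m hm α h1 h2
  exact (hu _ _ _ _).1 (hpair m hm α h1 h2)

/-- product bound for one middle set -/
theorem prod_parity_aux (x y c d : ℕ) (hx : 1 ≤ x) (hy : 1 ≤ y) (hc : c < d) :
    ∏ v ∈ Finset.range (d + 1), (if v = c ∨ v = c + 1 then 1 else if v % 2 = 0 then x else y)
      = x ^ (d / 2) * y ^ ((d - 1) / 2) := by
  have h1 : ∏ v ∈ Finset.range (d + 1), (if v % 2 = 0 then x else y)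
      = x ^ (d / 2 + 1) * y ^ ((d + 1) / 2) := by
    clear hc
    induction d with
    | zero => simp
    | succ d ih =>
      rw [Finset.prod_range_succ, ih]
      by_cases hp : (d + 1) % 2 = 0
      · rw [if_pos hp]
        have e1 : (d + 1) / 2 = d / 2 + 1 := by omega
        have e2 : (d + 1 + 1) / 2 = (d + 1) / 2 := by omega
        rw [e2, e1]; ring
      · rw [if_neg hp]
        have e1 : (d + 1) / 2 = d / 2 := by omega
        have e2 : (d + 1 + 1) / 2 = (d + 1) / 2 + 1 := by omega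
        rw [e2, e1]; ring
  have h2 : ∏ v ∈ Finset.range (d + 1), (if v % 2 = 0 then x else y)
      = (∏ v ∈ Finset.range (d + 1),
          (if v = c ∨ v = c + 1 then 1 else if v % 2 = 0 then x else y)) *
        ∏ v ∈ Finset.range (d + 1),
          (if v = c ∨ v = c + 1 then (if v % 2 = 0 then x else y) else 1) := by
    rw [← Finset.prod_mul_distrib]
    refine Finset.prod_congr rfl (fun v _ => ?_)
    split <;> split <;> simp_all
  have h3 : ∏ v ∈ Finset.range (d + 1),
      (if v = c ∨ v = c + 1 then (if v % 2 = 0 then x else y) else 1) = x * y := by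
    have hsub : ({c, c + 1} : Finset ℕ) ⊆ Finset.range (d + 1) := by
      intro v hv
      simp only [Finset.mem_insert, Finset.mem_singleton] at hv
      rw [Finset.mem_range]; omega
    rw [← Finset.prod_subset hsub]
    · rw [Finset.prod_pair (by omega)]
      rw [if_pos (Or.inl rfl), if_pos (Or.inr rfl)]
      by_cases hp : c % 2 = 0
      · rw [if_pos hp, if_neg (by omega)]
      · rw [if_neg hp, if_pos (by omega), mul_comm]
    · intro v _ hv
      simp only [Finset.mem_insert, Finset.mem_singleton] at hv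
      rw [if_neg hv]
  rw [h1, h3] at h2
  have e1 : x ^ (d / 2 + 1) * y ^ ((d + 1) / 2) = (x ^ (d / 2) * y ^ ((d - 1) / 2)) * (x * y) := by
    have : (d + 1) / 2 = (d - 1) / 2 + 1 := by omega
    rw [this]; ring
  rw [e1] at h2
  exact (Nat.eq_of_mul_eq_mul_right (Nat.mul_pos hx hy) h2).symm

/-- lower bound for the number of labels of a middle set -/
theorem prod_qq_middle {j d i : ℕ} (hd : 1 ≤ d) (h1 : 1 ≤ i) (h2 : i < j * d) :
    ((j * d - i) + (j * d - i) / d) ^ (d / 2) * (i + i / d) ^ ((d - 1) / 2)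
      ≤ ∏ v ∈ Finset.range (d + 1), qq j d i v := by
  have hc : i % d < d := Nat.mod_lt _ hd
  rw [← prod_parity_aux ((j * d - i) + (j * d - i) / d) (i + i / d) (i % d) d
    (le_trans (by omega) (Nat.le_add_right _ _)) (le_trans h1 (Nat.le_add_right _ _)) hc]
  refine Finset.prod_le_prod' (fun v hv => ?_)
  rw [Finset.mem_range] at hv
  unfold qq
  rw [if_neg (show ¬ i = 0 by omega), if_pos h2]
  by_cases h3 : v = i % d ∨ v = i % d + 1
  · rw [if_pos h3, if_pos h3]
  · rw [if_neg h3, if_neg h3]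
    push Not at h3
    have hrg : rg (i % d) v < d := by unfold rg; split <;> omega
    by_cases hp : v % 2 = 0
    · rw [if_pos hp, if_pos hp]
      have h5 := cut_add_nu_le (j := j) (m := rg (i % d) v) hd h1 h2.le
      omega
    · rw [if_neg hp, if_neg hp]
      exact nu_le_cut hrg h1 h2.le

theorem prod_qq_first {j d : ℕ} :
    ∏ v ∈ Finset.range (d + 1), qq j d 0 v = kk j d ^ (d / 2) := by
  induction d with
  | zero => simp [qq]
  | succ d ih =>
    have hq : ∀ d', ∏ v ∈ Finset.range (d + 1), qq j d' 0 v = kk j d' ^ (d / 2) := by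
      intro d'
      clear ih
      induction d with
      | zero => simp [qq]
      | succ d ih =>
        rw [Finset.prod_range_succ, ih, qq, if_pos rfl]
        by_cases hp : (d + 1) % 2 = 0
        · rw [if_pos ⟨hp, by omega⟩, show (d + 1) / 2 = d / 2 + 1 by omega]; ring
        · rw [if_neg (by omega), show (d + 1) / 2 = d / 2 by omega]; ring
    rw [Finset.prod_range_succ, hq, qq, if_pos rfl]
    by_cases hp : (d + 1) % 2 = 0
    · rw [if_pos ⟨hp, by omega⟩, show (d + 1) / 2 = d / 2 + 1 by omega]; ring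
    · rw [if_neg (by omega), show (d + 1) / 2 = d / 2 by omega]; ring

theorem prod_qq_last {j d : ℕ} (hj : 1 ≤ j) (hd : 1 ≤ d) :
    ∏ v ∈ Finset.range (d + 1), qq j d (j * d) v = kk j d ^ ((d - 1) / 2) := by
  have hjd : 1 ≤ j * d := Nat.mul_pos hj hd
  have hq : ∀ v, qq j d (j * d) v = if v % 2 = 1 ∧ v ≠ 1 then kk j d else 1 := by
    intro v
    unfold qq
    rw [if_neg (by omega), if_neg (by omega)]
  have key : ∀ e, ∏ v ∈ Finset.range (e + 1), qq j d (j * d) v = kk j d ^ ((e - 1) / 2) := by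
    intro e
    induction e with
    | zero => simp [hq]
    | succ e ih =>
      rw [Finset.prod_range_succ, ih, hq]
      by_cases hp : (e + 1) % 2 = 1 ∧ e + 1 ≠ 1
      · rw [if_pos hp, show (e + 1 - 1) / 2 = (e - 1) / 2 + 1 by omega]; ring
      · rw [if_neg hp, show (e + 1 - 1) / 2 = (e - 1) / 2 by omega]; ring
  exact key d

/-- total number of labels -/
theorem prod_qq_total {j d : ℕ} (hj : 1 ≤ j) (hd : 1 ≤ d) :
    (kk j d * ∏ i ∈ Finset.Icc 1 (j * d - 1), (i + i / d)) ^ (d - 1)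
      ≤ ∏ i ∈ Finset.range (j * d + 1), ∏ v ∈ Finset.range (d + 1), qq j d i v := by
  have hjd : 1 ≤ j * d := Nat.mul_pos hj hd
  rw [Finset.prod_range_succ, Finset.range_eq_Ico, Finset.prod_eq_prod_Ico_succ_bot hjd,
    prod_qq_first, prod_qq_last hj hd]
  have hIcc : Finset.Ico (0 + 1) (j * d) = Finset.Icc 1 (j * d - 1) := by
    ext v; simp only [Finset.mem_Ico, Finset.mem_Icc]; omega
  rw [hIcc]
  set S := Finset.Icc 1 (j * d - 1) with hS
  have hmid : (∏ i ∈ S, ((j * d - i) + (j * d - i) / d)) ^ (d / 2) *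
      (∏ i ∈ S, (i + i / d)) ^ ((d - 1) / 2)
      ≤ ∏ i ∈ S, ∏ v ∈ Finset.range (d + 1), qq j d i v := by
    rw [← Finset.prod_pow, ← Finset.prod_pow, ← Finset.prod_mul_distrib]
    refine Finset.prod_le_prod' (fun i hi => ?_)
    rw [hS, Finset.mem_Icc] at hi
    exact prod_qq_middle hd hi.1 (by omega)
  have hrefl : ∏ i ∈ S, ((j * d - i) + (j * d - i) / d) = ∏ i ∈ S, (i + i / d) := by
    refine Finset.prod_bij' (fun i _ => j * d - i) (fun i _ => j * d - i) ?_ ?_ ?_ ?_ ?_
    · intro i hi; rw [hS, Finset.mem_Icc] at *; omega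
    · intro i hi; rw [hS, Finset.mem_Icc] at *; omega
    · intro i hi; rw [hS, Finset.mem_Icc] at hi; omega
    · intro i hi; rw [hS, Finset.mem_Icc] at hi; omega
    · intro i hi; rfl
  rw [hrefl] at hmid
  set Q := ∏ i ∈ S, (i + i / d) with hQ
  have hexp : d - 1 = d / 2 + (d - 1) / 2 := by omega
  calc (kk j d * Q) ^ (d - 1) = (kk j d * Q) ^ (d / 2 + (d - 1) / 2) := by rw [← hexp]
    _ = kk j d ^ (d / 2) * (Q ^ (d / 2) * Q ^ ((d - 1) / 2)) * kk j d ^ ((d - 1) / 2) := by
      rw [pow_add, mul_pow, mul_pow]; ring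
    _ ≤ kk j d ^ (d / 2) * (∏ i ∈ S, ∏ v ∈ Finset.range (d + 1), qq j d i v) *
        kk j d ^ ((d - 1) / 2) :=
      Nat.mul_le_mul_right _ (Nat.mul_le_mul_left _ hmid)

end Pool.Agent.Helper14
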