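import Mathlib
import Pool.Agent.Helper14.Paths
import Pool.Agent.Helper14.OpenMap
import Pool.Agent.Helper14.Forms

/-!
# The degeneration
-/

namespace Pool.Agent.Helper14

open scoped Topology
open Filter

/-- range index of the exponent `B` -/
def rB (j d B : ℕ) : ℕ := min (B / kk j d) (d - 1)

/-- offset of `B` in its range -/
def aB (j d B : ℕ) : ℕ := B - kk j d * rB j d B

/-- offset from the even end -/
def αB (j d B : ℕ) : ℕ := if rB j d B % 2 = 0 then aB j d B else kk j d - aB j d B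

theorem rB_lt {j d B : ℕ} (hd : 1 ≤ d) : rB j d B < d := by unfold rB; omega

theorem mul_rB_add_aB (j d B : ℕ) : kk j d * rB j d B + aB j d B = B := by
  unfold aB
  have h1 : kk j d * rB j d B ≤ B := by
    calc kk j d * rB j d B ≤ kk j d * (B / kk j d) := Nat.mul_le_mul_left _ (min_le_left _ _)
      _ ≤ B := Nat.mul_div_le _ _
  omega

theorem aB_le {j d B : ℕ} (hd : 1 ≤ d) (hB : B ≤ kk j d * d) : aB j d B ≤ kk j d := by
  have h1 := mul_rB_add_aB j d B
  have hk := kk_pos j d
  rcases Nat.lt_or_ge (B / kk j d) d with h2 | h2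
  · have h3 : rB j d B = B / kk j d := by unfold rB; omega
    have h4 := Nat.div_add_mod B (kk j d)
    have h5 := Nat.mod_lt B (show 0 < kk j d by omega)
    rw [h3] at h1
    omega
  · have h3 : rB j d B = d - 1 := by unfold rB; omega
    have h4 : kk j d * (d - 1) + kk j d = kk j d * d := by
      rw [← Nat.mul_succ]; congr 1; omega
    rw [h3] at h1
    omega

theorem αB_le {j d B : ℕ} (hd : 1 ≤ d) (hB : B ≤ kk j d * d) : αB j d B ≤ kk j d := by
  have := aB_le hd hB
  unfold αB; split <;> omega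

/-- the owner of the exponent `B` -/
noncomputable def own (j d B : ℕ) : ℕ :=
  open Classical in
  if h : ∃ i, i < ss j d ∧ cut j d (rB j d B) i ≤ αB j d B ∧
    αB j d B < cut j d (rB j d B) (i + 1) then h.choose else 0

theorem own_spec {j d B : ℕ} (hd : 1 ≤ d) (hB : B ≤ kk j d * d) :
    own j d B < ss j d ∧ cut j d (rB j d B) (own j d B) ≤ αB j d B ∧
      αB j d B < cut j d (rB j d B) (own j d B + 1) := by
  have h : ∃ i, i < ss j d ∧ cut j d (rB j d B) i ≤ αB j d B ∧
    αB j d B < cut j d (rB j d B) (i + 1) := exists_own (αB_le hd hB)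
  unfold own
  rw [dif_pos h]
  exact h.choose_spec

section Main

/-- all indices are `m` or `m + 1` -/
def IsMain {k : ℕ} (m : ℕ) (t : Fin k → ℕ) : Prop := ∀ l, t l = m ∨ t l = m + 1

theorem isMain_card {k m a : ℕ} {t : Fin k → ℕ} (ht : IsMain m t) (hs : ∑ l, t l = k * m + a) :
    (Finset.univ.filter (fun l => t l = m + 1)).card = a ∧
    (Finset.univ.filter (fun l => ¬ t l = m + 1)).card = k - a := by
  have h1 : ∑ l, t l = ∑ l, (m + if t l = m + 1 then 1 else 0) := by
    refine Finset.sum_congr rfl (fun l _ => ?_)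
    rcases ht l with h | h
    · rw [h, if_neg (by omega)]; rfl
    · rw [if_pos h]; exact h
  rw [Finset.sum_add_distrib, Finset.sum_boole] at h1
  simp only [Finset.sum_const, Finset.card_univ, Fintype.card_fin, smul_eq_mul, Nat.cast_id] at h1
  have h2 : (Finset.univ.filter (fun l => t l = m + 1)).card = a := by omega
  refine ⟨h2, ?_⟩
  have h3 := Finset.card_filter_add_card_filter_not (s := (Finset.univ : Finset (Fin k)))
    (fun l => t l = m + 1)
  rw [Finset.card_univ, Fintype.card_fin] at h3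
  omega

theorem isMain_prod {M : Type*} [CommMonoid M] {k m a : ℕ} {t : Fin k → ℕ} (ht : IsMain m t)
    (hs : ∑ l, t l = k * m + a) (x : ℕ → M) : ∏ l, x (t l) = x m ^ (k - a) * x (m + 1) ^ a := by
  obtain ⟨h1, h2⟩ := isMain_card ht hs
  have h3 : ∏ l, x (t l) = ∏ l, (if t l = m + 1 then x (m + 1) else x m) := by
    refine Finset.prod_congr rfl (fun l _ => ?_)
    rcases ht l with h | h
    · rw [h, if_neg (by omega)]
    · rw [h, if_pos rfl]
  rw [h3, Finset.prod_ite, Finset.prod_const, Finset.prod_const, h1, h2, mul_comm]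

theorem isMain_sum {k m a : ℕ} {t : Fin k → ℕ} (ht : IsMain m t) (ha : a ≤ k)
    (hs : ∑ l, t l = k * m + a) (x : ℕ → ℝ) :
    ∑ l, x (t l) = ((k : ℝ) - a) * x m + a * x (m + 1) := by
  have h := isMain_prod (M := Multiplicative ℝ) ht hs (fun n => Multiplicative.ofAdd (x n))
  have h2 := congrArg Multiplicative.toAdd h
  rw [toAdd_prod, toAdd_mul, toAdd_pow, toAdd_pow] at h2
  simp only [toAdd_ofAdd, nsmul_eq_mul] at h2
  rw [h2, Nat.cast_sub ha]

/-- the quadratic energy -/
theorem energy_ge {k m B : ℕ} {t : Fin k → ℕ} (hs : ∑ l, t l = B) :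
    (2 * (m : ℝ) + 1) * B - k * (m * (m + 1)) ≤ ∑ l, (t l : ℝ) ^ 2 ∧
    (IsMain m t → ∑ l, (t l : ℝ) ^ 2 = (2 * (m : ℝ) + 1) * B - k * (m * (m + 1))) ∧
    (¬ IsMain m t → (2 * (m : ℝ) + 1) * B - k * (m * (m + 1)) + 2 ≤ ∑ l, (t l : ℝ) ^ 2) := by
  have key : ∑ l, (t l : ℝ) ^ 2 = (2 * (m : ℝ) + 1) * B - k * (m * (m + 1)) +
      ∑ l, ((t l : ℝ) - m) * ((t l : ℝ) - m - 1) := by
    have h1 : ∑ l, ((t l : ℝ) - m) * ((t l : ℝ) - m - 1) = ∑ l, ((t l : ℝ) ^ 2 -
        (2 * (m : ℝ) + 1) * t l + m * (m + 1)) := by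
      refine Finset.sum_congr rfl (fun l _ => by ring)
    rw [h1, Finset.sum_add_distrib, Finset.sum_sub_distrib, ← Finset.mul_sum]
    have h2 : ∑ l, (t l : ℝ) = B := by exact_mod_cast hs
    rw [h2]
    simp
  have hterm : ∀ l, 0 ≤ ((t l : ℝ) - m) * ((t l : ℝ) - m - 1) := by
    intro l
    rcases Nat.lt_or_ge m (t l) with h | h
    · have : (m : ℝ) + 1 ≤ t l := by exact_mod_cast h
      exact mul_nonneg (by linarith) (by linarith)
    · have : (t l : ℝ) ≤ m := by exact_mod_cast h
      exact mul_nonneg_of_nonpos_of_nonpos (by linarith) (by linarith)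
  refine ⟨?_, ?_, ?_⟩
  · rw [key]
    have := Finset.sum_nonneg (fun l (_ : l ∈ Finset.univ) => hterm l)
    linarith
  · intro ht
    rw [key, Finset.sum_eq_zero, add_zero]
    intro l _
    rcases ht l with h | h
    · rw [h]; ring
    · rw [h]; push_cast; ring
  · intro ht
    unfold IsMain at ht
    push Not at ht
    obtain ⟨l0, h1, h2⟩ := ht
    rw [key]
    have h3 : (2 : ℝ) ≤ ((t l0 : ℝ) - m) * ((t l0 : ℝ) - m - 1) := by
      rcases Nat.lt_or_ge m (t l0) with h | h
      · have h4 : m + 2 ≤ t l0 := by omega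
        have : (m : ℝ) + 2 ≤ t l0 := by exact_mod_cast h4
        nlinarith
      · have h4 : t l0 + 1 ≤ m := by omega
        have : (t l0 : ℝ) + 1 ≤ m := by exact_mod_cast h4
        nlinarith
    have h5 := Finset.single_le_sum (fun l (_ : l ∈ Finset.univ) => hterm l) (Finset.mem_univ l0)
    linarith

/-- existence of a main index function -/
theorem exists_main {k d m a : ℕ} (hm : m < d) (ha : a ≤ k) :
    ∃ t : Fin k → Fin (d + 1), IsMain m (fun l => (t l : ℕ)) ∧ ∑ l, (t l : ℕ) = k * m + a := by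
  refine ⟨fun l => if (l : ℕ) < a then ⟨m + 1, by omega⟩ else ⟨m, by omega⟩, ?_, ?_⟩
  · intro l
    simp only
    split <;> simp
  · have h1 : ∀ l : Fin k, (((if (l : ℕ) < a then ⟨m + 1, by omega⟩ else ⟨m, by omega⟩ :
        Fin (d + 1)) : ℕ)) = m + if (l : ℕ) < a then 1 else 0 := by
      intro l
      split <;> simp
    simp only [h1]
    rw [Finset.sum_add_distrib, Fin.sum_univ_eq_sum_range (fun l => if l < a then 1 else 0) k,
      Finset.sum_boole]
    have h2 : (Finset.range k).filter (fun l => l < a) = Finset.range a := by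
      ext l; simp only [Finset.mem_filter, Finset.mem_range]; omega
    rw [h2]
    simp

end Main

end Pool.Agent.Helper14
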