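import Mathlib

/-!
# Elementary estimates for factorials
-/

namespace Pool.Agent.Helper14

open Nat

theorem self_pow_le_three (s : ℕ) : s ^ s ≤ 3 ^ s * s ! := by
  have h1 := Real.pow_div_factorial_le_exp (s : ℝ) (Nat.cast_nonneg s) s
  have h2 : Real.exp (s : ℝ) ≤ 3 ^ s := by
    have : Real.exp (s : ℝ) = Real.exp 1 ^ s := by
      rw [← Real.exp_nat_mul, mul_one]
    rw [this]
    exact pow_le_pow_left₀ (Real.exp_pos 1).le (Real.exp_one_lt_d9.le.trans (by norm_num)) s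
  have h3 : (0 : ℝ) < (s ! : ℝ) := by exact_mod_cast Nat.factorial_pos s
  have h4 : (s : ℝ) ^ s ≤ 3 ^ s * (s ! : ℝ) := by
    rw [div_le_iff₀ h3] at h1
    exact h1.trans (mul_le_mul_of_nonneg_right h2 h3.le)
  exact_mod_cast h4

theorem pow_le_five_upper {k s : ℕ} (h : 2 * k ≤ 3 * s) : k ^ s ≤ 5 ^ s * s ! := by
  have h1 : (2 * k) ^ s ≤ (3 * s) ^ s := Nat.pow_le_pow_left h s
  have h2 : (3 * s) ^ s ≤ 10 ^ s * s ! := by
    rw [mul_pow]
    calc 3 ^ s * s ^ s ≤ 3 ^ s * (3 ^ s * s !) := Nat.mul_le_mul_left _ (self_pow_le_three s)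
      _ = 9 ^ s * s ! := by rw [← mul_assoc, ← mul_pow]; norm_num
      _ ≤ 10 ^ s * s ! := Nat.mul_le_mul_right _ (Nat.pow_le_pow_left (by norm_num) s)
  have h3 : 2 ^ s * k ^ s ≤ 2 ^ s * (5 ^ s * s !) := by
    rw [← mul_pow, ← mul_assoc, ← mul_pow]
    exact h1.trans h2
  exact Nat.le_of_mul_le_mul_left h3 (by positivity)

theorem growth_aux (m : ℕ) :
    (3 * ((m : ℝ) + 2) + 2) ^ (m + 2) ≤ 2 ^ (m + 2) * 5 ^ (m + 3) * ((m + 1)! : ℝ) := by
  rcases Nat.lt_or_ge m 6 with hm | hm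
  · interval_cases m <;> norm_num [Nat.factorial]
  · induction m, hm using Nat.le_induction with
    | base => norm_num [Nat.factorial]
    | succ m hm ih =>
      have hm' : (6 : ℝ) ≤ m := by exact_mod_cast hm
      have hpos : (0 : ℝ) < 3 * ((m : ℝ) + 2) + 2 := by positivity
      -- the ratio
      have h1 : (3 * (((m + 1 : ℕ) : ℝ) + 2) + 2) ^ (m + 2) ≤
          Real.exp 1 * (3 * ((m : ℝ) + 2) + 2) ^ (m + 2) := by
        have h2 : (3 * (((m + 1 : ℕ) : ℝ) + 2) + 2) =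
            (1 + 3 / (3 * ((m : ℝ) + 2) + 2)) * (3 * ((m : ℝ) + 2) + 2) := by
          push_cast
          field_simp
          ring
        rw [h2, mul_pow]
        apply mul_le_mul_of_nonneg_right _ (by positivity)
        have h3 : 1 + 3 / (3 * ((m : ℝ) + 2) + 2) ≤ Real.exp (3 / (3 * ((m : ℝ) + 2) + 2)) := by
          rw [add_comm]; exact Real.add_one_le_exp _
        calc (1 + 3 / (3 * ((m : ℝ) + 2) + 2)) ^ (m + 2)
            ≤ Real.exp (3 / (3 * ((m : ℝ) + 2) + 2)) ^ (m + 2) :=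
              pow_le_pow_left₀ (by positivity) h3 _
          _ = Real.exp (((m + 2 : ℕ) : ℝ) * (3 / (3 * ((m : ℝ) + 2) + 2))) := by
              rw [Real.exp_nat_mul]
          _ ≤ Real.exp 1 := by
              apply Real.exp_le_exp.2
              rw [← mul_div_assoc, div_le_one hpos]
              push_cast
              linarith
      have h4 : Real.exp 1 * (3 * (((m + 1 : ℕ) : ℝ) + 2) + 2) ≤ 10 * ((m : ℝ) + 2) := by
        have h5 := Real.exp_one_lt_d9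
        have h6 : (0 : ℝ) ≤ 3 * (((m + 1 : ℕ) : ℝ) + 2) + 2 := by positivity
        calc Real.exp 1 * (3 * (((m + 1 : ℕ) : ℝ) + 2) + 2)
            ≤ 2.7182818286 * (3 * (((m + 1 : ℕ) : ℝ) + 2) + 2) :=
              mul_le_mul_of_nonneg_right h5.le h6
          _ ≤ 10 * ((m : ℝ) + 2) := by push_cast; linarith
      have h7 : ((m + 1 + 1)! : ℝ) = ((m : ℝ) + 2) * ((m + 1)! : ℝ) := by
        rw [Nat.factorial_succ (m + 1)]
        push_cast
        ring
      calc (3 * (((m + 1 : ℕ) : ℝ) + 2) + 2) ^ (m + 1 + 2)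
          = (3 * (((m + 1 : ℕ) : ℝ) + 2) + 2) ^ (m + 2) * (3 * (((m + 1 : ℕ) : ℝ) + 2) + 2) := by
            rw [← pow_succ]
        _ ≤ (Real.exp 1 * (3 * ((m : ℝ) + 2) + 2) ^ (m + 2)) *
              (3 * (((m + 1 : ℕ) : ℝ) + 2) + 2) := by
            apply mul_le_mul_of_nonneg_right h1; positivity
        _ = (Real.exp 1 * (3 * (((m + 1 : ℕ) : ℝ) + 2) + 2)) *
              (3 * ((m : ℝ) + 2) + 2) ^ (m + 2) := by ring
        _ ≤ (10 * ((m : ℝ) + 2)) * (2 ^ (m + 2) * 5 ^ (m + 3) * ((m + 1)! : ℝ)) := by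
            apply mul_le_mul h4 ih (by positivity) (by positivity)
        _ = 2 ^ (m + 1 + 2) * 5 ^ (m + 1 + 3) * ((m + 1 + 1)! : ℝ) := by
            rw [h7]; ring

theorem pow_le_five_lower {k s : ℕ} (hs : 3 ≤ s) (h : 2 * k + 1 ≤ 3 * s) :
    k ^ s ≤ 5 ^ s * (k * (s - 2)!) := by
  obtain ⟨m, rfl⟩ : ∃ m, s = m + 3 := ⟨s - 3, by omega⟩
  have h1 := growth_aux m
  have h2 : (3 * (m + 2) + 2) ^ (m + 2) ≤ 2 ^ (m + 2) * 5 ^ (m + 3) * (m + 1)! := by
    exact_mod_cast h1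
  have h3 : (2 * k) ^ (m + 2) ≤ (3 * (m + 2) + 2) ^ (m + 2) := Nat.pow_le_pow_left (by omega) _
  have h4 : 2 ^ (m + 2) * k ^ (m + 2) ≤ 2 ^ (m + 2) * (5 ^ (m + 3) * (m + 1)!) := by
    rw [← mul_pow, ← mul_assoc]; exact h3.trans h2
  have h5 := Nat.le_of_mul_le_mul_left h4 (by positivity)
  have h6 : m + 3 - 2 = m + 1 := by omega
  rw [h6]
  calc k ^ (m + 3) = k ^ (m + 2) * k := by rw [← pow_succ]
    _ ≤ (5 ^ (m + 3) * (m + 1)!) * k := Nat.mul_le_mul_right _ h5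
    _ = 5 ^ (m + 3) * (k * (m + 1)!) := by ring

theorem factorial_le_prod (n d : ℕ) : n ! ≤ ∏ i ∈ Finset.Icc 1 n, (i + i / d) := by
  induction n with
  | zero => simp
  | succ n ih =>
    rw [Finset.prod_Icc_succ_top (by omega), Nat.factorial_succ, mul_comm]
    exact Nat.mul_le_mul ih (Nat.le_add_right _ _)

end Pool.Agent.Helper14
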