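import Mathlib
import Pool.Agent.Helper14.Degeneration

/-!
# The weights dominate, and the limit of the coefficients
-/

namespace Pool.Agent.Helper14

open scoped Topology
open Filter

theorem vl_nonneg {j d i m α : ℕ} (hj : 1 ≤ j) (hd : 1 ≤ d) (hi : i ≤ j * d) (hm : m < d)
    (hα : α ≤ kk j d) : 0 ≤ vl j d i m α := by
  unfold vl
  have h1 : (α : ℝ) ≤ kk j d := by exact_mod_cast hα
  have h2 : ev m ≤ d := by unfold ev; split <;> omega
  have h3 : od m ≤ d := by unfold od; split <;> omega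
  have h4 := xw_nonneg hj hd hi h2
  have h5 := xw_nonneg hj hd hi h3
  have h6 : 0 ≤ (kk j d : ℝ) - α := by linarith
  positivity

/-- large constant -/
noncomputable def Kc (j d : ℕ) : ℝ :=
  1 + ∑ i ∈ Finset.range (j * d + 1), ∑ m ∈ Finset.range d, ∑ α ∈ Finset.range (kk j d + 1),
    vl j d i m α

theorem vl_le_Kc {j d i m α : ℕ} (hj : 1 ≤ j) (hd : 1 ≤ d) (hi : i ≤ j * d) (hm : m < d)
    (hα : α ≤ kk j d) : vl j d i m α ≤ Kc j d - 1 := by
  unfold Kc
  have e : (1 : ℝ) + ∑ i ∈ Finset.range (j * d + 1), ∑ m ∈ Finset.range d,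
      ∑ α ∈ Finset.range (kk j d + 1), vl j d i m α - 1 = ∑ i ∈ Finset.range (j * d + 1),
      ∑ m ∈ Finset.range d, ∑ α ∈ Finset.range (kk j d + 1), vl j d i m α := by ring
  rw [e]
  have h1 : ∀ i' ∈ Finset.range (j * d + 1), ∀ m' ∈ Finset.range d,
      ∀ α' ∈ Finset.range (kk j d + 1), 0 ≤ vl j d i' m' α' := by
    intro i' hi' m' hm' α' hα'
    rw [Finset.mem_range] at *
    exact vl_nonneg hj hd (by omega) hm' (by omega)
  calc vl j d i m α ≤ ∑ α ∈ Finset.range (kk j d + 1), vl j d i m α :=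
        Finset.single_le_sum (f := fun α => vl j d i m α)
          (fun α' hα' => h1 i (Finset.mem_range.2 (by omega)) m (Finset.mem_range.2 hm) α' hα')
          (Finset.mem_range.2 (by omega))
    _ ≤ ∑ m ∈ Finset.range d, ∑ α ∈ Finset.range (kk j d + 1), vl j d i m α :=
        Finset.single_le_sum (f := fun m => ∑ α ∈ Finset.range (kk j d + 1), vl j d i m α)
          (fun m' hm' => Finset.sum_nonneg (fun α' hα' =>
            h1 i (Finset.mem_range.2 (by omega)) m' hm' α' hα')) (Finset.mem_range.2 hm)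
    _ ≤ _ :=
        Finset.single_le_sum (f := fun i => ∑ m ∈ Finset.range d,
          ∑ α ∈ Finset.range (kk j d + 1), vl j d i m α)
          (fun i' hi' => Finset.sum_nonneg (fun m' hm' => Finset.sum_nonneg (fun α' hα' =>
            h1 i' hi' m' hm' α' hα'))) (Finset.mem_range.2 (by omega))

theorem Kc_pos {j d : ℕ} (hj : 1 ≤ j) (hd : 1 ≤ d) : 1 ≤ Kc j d := by
  have h1 := vl_nonneg hj hd (Nat.zero_le (j * d)) (show 0 < d by omega) (Nat.zero_le (kk j d))
  have h2 := vl_le_Kc hj hd (Nat.zero_le (j * d)) (show 0 < d by omega) (Nat.zero_le (kk j d))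
  linarith

/-- the weights of the coefficients of the summands -/
noncomputable def nuw (j d i m : ℕ) : ℝ := Kc j d * (m : ℝ) ^ 2 + xw j d i m

/-- common part of the weight of the exponent `B` -/
noncomputable def basew (j d B : ℕ) : ℝ :=
  Kc j d * ((2 * (rB j d B : ℝ) + 1) * B - kk j d * ((rB j d B : ℝ) * (rB j d B + 1)))

/-- the weight of the exponent `B` -/
noncomputable def wB (j d B : ℕ) : ℝ := basew j d B + vl j d (own j d B) (rB j d B) (αB j d B)

theorem vl_αB {j d B i : ℕ} (hd : 1 ≤ d) (hB : B ≤ kk j d * d) :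
    vl j d i (rB j d B) (αB j d B) = ((kk j d : ℝ) - aB j d B) * xw j d i (rB j d B) +
      aB j d B * xw j d i (rB j d B + 1) := by
  have ha := aB_le hd hB
  unfold vl αB ev od
  split
  · rfl
  · rw [Nat.cast_sub ha]; ring

theorem sum_nuw_main {j d B i : ℕ} (hd : 1 ≤ d) (hB : B ≤ kk j d * d)
    {t : Fin (kk j d) → ℕ} (ht : IsMain (rB j d B) t) (hs : ∑ l, t l = B) :
    ∑ l, nuw j d i (t l) = basew j d B + vl j d i (rB j d B) (αB j d B) := by
  unfold nuw basew
  rw [Finset.sum_add_distrib, ← Finset.mul_sum]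
  have h1 := (energy_ge (m := rB j d B) hs).2.1 ht
  have h2 : ∑ l, t l = kk j d * rB j d B + aB j d B := by rw [mul_rB_add_aB]; exact hs
  rw [h1, isMain_sum ht (aB_le hd hB) h2 (xw j d i), vl_αB hd hB]

theorem sum_nuw_not_main {j d B i : ℕ} (hj : 1 ≤ j) (hd : 1 ≤ d)
    (hi : i ≤ j * d) {t : Fin (kk j d) → ℕ} (htd : ∀ l, t l ≤ d)
    (ht : ¬ IsMain (rB j d B) t) (hs : ∑ l, t l = B) :
    basew j d B + 2 * Kc j d ≤ ∑ l, nuw j d i (t l) := by
  unfold nuw basew
  rw [Finset.sum_add_distrib, ← Finset.mul_sum]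
  have h1 := (energy_ge (m := rB j d B) hs).2.2 ht
  have h2 : 0 ≤ ∑ l, xw j d i (t l) :=
    Finset.sum_nonneg (fun l _ => xw_nonneg hj hd hi (htd l))
  have h3 := Kc_pos hj hd
  have h4 : 0 ≤ Kc j d := by linarith
  have h5 := mul_le_mul_of_nonneg_left h1 h4
  linarith

theorem own_le {j d B : ℕ} (hd : 1 ≤ d) (hB : B ≤ kk j d * d) : own j d B ≤ j * d := by
  have := (own_spec hd hB).1
  unfold ss at this
  omega

theorem dominance {j d B i : ℕ} (hj : 1 ≤ j) (hd : 1 ≤ d) (hB : B ≤ kk j d * d)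
    (hi : i ≤ j * d) {t : Fin (kk j d) → ℕ} (htd : ∀ l, t l ≤ d) (hs : ∑ l, t l = B) :
    ((i = own j d B ∧ IsMain (rB j d B) t) → ∑ l, nuw j d i (t l) = wB j d B) ∧
    (¬ (i = own j d B ∧ IsMain (rB j d B) t) → wB j d B < ∑ l, nuw j d i (t l)) := by
  constructor
  · rintro ⟨rfl, ht⟩
    rw [sum_nuw_main hd hB ht hs, wB]
  · intro h
    by_cases ht : IsMain (rB j d B) t
    · have hne : i ≠ own j d B := fun h' => h ⟨h', ht⟩
      rw [sum_nuw_main hd hB ht hs, wB]
      have hsp := own_spec hd hB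
      have := vl_min hj hd (rB_lt (j := j) (B := B) hd) (own_le hd hB) hi hsp.2.1 hsp.2.2 hne
      linarith
    · have h1 := sum_nuw_not_main hj hd hi htd ht hs
      have h2 := vl_le_Kc hj hd (own_le hd hB) (rB_lt (j := j) (B := B) hd) (αB_le hd hB)
      have h3 := Kc_pos hj hd
      unfold wB
      linarith

/-- limiting coefficients -/
noncomputable def c0 (j d : ℕ) (B : Fin (kk j d * d + 1)) (i : Fin (ss j d))
    (t : Fin (kk j d) → Fin (d + 1)) : ℂ :=
  open Classical in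
  if ((i : ℕ) = own j d B ∧ IsMain (rB j d B) (fun l => (t l : ℕ))) ∧ ∑ l, (t l : ℕ) = (B : ℕ)
  then 1 else 0

/-- coefficients at time `τ` -/
noncomputable def cτ (j d : ℕ) (τ : ℝ) (B : Fin (kk j d * d + 1)) (i : Fin (ss j d))
    (t : Fin (kk j d) → Fin (d + 1)) : ℂ :=
  if ∑ l, (t l : ℕ) = (B : ℕ) then
    ((Real.exp (-τ * (∑ l, nuw j d i (t l : ℕ) - wB j d B)) : ℝ) : ℂ) else 0

theorem tendsto_cτ {j d : ℕ} (hj : 1 ≤ j) (hd : 1 ≤ d) :
    Tendsto (fun τ : ℝ => cτ j d τ) atTop (𝓝 (c0 j d)) := by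
  rw [tendsto_pi_nhds]
  intro B
  rw [tendsto_pi_nhds]
  intro i
  rw [tendsto_pi_nhds]
  intro t
  have hB : (B : ℕ) ≤ kk j d * d := Nat.lt_succ_iff.1 B.2
  have hi : (i : ℕ) ≤ j * d := by have := i.2; unfold ss at this; omega
  unfold cτ c0
  by_cases hs : ∑ l, (t l : ℕ) = (B : ℕ)
  · have hdom := dominance hj hd hB hi (t := fun l => (t l : ℕ))
      (fun l => Nat.lt_succ_iff.1 (t l).2) hs
    by_cases hmain : ((i : ℕ) = own j d B ∧ IsMain (rB j d B) (fun l => (t l : ℕ)))
    · have h1 := hdom.1 hmain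
      simp only [if_pos hs]
      rw [if_pos ⟨hmain, hs⟩, h1]
      simp
    · have h1 := hdom.2 hmain
      simp only [if_pos hs]
      rw [if_neg (fun h => hmain h.1)]
      have h2 : 0 < ∑ l, nuw j d i (t l : ℕ) - wB j d B := by linarith
      have h3 : Tendsto (fun τ : ℝ => Real.exp (-τ * (∑ l, nuw j d i (t l : ℕ) - wB j d B)))
          atTop (𝓝 0) := by
        refine Real.tendsto_exp_atBot.comp ?_
        have := (tendsto_neg_atTop_atBot (G := ℝ)).atBot_mul_const h2
        exact this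
      have h4 := (Complex.continuous_ofReal.tendsto 0).comp h3
      rw [Complex.ofReal_zero] at h4
      exact h4
  · simp only [if_neg hs]
    rw [if_neg (fun h => hs h.2)]
    exact tendsto_const_nhds

end Pool.Agent.Helper14
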