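import Mathlib
import Pool.Agent.Helper14.Limit

/-!
# An open set of forms with many decompositions
-/

namespace Pool.Agent.Helper14

open scoped Topology
open Filter

theorem kk_mul_le {j d m a : ℕ} (hm : m < d) (ha : a ≤ kk j d) :
    kk j d * m + a ≤ kk j d * d := by
  calc kk j d * m + a ≤ kk j d * m + kk j d := by omega
    _ = kk j d * (m + 1) := by ring
    _ ≤ kk j d * d := Nat.mul_le_mul_left _ hm

theorem rB_eq {j d m a : ℕ} (hm : m < d) (ha : a < kk j d ∨ (a = kk j d ∧ m = d - 1)) :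
    rB j d (kk j d * m + a) = m := by
  have hk : 0 < kk j d := kk_pos j d
  unfold rB
  rcases ha with ha | ⟨rfl, hmd⟩
  · rw [Nat.mul_add_div hk, Nat.div_eq_of_lt ha]; omega
  · rw [Nat.mul_add_div hk, Nat.div_self hk]; omega

theorem aB_eq {j d m a : ℕ} (hm : m < d) (ha : a < kk j d ∨ (a = kk j d ∧ m = d - 1)) :
    aB j d (kk j d * m + a) = a := by
  unfold aB
  rw [rB_eq hm ha]; omega

theorem own_eq_of {j d B i : ℕ} (hj : 1 ≤ j) (hd : 1 ≤ d) (hB : B ≤ kk j d * d)
    (h1 : cut j d (rB j d B) i ≤ αB j d B) (h2 : αB j d B < cut j d (rB j d B) (i + 1)) :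
    own j d B = i := by
  have h := own_spec hd hB
  exact own_unique hj hd (rB_lt (j := j) (B := B) hd) h.2.1 h.2.2 h1 h2

/-- from the equations indexed by the exponents to the pair equations -/
theorem pairEq_of_B {j d i : ℕ} (hj : 1 ≤ j) (hd : 1 ≤ d) (hi : i ≤ j * d) (u : ℕ → ℂ)
    (h : ∀ B, B ≤ kk j d * d → own j d B = i →
      (kk j d - aB j d B) • u (rB j d B) + aB j d B • u (rB j d B + 1) = 0) :
    PairEq j d i u := by
  intro m hm α h1 h2
  have hk := kk_pos j d
  have hα : α ≤ kk j d := by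
    have h3 : cut j d m (i + 1) ≤ kk j d + 1 := by
      have := cut_mono hj hd hm (show i + 1 ≤ j * d + 1 by omega)
      rwa [cut_top (Nat.lt_succ_self _)] at this
    omega
  -- the offset
  obtain ⟨a, ha, haα⟩ : ∃ a, a ≤ kk j d ∧
      ((m % 2 = 0 ∧ a = α) ∨ (m % 2 ≠ 0 ∧ a = kk j d - α ∧ α = kk j d - a)) := by
    by_cases hp : m % 2 = 0
    · exact ⟨α, hα, Or.inl ⟨hp, rfl⟩⟩
    · exact ⟨kk j d - α, by omega, Or.inr ⟨hp, rfl, by omega⟩⟩
  have hgoal : (kk j d - a) • u m + a • u (m + 1) = 0 →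
      (kk j d - α) • u (ev m) + α • u (od m) = 0 := by
    intro h3
    rcases haα with ⟨hp, hα'⟩ | ⟨hp, hα', hα''⟩
    · subst hα'
      rw [ev, od, if_pos hp, if_pos hp]; exact h3
    · rw [ev, od, if_neg hp, if_neg hp, ← hα', add_comm, hα'']; exact h3
  apply hgoal
  by_cases hcan : a < kk j d ∨ (a = kk j d ∧ m = d - 1)
  · have hB := kk_mul_le hm ha
    have hr := rB_eq hm hcan
    have hab := aB_eq hm hcan
    have hαB : αB j d (kk j d * m + a) = α := by
      unfold αB
      rw [hr, hab]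
      rcases haα with ⟨hp, hα'⟩ | ⟨hp, hα', hα''⟩
      · rw [if_pos hp, hα']
      · rw [if_neg hp, hα'']
    have hown := own_eq_of hj hd hB (i := i) (by rw [hr, hαB]; exact h1)
      (by rw [hr, hαB]; exact h2)
    have := h _ hB hown
    rwa [hr, hab] at this
  · push Not at hcan
    have hak : a = kk j d := by omega
    have hmd : m + 1 < d := by have := hcan.2 hak; omega
    have hcan' : 0 < kk j d ∨ (0 = kk j d ∧ m + 1 = d - 1) := Or.inl (by omega)
    have hB := kk_mul_le (j := j) hmd (Nat.zero_le (kk j d))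
    have hr := rB_eq hmd hcan'
    have hab := aB_eq hmd hcan'
    have hαB : αB j d (kk j d * (m + 1) + 0) = α := by
      unfold αB
      rw [hr, hab]
      rcases haα with ⟨hp, hα'⟩ | ⟨hp, hα', hα''⟩
      · rw [if_neg (by omega)]; omega
      · rw [if_pos (by omega)]; omega
    -- the set is the first or the last one
    have hown : own j d (kk j d * (m + 1) + 0) = i := by
      apply own_eq_of hj hd hB
      · rw [hr, hαB]
        rcases haα with ⟨hp, hα'⟩ | ⟨hp, hα', hα''⟩
        · have : α = kk j d := by omega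
          rw [this]; exact cut_le_k hj hd hmd hi
        · have hα0 : α = 0 := by omega
          have hi0 : i = 0 := by
            by_contra hne
            have := one_le_cut (j := j) (d := d) (m := m) (t := i) (by omega)
            omega
          rw [hi0, cut_zero]; omega
      · rw [hr, hαB]
        rcases haα with ⟨hp, hα'⟩ | ⟨hp, hα', hα''⟩
        · have hα0 : α = kk j d := by omega
          have hi0 : i = j * d := by
            by_contra hne
            have := cut_le_k (j := j) hj hd hm (show i + 1 ≤ j * d by omega)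
            omega
          rw [hi0, cut_top (Nat.lt_succ_self _)]; omega
        · have hα0 : α = 0 := by omega
          have := one_le_cut (j := j) (d := d) (m := m + 1) (t := i + 1) (by omega)
          omega
    have := h _ hB hown
    rw [hr, hab, zero_smul, add_zero, Nat.sub_zero] at this
    rw [hak, Nat.sub_self, zero_smul, zero_add]
    exact this

/-- every set owns some exponent -/
theorem exists_B_own {j d i : ℕ} (hj : 1 ≤ j) (hd : 1 ≤ d) (hi : i ≤ j * d) :
    ∃ B, B ≤ kk j d * d ∧ own j d B = i := by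
  have hk := kk_pos j d
  have hlast := cut_last (m := 0) hj hd (by omega)
  have hcc : cc 0 = 0 := by simp [cc]
  have hlt : cut j d 0 i < kk j d := by
    have := cut_mono hj hd (show 0 < d by omega) hi
    rw [hlast, hcc] at this
    omega
  have hstep : cut j d 0 i < cut j d 0 (i + 1) := by
    rcases Nat.eq_zero_or_pos i with h0 | h0
    · subst h0; rw [cut_zero]; exact one_le_cut (by omega)
    rcases Nat.lt_or_ge i (j * d) with h1 | h1
    · rw [cut_step hd (by omega) h0 (by omega)]; split <;> omega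
    · rw [cut_top (t := i + 1) (by omega)]; omega
  have hr : rB j d (kk j d * 0 + cut j d 0 i) = 0 := rB_eq (by omega) (Or.inl hlt)
  have hab : aB j d (kk j d * 0 + cut j d 0 i) = cut j d 0 i := aB_eq (by omega) (Or.inl hlt)
  have hαB : αB j d (kk j d * 0 + cut j d 0 i) = cut j d 0 i := by
    unfold αB; rw [hr, hab, if_pos rfl]
  refine ⟨kk j d * 0 + cut j d 0 i, kk_mul_le (by omega) hlt.le, ?_⟩
  apply own_eq_of hj hd (kk_mul_le (by omega) hlt.le)
  · rw [hr, hαB]
  · rw [hr, hαB]; exact hstep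

/-- labels -/
abbrev Lab (j d : ℕ) : Type := (i : Fin (ss j d)) → (v : Fin (d + 1)) → Fin (qq j d i v)

theorem card_Lab (j d : ℕ) : Fintype.card (Lab j d) =
    ∏ i ∈ Finset.range (j * d + 1), ∏ v ∈ Finset.range (d + 1), qq j d i v := by
  have h := Finset.prod_range (n := ss j d) (fun i => ∏ v ∈ Finset.range (d + 1), qq j d i v)
  unfold ss at h
  rw [h, Fintype.card_pi]
  unfold ss
  refine Finset.prod_congr rfl (fun i _ => ?_)
  rw [Fintype.card_pi, Finset.prod_range]
  refine Finset.prod_congr rfl (fun v _ => ?_)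
  rw [Fintype.card_fin]

/-- a label as a function of natural numbers -/
def lfun {j d : ℕ} (lam : Lab j d) (i : Fin (ss j d)) (v : ℕ) : ℕ :=
  if h : v < d + 1 then (lam i ⟨v, h⟩ : ℕ) else 0

/-- the solution of the limit system with a given label -/
noncomputable def bet {j d : ℕ} (lam : Lab j d) (i : Fin (ss j d)) (v : Fin (d + 1)) : ℂ :=
  bP (anch j d i) (qq j d i) (rr j d i) (lfun lam i) v

/-- the part of the system coming from the `i`-th summand -/
noncomputable def Gpart {s d k n : ℕ} (x : Fin s → Fin (d + 1) → ℂ)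
    (c : Fin n → Fin s → (Fin k → Fin (d + 1)) → ℂ) (B : Fin n) (i : Fin s) : ℂ :=
  ∑ t, c B i t * ∏ l, x i (t l)

theorem Gfun_eq_sum {s d k n : ℕ} (x : Fin s → Fin (d + 1) → ℂ)
    (c : Fin n → Fin s → (Fin k → Fin (d + 1)) → ℂ) (B : Fin n) :
    Gfun x c B = ∑ i, Gpart x c B i := rfl

/-- number of main index functions -/
noncomputable def nmain (j d : ℕ) (B : ℕ) : ℕ :=
  open Classical in
  (Finset.univ.filter (fun t : Fin (kk j d) → Fin (d + 1) =>
    IsMain (rB j d B) (fun l => (t l : ℕ)) ∧ ∑ l, (t l : ℕ) = B)).card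

theorem one_le_nmain {j d B : ℕ} (hd : 1 ≤ d) (hB : B ≤ kk j d * d) : 1 ≤ nmain j d B := by
  classical
  obtain ⟨t, ht1, ht2⟩ := exists_main (rB_lt (j := j) (B := B) hd) (aB_le hd hB)
  rw [mul_rB_add_aB] at ht2
  unfold nmain
  exact Finset.card_pos.2 ⟨t, by simp only [Finset.mem_filter, Finset.mem_univ, true_and]; exact ⟨ht1, ht2⟩⟩

/-- extension by `1` -/
noncomputable def extN {d : ℕ} (y : Fin (d + 1) → ℂ) (v : ℕ) : ℂ := if h : v < d + 1 then y ⟨v, h⟩ else 1

theorem extN_val {d : ℕ} (y : Fin (d + 1) → ℂ) (v : Fin (d + 1)) : extN y v = y v := by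
  unfold extN; rw [dif_pos v.2]

theorem Gpart_c0 {j d : ℕ} (x : Fin (ss j d) → Fin (d + 1) → ℂ)
    (B : Fin (kk j d * d + 1)) (i : Fin (ss j d)) :
    Gpart x (c0 j d) B i = if (i : ℕ) = own j d B then
      (nmain j d B : ℂ) * (extN (x i) (rB j d B) ^ (kk j d - aB j d B) *
        extN (x i) (rB j d B + 1) ^ (aB j d B)) else 0 := by
  classical
  unfold Gpart c0
  split
  · rename_i hi
    unfold nmain
    rw [Finset.card_filter]
    push_cast
    rw [Finset.sum_mul]
    refine Finset.sum_congr rfl (fun t _ => ?_)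
    by_cases ht : IsMain (rB j d B) (fun l => (t l : ℕ)) ∧ ∑ l, (t l : ℕ) = (B : ℕ)
    · rw [if_pos ⟨⟨hi, ht.1⟩, ht.2⟩, if_pos ht, one_mul, one_mul]
      have h1 : ∑ l, (t l : ℕ) = kk j d * rB j d B + aB j d B := by
        rw [mul_rB_add_aB]; exact ht.2
      have h2 := isMain_prod ht.1 h1 (extN (x i))
      rw [← h2]
      exact Finset.prod_congr rfl (fun l _ => (extN_val _ _).symm)
    · rw [if_neg (fun h => ht ⟨h.1.2, h.2⟩), if_neg ht, zero_mul, zero_mul]
  · rename_i hi
    refine Finset.sum_eq_zero (fun t _ => ?_)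
    rw [if_neg (fun h => hi h.1.1), zero_mul]

theorem Gfun_c0 {j d : ℕ} (x : Fin (ss j d) → Fin (d + 1) → ℂ)
    (B : Fin (kk j d * d + 1)) (i : Fin (ss j d)) (hi : (i : ℕ) = own j d B) :
    Gfun x (c0 j d) B = (nmain j d B : ℂ) * (extN (x i) (rB j d B) ^ (kk j d - aB j d B) *
        extN (x i) (rB j d B + 1) ^ (aB j d B)) := by
  rw [Gfun_eq_sum, Finset.sum_eq_single i]
  · rw [Gpart_c0, if_pos hi]
  · intro i' _ hne
    rw [Gpart_c0, if_neg]
    intro h
    exact hne (Fin.ext (h.trans hi.symm))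
  · simp

/-- monomials at the solutions -/
theorem bet_monomial {j d : ℕ} (hj : 1 ≤ j) (hd : 1 ≤ d) (lam : Lab j d) {B : ℕ}
    (hB : B ≤ kk j d * d) (i : Fin (ss j d)) (hi : (i : ℕ) = own j d B) :
    extN (bet lam i) (rB j d B) ^ (kk j d - aB j d B) *
        extN (bet lam i) (rB j d B + 1) ^ (aB j d B) = 1 := by
  have hr := rB_lt (j := j) (B := B) hd
  have hile : (i : ℕ) ≤ j * d := by have := i.2; unfold ss at this; omega
  have hsp := own_spec hd hB
  rw [← hi] at hsp
  have h := bP_pair hj hd hile (lfun lam i) _ hr _ hsp.2.1 hsp.2.2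
  have e1 : extN (bet lam i) (rB j d B) =
      bP (anch j d i) (qq j d i) (rr j d i) (lfun lam i) (rB j d B) := by
    unfold extN bet; rw [dif_pos (by omega)]
  have e2 : extN (bet lam i) (rB j d B + 1) =
      bP (anch j d i) (qq j d i) (rr j d i) (lfun lam i) (rB j d B + 1) := by
    unfold extN bet; rw [dif_pos (by omega)]
  rw [e1, e2]
  have ha := aB_le hd hB
  unfold αB ev od at h
  by_cases hp : rB j d B % 2 = 0
  · simp only [if_pos hp] at h; exact h
  · simp only [if_neg hp] at h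
    rw [mul_comm, show kk j d - (kk j d - aB j d B) = aB j d B by omega] at h
    exact h

theorem Gpart_bet {j d : ℕ} (hj : 1 ≤ j) (hd : 1 ≤ d) (lam : Lab j d)
    (B : Fin (kk j d * d + 1)) (i : Fin (ss j d)) :
    Gpart (bet lam) (c0 j d) B i = if (i : ℕ) = own j d B then (nmain j d B : ℂ) else 0 := by
  rw [Gpart_c0]
  split
  · rename_i hi
    rw [bet_monomial hj hd lam (Nat.lt_succ_iff.1 B.2) i hi, mul_one]
  · rfl

theorem Gfun_bet {j d : ℕ} (hj : 1 ≤ j) (hd : 1 ≤ d) (lam : Lab j d) :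
    Gfun (bet lam) (c0 j d) = fun B : Fin (kk j d * d + 1) => (nmain j d (B : ℕ) : ℂ) := by
  funext B
  have hB : (B : ℕ) ≤ kk j d * d := Nat.lt_succ_iff.1 B.2
  have hsp := own_spec hd hB
  rw [Gfun_c0 _ B ⟨own j d B, hsp.1⟩ rfl, bet_monomial hj hd lam hB _ rfl, mul_one]

theorem bet_ne_zero {j d : ℕ} (lam : Lab j d) (i : Fin (ss j d)) (v : Fin (d + 1)) :
    bet lam i v ≠ 0 := bP_ne_zero _ _ _ _ _

/-- nondegeneracy of the limit system at the solutions -/
theorem bet_nondeg {j d : ℕ} (hj : 1 ≤ j) (hd : 1 ≤ d) (lam : Lab j d)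
    (v : Fin (ss j d) → Fin (d + 1) → ℂ)
    (hv : ∀ B, HasDerivAt (fun z : ℂ => Gfun (bet lam + z • v) (c0 j d) B) 0 0) : v = 0 := by
  funext i
  have hile : (i : ℕ) ≤ j * d := by have := i.2; unfold ss at this; omega
  let u : ℕ → ℂ := fun w => if h : w < d + 1 then v i ⟨w, h⟩ / bet lam i ⟨w, h⟩ else 0
  have hpair : PairEq j d i u := by
    apply pairEq_of_B hj hd hile
    intro B hB hown
    have hr := rB_lt (j := j) (B := B) hd
    set m := rB j d B with hm
    set a := aB j d B with ha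
    set b0 := bet lam i ⟨m, by omega⟩ with hb0
    set b1 := bet lam i ⟨m + 1, by omega⟩ with hb1
    set v0 := v i ⟨m, by omega⟩ with hv0
    set v1 := v i ⟨m + 1, by omega⟩ with hv1
    have hfun : ∀ z : ℂ, Gfun (bet lam + z • v) (c0 j d) ⟨B, Nat.lt_succ_of_le hB⟩ =
        (nmain j d B : ℂ) * ((b0 + z * v0) ^ (kk j d - a) * (b1 + z * v1) ^ a) := by
      intro z
      rw [Gfun_c0 _ ⟨B, Nat.lt_succ_of_le hB⟩ i hown.symm]
      simp only [← hm, ← ha]
      have e1 : extN ((bet lam + z • v) i) m = b0 + z * v0 := by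
        unfold extN; rw [dif_pos (by omega)]; rfl
      have e2 : extN ((bet lam + z • v) i) (m + 1) = b1 + z * v1 := by
        unfold extN; rw [dif_pos (by omega)]; rfl
      rw [e1, e2]
    have h1 := hv ⟨B, Nat.lt_succ_of_le hB⟩
    simp only [hfun] at h1
    have hd0 : HasDerivAt (fun z : ℂ => b0 + z * v0) v0 0 := by
      simpa using ((hasDerivAt_id (0 : ℂ)).mul_const v0).const_add b0
    have hd1 : HasDerivAt (fun z : ℂ => b1 + z * v1) v1 0 := by
      simpa using ((hasDerivAt_id (0 : ℂ)).mul_const v1).const_add b1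
    have h2 := ((hd0.pow (kk j d - a)).mul (hd1.pow a)).const_mul (nmain j d B : ℂ)
    have h3 := h1.unique h2
    have hmon := bet_monomial hj hd lam hB i hown.symm
    have e1 : extN (bet lam i) m = b0 := by unfold extN; rw [dif_pos (by omega)]
    have e2 : extN (bet lam i) (m + 1) = b1 := by unfold extN; rw [dif_pos (by omega)]
    rw [← hm, ← ha, e1, e2] at hmon
    have hb0ne : b0 ≠ 0 := bet_ne_zero _ _ _
    have hb1ne : b1 ≠ 0 := bet_ne_zero _ _ _
    have hn : (nmain j d B : ℂ) ≠ 0 := by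
      have := one_le_nmain hd hB
      exact_mod_cast (by omega : nmain j d B ≠ 0)
    have eu0 : u m = v0 / b0 := by simp only [u]; rw [dif_pos (by omega)]
    have eu1 : u (m + 1) = v1 / b1 := by simp only [u]; rw [dif_pos (by omega)]
    rw [eu0, eu1, nsmul_eq_mul, nsmul_eq_mul]
    have hpow : ∀ (n : ℕ) (b w : ℂ), b ≠ 0 → (n : ℂ) * b ^ (n - 1) * w = b ^ n * (n * (w / b)) := by
      intro n b w hb
      rcases Nat.eq_zero_or_pos n with hn0 | hn0
      · subst hn0; simp
      · have : b ^ n = b ^ (n - 1) * b := by rw [← pow_succ]; congr 1; omega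
        rw [this]; field_simp
    simp only [zero_mul, add_zero, Pi.pow_apply] at h3
    rw [hpow _ _ _ hb0ne, hpow _ _ _ hb1ne] at h3
    have h4 : (nmain j d B : ℂ) * ((b0 ^ (kk j d - a) * b1 ^ a) *
        (((kk j d - a : ℕ) : ℂ) * (v0 / b0) + (a : ℂ) * (v1 / b1))) = 0 := by
      rw [h3]; ring
    rw [hmon, one_mul] at h4
    exact (mul_eq_zero.1 h4).resolve_left hn
  have hz := eq_zero_of_pairEq hj hd hile u hpair
  funext w
  have h1 := hz w (Nat.lt_succ_iff.1 w.2)
  simp only [u] at h1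
  rw [dif_pos w.2] at h1
  have h2 := (div_eq_zero_iff.1 h1).resolve_right (bet_ne_zero _ _ _)
  simpa using h2

end Pool.Agent.Helper14
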