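import Mathlib
import Pool.Agent.Helper14.Many

/-!
# An open set of forms with many decompositions: conclusion
-/

namespace Pool.Agent.Helper14

open scoped Topology
open Filter

theorem qq_anch {j d i : ℕ} : qq j d i (anch j d i) = 1 := by
  unfold qq anch
  by_cases h0 : i = 0
  · simp [h0]
  · simp only [if_neg h0]
    by_cases h1 : i < j * d
    · simp [h1]
    · simp [h1]

/-- separation of the finitely many solutions -/
theorem exists_sep (j d : ℕ) : ∃ δ : ℝ, 0 < δ ∧ ∀ (lam lam' : Lab j d) (i : Fin (ss j d))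
    (v : Fin (d + 1)) (z : ℂ), z ^ kk j d = 1 → bet lam i v ≠ z * bet lam' i v →
      2 * δ ≤ ‖bet lam i v - z * bet lam' i v‖ := by
  classical
  have hk := kk_pos j d
  let Z := {z : ℂ // z ∈ Polynomial.nthRootsFinset (kk j d) (1 : ℂ)}
  have h1 : ∀ᶠ δ : ℝ in 𝓝[>] 0, ∀ p : Lab j d × Lab j d × Fin (ss j d) × Fin (d + 1) × Z,
      bet p.1 p.2.2.1 p.2.2.2.1 ≠ p.2.2.2.2.1 * bet p.2.1 p.2.2.1 p.2.2.2.1 →
      2 * δ ≤ ‖bet p.1 p.2.2.1 p.2.2.2.1 - p.2.2.2.2.1 * bet p.2.1 p.2.2.1 p.2.2.2.1‖ := by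
    rw [eventually_all]
    intro p
    by_cases hp : bet p.1 p.2.2.1 p.2.2.2.1 ≠ p.2.2.2.2.1 * bet p.2.1 p.2.2.1 p.2.2.2.1
    · have h2 : 0 < ‖bet p.1 p.2.2.1 p.2.2.2.1 - p.2.2.2.2.1 * bet p.2.1 p.2.2.1 p.2.2.2.1‖ :=
        norm_pos_iff.2 (sub_ne_zero.2 hp)
      have h3 : ∀ᶠ δ : ℝ in 𝓝[>] 0, δ <
          ‖bet p.1 p.2.2.1 p.2.2.2.1 - p.2.2.2.2.1 * bet p.2.1 p.2.2.1 p.2.2.2.1‖ / 2 :=
        nhdsWithin_le_nhds (gt_mem_nhds (half_pos h2))
      filter_upwards [h3] with δ hδ _
      linarith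
    · exact Eventually.of_forall (fun δ h => absurd h hp)
  obtain ⟨δ, hδ, hδ0⟩ := (h1.and self_mem_nhdsWithin).exists
  refine ⟨δ, hδ0, fun lam lam' i v z hz hne => ?_⟩
  exact hδ (lam, lam', i, v, ⟨z, (Polynomial.mem_nthRootsFinset (by omega) (1 : ℂ)).2 hz⟩) hne

theorem continuous_Gpart {s d k n : ℕ} (B : Fin n) (i : Fin s) :
    Continuous (fun p : (Fin s → Fin (d + 1) → ℂ) ×
      (Fin n → Fin s → (Fin k → Fin (d + 1)) → ℂ) => Gpart p.1 p.2 B i) := by
  unfold Gpart
  fun_prop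

theorem powCoeff_scaled {j d : ℕ} (τ : ℝ) (x : Fin (ss j d) → Fin (d + 1) → ℂ)
    (i : Fin (ss j d)) (B : Fin (kk j d * d + 1)) :
    powCoeff (kk j d) (fun v => ((Real.exp (-τ * nuw j d i (v : ℕ)) : ℝ) : ℂ) * x i v) B =
      ((Real.exp (-τ * wB j d B) : ℝ) : ℂ) * Gpart x (cτ j d τ) B i := by
  unfold powCoeff Gpart cτ
  rw [Finset.mul_sum]
  refine Finset.sum_congr rfl (fun t _ => ?_)
  split
  · rw [Finset.prod_mul_distrib, ← mul_assoc, ← Complex.ofReal_mul, ← Complex.ofReal_prod,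
      ← Real.exp_sum, ← Real.exp_add]
    congr 3
    rw [← Finset.mul_sum]
    ring_nf
  · rw [zero_mul, mul_zero]

theorem exists_open_many {j d : ℕ} (hj : 1 ≤ j) (hd : 1 ≤ d) :
    ∃ U : Set (Fin (kk j d * d + 1) → ℂ), IsOpen U ∧ U.Nonempty ∧ ∀ f ∈ U,
      ∃ g : Lab j d → Fin (ss j d) → Fin (d + 1) → ℂ,
        (∀ lam (B : Fin (kk j d * d + 1)), ∑ i, powCoeff (kk j d) (g lam i) B = f B) ∧
        ∀ lam lam', (∃ σ : Equiv.Perm (Fin (ss j d)), ∀ i, ∀ B : Fin (kk j d * d + 1),
          powCoeff (kk j d) (g lam i) B = powCoeff (kk j d) (g lam' (σ i)) B) → lam = lam' := by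
  classical
  have hk := kk_pos j d
  have hdim : ss j d * (d + 1) = kk j d * d + 1 := by unfold ss kk; ring
  obtain ⟨δ, hδ, hsep⟩ := exists_sep j d
  set φ : Fin (kk j d * d + 1) → ℂ := fun B => (nmain j d (B : ℕ) : ℂ) with hφ
  -- neighbourhoods on which the parts are under control
  have hcont : ∀ lam : Lab j d, ∀ᶠ p in 𝓝 (bet lam, c0 j d),
      ∀ (B : Fin (kk j d * d + 1)) (i : Fin (ss j d)),
        ‖Gpart p.1 p.2 B i - Gpart (bet lam) (c0 j d) B i‖ < 1 / 2 := by
    intro lam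
    rw [eventually_all]
    intro B
    rw [eventually_all]
    intro i
    have h1 := (continuous_Gpart (s := ss j d) (d := d) (k := kk j d) B i).tendsto
      (bet lam, c0 j d)
    have h2 := (Metric.tendsto_nhds.1 h1) (1 / 2) (by norm_num)
    filter_upwards [h2] with p hp
    rwa [dist_eq_norm] at hp
  have hcont' : ∀ lam : Lab j d, ∃ V ∈ 𝓝 (bet lam), ∃ C ∈ 𝓝 (c0 j d), ∀ x ∈ V, ∀ c ∈ C,
      ∀ (B : Fin (kk j d * d + 1)) (i : Fin (ss j d)),
        ‖Gpart x c B i - Gpart (bet lam) (c0 j d) B i‖ < 1 / 2 := by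
    intro lam
    obtain ⟨V, hV, C, hC, h⟩ := mem_nhds_prod_iff.1 (hcont lam)
    exact ⟨V, hV, C, hC, fun x hx c hc => h (Set.mk_mem_prod hx hc)⟩
  choose V hV C hC hVC using hcont'
  -- the solutions near each label
  have hsol : ∀ lam : Lab j d, ∀ᶠ p in 𝓝 (φ, c0 j d),
      p.2 ∈ C lam ∧ ∃ x ∈ V lam ∩ Metric.ball (bet lam) δ, Gfun x p.2 = p.1 := by
    intro lam
    have h1 := eventually_exists_solution hdim (bet lam) (c0 j d)
      (bet_nondeg hj hd lam) (V lam ∩ Metric.ball (bet lam) δ)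
      (inter_mem (hV lam) (Metric.ball_mem_nhds _ hδ))
    rw [Gfun_bet hj hd lam] at h1
    have h2 : ∀ᶠ p in 𝓝 (φ, c0 j d), p.2 ∈ C lam :=
      continuousAt_snd.eventually (hC lam)
    exact h2.and h1
  have hsol' := eventually_all.2 hsol
  obtain ⟨U0, hU0, W0, hW0, hUW⟩ := mem_nhds_prod_iff.1 hsol'
  obtain ⟨U1, hU1sub, hU1open, hU1mem⟩ := mem_nhds_iff.1 hU0
  obtain ⟨τ, hτ⟩ := ((tendsto_cτ hj hd).eventually hW0).exists
  -- scaling
  set sc : Fin (kk j d * d + 1) → ℂ := fun B => ((Real.exp (-τ * wB j d B) : ℝ) : ℂ) with hsc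
  have hsc0 : ∀ B, sc B ≠ 0 := by
    intro B
    simp only [hsc]
    exact_mod_cast (Real.exp_pos _).ne'
  refine ⟨{f | (fun B => (sc B)⁻¹ * f B) ∈ U1}, ?_, ?_, ?_⟩
  · exact hU1open.preimage (by fun_prop)
  · refine ⟨fun B => sc B * φ B, ?_⟩
    show (fun B => (sc B)⁻¹ * (sc B * φ B)) ∈ U1
    have : (fun B => (sc B)⁻¹ * (sc B * φ B)) = φ := by
      funext B; rw [← mul_assoc, inv_mul_cancel₀ (hsc0 B), one_mul]
    rw [this]; exact hU1mem
  · intro f hf
    have h1 : ((fun B => (sc B)⁻¹ * f B), cτ j d τ) ∈ U0 ×ˢ W0 :=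
      Set.mk_mem_prod (hU1sub hf) hτ
    have h2 := hUW h1
    have h3 : ∀ lam : Lab j d, cτ j d τ ∈ C lam ∧ ∃ x ∈ V lam ∩ Metric.ball (bet lam) δ,
      Gfun x (cτ j d τ) = fun B => (sc B)⁻¹ * f B := h2
    choose hCm x hx hxG using h3
    refine ⟨fun lam i v => ((Real.exp (-τ * nuw j d i (v : ℕ)) : ℝ) : ℂ) * x lam i v, ?_, ?_⟩
    · intro lam B
      simp only [powCoeff_scaled]
      rw [← Finset.mul_sum, ← Gfun_eq_sum, hxG lam]
      show sc B * ((sc B)⁻¹ * f B) = f B
      rw [← mul_assoc, mul_inv_cancel₀ (hsc0 B), one_mul]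
    · rintro lam lam' ⟨σ, hσ⟩
      simp only [powCoeff_scaled] at hσ
      have hG : ∀ i B, Gpart (x lam) (cτ j d τ) B i = Gpart (x lam') (cτ j d τ) B (σ i) :=
        fun i B => mul_left_cancel₀ (hsc0 B) (hσ i B)
      -- the permutation is trivial
      have hperm : ∀ i, σ i = i := by
        intro i
        by_contra hne
        have hile : (i : ℕ) ≤ j * d := by have := i.2; unfold ss at this; omega
        obtain ⟨B, hB, hown⟩ := exists_B_own hj hd hile
        have b1 := hVC lam (x lam) (hx lam).1 _ (hCm lam) ⟨B, Nat.lt_succ_of_le hB⟩ i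
        have b2 := hVC lam' (x lam') (hx lam').1 _ (hCm lam') ⟨B, Nat.lt_succ_of_le hB⟩ (σ i)
        rw [Gpart_bet hj hd] at b1 b2
        simp only at b1 b2
        rw [if_pos hown.symm] at b1
        rw [if_neg (fun h => hne (Fin.ext (h.trans hown))), sub_zero] at b2
        rw [← hG i] at b2
        have hn : (1 : ℝ) ≤ ‖(nmain j d B : ℂ)‖ := by
          rw [Complex.norm_natCast]
          exact_mod_cast one_le_nmain hd hB
        have h4 : ‖(nmain j d B : ℂ)‖ ≤
            ‖Gpart (x lam) (cτ j d τ) ⟨B, Nat.lt_succ_of_le hB⟩ i‖ +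
            ‖Gpart (x lam) (cτ j d τ) ⟨B, Nat.lt_succ_of_le hB⟩ i - (nmain j d B : ℂ)‖ := by
          have := norm_sub_le (Gpart (x lam) (cτ j d τ) ⟨B, Nat.lt_succ_of_le hB⟩ i)
            (Gpart (x lam) (cτ j d τ) ⟨B, Nat.lt_succ_of_le hB⟩ i - (nmain j d B : ℂ))
          rwa [sub_sub_cancel] at this
        linarith
      funext i
      have hile : (i : ℕ) ≤ j * d := by have := i.2; unfold ss at this; omega
      -- the two summands differ by a root of unity
      obtain ⟨z, hz, hzeq⟩ := eq_root_smul_of_powCoeff_eq (k := kk j d) (d := d) (by omega)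
        (b := fun v => ((Real.exp (-τ * nuw j d i (v : ℕ)) : ℝ) : ℂ) * x lam i v)
        (b' := fun v => ((Real.exp (-τ * nuw j d i (v : ℕ)) : ℝ) : ℂ) * x lam' i v)
        (fun B => by
          rw [powCoeff_scaled, powCoeff_scaled, hG i B, hperm i])
      have hxz : ∀ v, x lam i v = z * x lam' i v := by
        intro v
        have h5 := congrFun hzeq v
        simp only [Pi.smul_apply, smul_eq_mul] at h5
        have h6 : ((Real.exp (-τ * nuw j d i (v : ℕ)) : ℝ) : ℂ) ≠ 0 := by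
          exact_mod_cast (Real.exp_pos _).ne'
        apply mul_left_cancel₀ h6
        rw [h5]; ring
      have hznorm : ‖z‖ = 1 := Complex.norm_eq_one_of_pow_eq_one hz (by omega)
      have hbz : ∀ v, bet lam i v = z * bet lam' i v := by
        intro v
        by_contra hne
        have h7 := hsep lam lam' i v z hz hne
        have h8 : ‖x lam i v - bet lam i v‖ < δ := by
          rw [← dist_eq_norm]
          exact lt_of_le_of_lt ((dist_le_pi_dist (x lam i) (bet lam i) v).trans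
            (dist_le_pi_dist (x lam) (bet lam) i)) (hx lam).2
        have h9 : ‖x lam' i v - bet lam' i v‖ < δ := by
          rw [← dist_eq_norm]
          exact lt_of_le_of_lt ((dist_le_pi_dist (x lam' i) (bet lam' i) v).trans
            (dist_le_pi_dist (x lam') (bet lam') i)) (hx lam').2
        have h10 : bet lam i v - z * bet lam' i v =
            z * (x lam' i v - bet lam' i v) - (x lam i v - bet lam i v) := by
          rw [hxz v]; ring
        have h11 : ‖bet lam i v - z * bet lam' i v‖ < 2 * δ := by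
          rw [h10]
          calc _ ≤ ‖z * (x lam' i v - bet lam' i v)‖ + ‖x lam i v - bet lam i v‖ := norm_sub_le _ _
            _ < 2 * δ := by rw [norm_mul, hznorm, one_mul]; linarith
        linarith
      -- the anchor
      have hanch : anch j d i < d + 1 := Nat.lt_succ_of_le (anch_le hd)
      have hz1 : z = 1 := by
        have h12 := hbz ⟨anch j d i, hanch⟩
        unfold bet at h12
        simp only at h12
        rw [bP_anchor, bP_anchor, mul_one] at h12
        exact h12.symm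
      have hlab : ∀ v, v ≤ d → v ≠ anch j d i → lfun lam i v = lfun lam' i v := by
        apply bP_inj (anch_le hd) (qq j d i) (rr j d i)
        · intro v hv _
          unfold lfun; rw [dif_pos (Nat.lt_succ_of_le hv)]; exact (lam i _).2
        · intro v hv _
          unfold lfun; rw [dif_pos (Nat.lt_succ_of_le hv)]; exact (lam' i _).2
        · intro v hv
          have h13 := hbz ⟨v, Nat.lt_succ_of_le hv⟩
          rw [hz1, one_mul] at h13
          exact h13
      funext v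
      apply Fin.ext
      by_cases hv : (v : ℕ) = anch j d i
      · have h14 : qq j d i v = 1 := by rw [hv]; exact qq_anch
        have h15 := (lam i v).2
        have h16 := (lam' i v).2
        omega
      · have h17 := hlab v (Nat.lt_succ_iff.1 v.2) hv
        unfold lfun at h17
        rw [dif_pos v.2, dif_pos v.2] at h17
        exact h17

end Pool.Agent.Helper14
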