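import Mathlib
import Pool.Agent.Helper14.Count
import Pool.Agent.Helper14.OpenMany

/-!
# Two-sided bound for the number of decompositions
-/

namespace Pool.Agent.Helper14

open MvPolynomial

theorem algebraicIndependent_wmap {j d : ℕ} (hj : 1 ≤ j) (hd : 1 ≤ d) :
    AlgebraicIndependent ℂ (wmap (ss j d) (kk j d) d) := by
  classical
  obtain ⟨U, hU, hne, h⟩ := exists_open_many hj hd
  rw [algebraicIndependent_iff]
  intro P hP
  apply eq_zero_of_eval_eq_zero_on_open hU hne
  intro f hf
  obtain ⟨g, hg, _⟩ := h f hf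
  have hqq : ∀ (i : Fin (ss j d)) (v : Fin (d + 1)), 0 < qq j d i v := by
    intro i v
    exact one_le_qq (j := j) (d := d) hd (i := i) (v := v)
        (by have := i.2; unfold ss at this; omega)
  let lam : Lab j d := fun i v => ⟨0, hqq i v⟩
  have h1 : polyMap (wmap (ss j d) (kk j d) d) (fun p => g lam p.1 p.2) = f := by
    funext B
    rw [polyMap, eval_wmap]
    exact hg lam B
  have h2 := eval_aeval_polyMap (wmap (ss j d) (kk j d) d) (fun p => g lam p.1 p.2) P
  rw [hP, map_zero, h1] at h2
  exact h2.symm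

theorem two_sided {j d : ℕ} (hj : 1 ≤ j) (hd : 1 ≤ d) :
    ∃ (N : ℕ) (P : MvPolynomial (Fin (kk j d * d + 1)) ℂ), P ≠ 0 ∧
      (∀ c, eval c P ≠ 0 → (Dec (ss j d) (kk j d) d (hom (kk j d * d) c)).encard = N) ∧
      (kk j d * ∏ i ∈ Finset.Icc 1 (j * d - 1), (i + i / d)) ^ (d - 1) ≤ N ∧
      N * (ss j d).factorial ≤ kk j d ^ (ss j d * d) := by
  classical
  have hk := kk_pos j d
  have : NeZero (kk j d) := ⟨by omega⟩
  have hk0 : 0 < kk j d := by omega
  have hdim : ss j d * (d + 1) = kk j d * d + 1 := by unfold ss kk; ring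
  have hw := algebraicIndependent_wmap hj hd
  have hcard : Fintype.card (Fin (ss j d) × Fin (d + 1)) = Fintype.card (Fin (kk j d * d + 1)) := by
    rw [Fintype.card_prod, Fintype.card_fin, Fintype.card_fin, Fintype.card_fin, hdim]
  obtain ⟨M, P1, hP1, hfib, b, hb⟩ := exists_generic_card _ hw hcard
  obtain ⟨P2, hP2, hgood⟩ := exists_ne_zero_on_fiber _ hw hcard
    (goodPoly (ss j d) (kk j d) d) (goodPoly_ne_zero hk0)
  set G := Equiv.Perm (Fin (ss j d)) × (Fin (ss j d) → rootsOfUnity (kk j d) ℂ) with hG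
  have hGcard : Nat.card G = (ss j d).factorial * kk j d ^ ss j d := by
    rw [hG, Nat.card_prod, Nat.card_pi, Nat.card_eq_fintype_card, Fintype.card_perm,
      Fintype.card_fin]
    simp only [Complex.card_rootsOfUnity, Finset.prod_const, Finset.card_univ, Fintype.card_fin]
  have hGpos : 0 < Nat.card G := by
    rw [hGcard]; positivity
  have hGfin : Finite G := Nat.finite_of_card_ne_zero hGpos.ne'
  -- the count on a generic fibre
  have hcount : ∀ c, eval c (P1 * P2) ≠ 0 →
      (Dec (ss j d) (kk j d) d (hom (kk j d * d) c)).Finite ∧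
      (Dec (ss j d) (kk j d) d (hom (kk j d * d) c)).ncard * Nat.card G = M := by
    intro c hc
    rw [map_mul, mul_ne_zero_iff] at hc
    have h1 := hfib c hc.1
    have h2 : ∀ x : Fin (ss j d) × Fin (d + 1) → ℂ,
        polyMap (wmap (ss j d) (kk j d) d) x = c → Good (kk j d) x := by
      intro x hx
      rw [← eval_goodPoly_ne_zero_iff]
      apply hgood
      rw [hx]
      exact hc.2
    obtain ⟨e⟩ := card_fiber_eq hk0 h2
    have h3 : {x : Fin (ss j d) × Fin (d + 1) → ℂ |
        polyMap (wmap (ss j d) (kk j d) d) x = c}.Finite := by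
      rw [← Set.encard_lt_top_iff, h1]
      exact ENat.natCast_lt_top M
    have h4 : {x : Fin (ss j d) × Fin (d + 1) → ℂ |
        polyMap (wmap (ss j d) (kk j d) d) x = c}.ncard = M := by
      rw [Set.ncard_def, h1]; rfl
    have h5 : Finite {x : Fin (ss j d) × Fin (d + 1) → ℂ |
        polyMap (wmap (ss j d) (kk j d) d) x = c} := h3
    have h6 : Finite ((Dec (ss j d) (kk j d) d (hom (kk j d * d) c)) × G) :=
      Finite.of_equiv _ e
    have h7 : Nonempty G := (Nat.card_pos_iff.1 hGpos).1
    have h8 : Finite (Dec (ss j d) (kk j d) d (hom (kk j d * d) c)) :=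
      Finite.of_surjective (Prod.fst : (Dec (ss j d) (kk j d) d (hom (kk j d * d) c)) × G → _)
        Prod.fst_surjective
    refine ⟨h8, ?_⟩
    have h9 := Nat.card_congr e
    rw [Nat.card_prod] at h9
    rw [← h4]
    exact h9.symm
  -- the open set
  obtain ⟨U, hU, hne, hmany⟩ := exists_open_many hj hd
  have hP12 : P1 * P2 ≠ 0 := mul_ne_zero hP1 hP2
  obtain ⟨f, hfU, hfP⟩ : ∃ f ∈ U, eval f (P1 * P2) ≠ 0 := by
    by_contra hcon
    push Not at hcon
    exact hP12 (eq_zero_of_eval_eq_zero_on_open hU hne _ hcon)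
  obtain ⟨hffin, hfcard⟩ := hcount f hfP
  refine ⟨(Dec (ss j d) (kk j d) d (hom (kk j d * d) f)).ncard, P1 * P2, hP12, ?_, ?_, ?_⟩
  · intro c hc
    obtain ⟨hcfin, hccard⟩ := hcount c hc
    have h1 : (Dec (ss j d) (kk j d) d (hom (kk j d * d) c)).ncard =
        (Dec (ss j d) (kk j d) d (hom (kk j d * d) f)).ncard :=
      Nat.eq_of_mul_eq_mul_right hGpos (hccard.trans hfcard.symm)
    rw [← h1, Set.Finite.cast_ncard_eq hcfin]
  · obtain ⟨g, hg, hginj⟩ := hmany f hfU
    have hmem : ∀ lam, polyMap (wmap (ss j d) (kk j d) d) (fun p => g lam p.1 p.2) = f := by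
      intro lam
      funext B
      rw [polyMap, eval_wmap]
      exact hg lam B
    have hgoodl : ∀ lam, Good (kk j d) (fun p : Fin (ss j d) × Fin (d + 1) => g lam p.1 p.2) := by
      intro lam
      rw [← eval_goodPoly_ne_zero_iff]
      apply hgood
      rw [hmem]
      rw [map_mul, mul_ne_zero_iff] at hfP
      exact hfP.2
    let Ψ : Lab j d → (Dec (ss j d) (kk j d) d (hom (kk j d * d) f)) := fun lam =>
      ⟨collect (kk j d) (fun p => g lam p.1 p.2), collect_mem (hmem lam)⟩
    have hΨ : Function.Injective Ψ := by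
      intro lam lam' h
      apply hginj
      have h1 : collect (kk j d) (fun p : Fin (ss j d) × Fin (d + 1) => g lam p.1 p.2) =
        collect (kk j d) (fun p => g lam' p.1 p.2) := congrArg Subtype.val h
      obtain ⟨σ, hσ⟩ := exists_perm_of_map_eq ((hgoodl lam).injective hk0) h1
      refine ⟨σ, fun i B => ?_⟩
      have h2 := hσ i
      rw [pw_eq, pw_eq] at h2
      exact congrFun (hom_injective _ h2) B
    have : Finite (Dec (ss j d) (kk j d) d (hom (kk j d * d) f)) := hffin
    have h3 := Nat.card_le_card_of_injective Ψ hΨ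
    rw [Nat.card_eq_fintype_card, card_Lab] at h3
    exact (prod_qq_total hj hd).trans h3
  · have h1 : M ≤ kk j d ^ Fintype.card (Fin (ss j d) × Fin (d + 1)) :=
      le_pow_of_powers_independent _ hcard (kk j d) hk0 (fun t => totalDegree_wmap_le t) b M hb
    rw [Fintype.card_prod, Fintype.card_fin, Fintype.card_fin, mul_add, mul_one, pow_add,
      ← hfcard, hGcard, ← mul_assoc] at h1
    exact Nat.le_of_mul_le_mul_right h1 (by positivity)

end Pool.Agent.Helper14
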